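import Pool.Agent.H32.MJ.J4

/-!
# MP_ede373, measure of `j(y)`, row J6: zero estimate in one variable

* `HV_nondeg`: from `U2.nondeg b`: apply it to `c i k = if i = 0 then R k else 0`: it gives `x1, x2` in the unit disc with
  `‖R k‖ ≤ C0^(D+1) ‖∑_k R k * HH b D 0 x1 * HH b D k x2‖ = C0^(D+1) ‖HH b D 0 x1‖ ‖HV b D R x2‖`, and `HH b D 0 x1 = b.A x1^(2 D)` is bounded by `C'^D` on the unit disc (`b.dA.continuous`
  on the compact disc, or `CZ.growth'`). Take `x = x2`.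
* `HV_low`: let `ρ = max ‖R k‖` (`Finset.exists_max_image`), `x` from `HV_nondeg`, `C0` its constant, `C'` from `HV_growth`, `R0 = 3 + 2 ‖y‖`. Apply `U2.hermite` to `g v = HV b D R (x + v)` (entire by `HH_diff`), `n` points `u_i = v_i - x`
  (`‖u_i‖ ≤ 2 + 2‖y‖ ≤ R0`), multiplicity `S = 1`: local structure with `a` the constant function `g (u_i)` and `b = dslope g (u_i)` (entire: as in the proof of `Hm_gen`), `‖a‖ ≤ η`;
  `M = ρ exp (C' D (1 + (1 + 4 R0)^2))` (`HV_growth`). So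
  `ρ ≤ C0^(D+1) ‖g 0‖ ≤ C0^(D+1) (1/3)^n M + C0^(D+1) 2 n (2 R0/δ)^n η`. If `n ≥ C D` with `C` large, then `C0^(D+1) (1/3)^n exp (C' D (1 + (1 + 4 R0)^2)) ≤ 1/2` (`(1/3)^n ≤ exp (-n)`,
  `D + 1 ≤ 2 D`), hence `ρ ≤ 4 n C0^(D+1) (2 R0/δ)^n η ≤ (C/δ)^(2 n) η` (`D + 1 ≤ 2 n`, `4 n ≤ 4^n`, `δ ≤ 1`).
-/

set_option autoImplicit false

namespace MJ

open Complex Metric U2

variable {y : ℂ} (b : CZ.BaseFn y)

theorem HV_nondeg (hy : 0 < y.im) : ∃ C : ℕ, 1 ≤ C ∧ ∀ (D : ℕ) (R : Fin (D + 1) → ℂ),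
    ∃ x : ℂ, ‖x‖ ≤ 1 ∧ ∀ k, ‖R k‖ ≤ (C : ℝ) ^ (D + 1) * ‖HV b D R x‖ := by
  obtain ⟨C0, hC0, hnd⟩ := nondeg b
  obtain ⟨K, hK1, hK⟩ : ∃ K : ℕ, 1 ≤ K ∧ ∀ x : ℂ, ‖x‖ ≤ 1 → ‖b.A x‖ ≤ K := by
    obtain ⟨K0, hK0⟩ := (isCompact_closedBall (0 : ℂ) 1).exists_bound_of_continuousOn
      (f := b.A) b.dA.continuous.continuousOn
    refine ⟨⌈K0⌉₊ + 1, by omega, fun x hx => ?_⟩
    have h1 := hK0 x (by rw [mem_closedBall_zero_iff]; exact hx)
    have h2 := Nat.le_ceil K0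
    push_cast
    linarith
  refine ⟨C0 * K ^ 2, ?_, ?_⟩
  · exact Nat.one_le_iff_ne_zero.2 (by positivity)
  intro D R
  obtain ⟨x1, x2, hx1, hx2, hb⟩ := hnd D (fun i k => if i = 0 then R k else 0)
  refine ⟨x2, hx2, fun k => ?_⟩
  have h1 := hb 0 k
  have h2 : ∑ j1 : Fin (D + 1), ∑ j2 : Fin (D + 1),
      (if j1 = 0 then R j2 else 0) * HH b D j1 x1 * HH b D j2 x2 =
      HH b D 0 x1 * HV b D R x2 := by
    rw [Finset.sum_eq_single 0]
    · simp only [if_true, HV, Finset.mul_sum, Fin.val_zero]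
      exact Finset.sum_congr rfl fun j _ => by ring
    · intro j _ hj
      simp [hj]
    · intro h
      exact absurd (Finset.mem_univ _) h
  rw [h2] at h1
  simp only [if_true] at h1
  have h3 : ‖HH b D 0 x1‖ ≤ ((K : ℝ) ^ 2) ^ (D + 1) := by
    unfold HH
    rw [pow_zero, mul_one, Nat.sub_zero, norm_pow, pow_mul]
    have h4 := hK x1 hx1
    have hK1' : (1 : ℝ) ≤ K := by exact_mod_cast hK1
    calc (‖b.A x1‖ ^ 2) ^ D ≤ ((K : ℝ) ^ 2) ^ D := by gcongr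
      _ ≤ ((K : ℝ) ^ 2) ^ (D + 1) :=
        pow_le_pow_right₀ (one_le_pow₀ hK1') (Nat.le_succ D)
  refine h1.trans ?_
  rw [norm_mul]
  push_cast
  rw [mul_pow, mul_assoc]
  gcongr

private theorem J6_loc (g : ℂ → ℂ) (hg : Differentiable ℂ g) (u : ℂ) (δ ε : ℝ)
    (h : ‖g u‖ ≤ ε) : ∃ a b : ℂ → ℂ, Differentiable ℂ a ∧ Differentiable ℂ b ∧
      (∀ v, g v = a v + (v - u) ^ 1 * b v) ∧ ∀ v, ‖v - u‖ ≤ δ → ‖a v‖ ≤ ε := by
  refine ⟨fun _ => g u, dslope g u, differentiable_const _, ?_, ?_, fun _ _ => h⟩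
  · rw [← differentiableOn_univ, Complex.differentiableOn_dslope Filter.univ_mem]
    exact hg.differentiableOn
  · intro v
    have := sub_smul_dslope g u v
    rw [smul_eq_mul] at this
    rw [pow_one, this]
    ring

theorem HV_low (hy : 0 < y.im) : ∃ C : ℕ, 1 ≤ C ∧ ∀ (D : ℕ) (R : Fin (D + 1) → ℂ) (n : ℕ)
    (v : Fin n → ℂ) (δ η : ℝ), 1 ≤ D → C * D ≤ n → 0 < δ → δ ≤ 1 → 0 ≤ η →
    (∀ i, ‖v i‖ ≤ 1 + 2 * ‖y‖) → (∀ i k, i ≠ k → 2 * δ ≤ ‖v i - v k‖) →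
    (∀ i, ‖HV b D R (v i)‖ ≤ η) → ∀ k, ‖R k‖ ≤ ((C : ℝ) / δ) ^ (2 * n) * η := by
  obtain ⟨C0, hC0, hnd⟩ := HV_nondeg b hy
  obtain ⟨C1, hC1, hgr⟩ := HV_growth b hy
  set R0 : ℝ := 3 + 2 * ‖y‖ with hR0
  have hy0 := norm_nonneg y
  have hR03 : 3 ≤ R0 := by rw [hR0]; linarith
  set L : ℝ := 1 + (1 + 4 * R0) ^ 2 with hL
  have hL1 : 1 ≤ L := by
    rw [hL]
    nlinarith [sq_nonneg (1 + 4 * R0)]
  have hC0' : (1 : ℝ) ≤ C0 := by exact_mod_cast hC0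
  have hC1' : (1 : ℝ) ≤ C1 := by exact_mod_cast hC1
  set Cr : ℝ := 2 * C0 + C1 * L + 1 + 8 * C0 ^ 2 * R0 with hCr
  have hCL : 0 ≤ C1 * L := by positivity
  have h8 : 0 ≤ 8 * (C0 : ℝ) ^ 2 * R0 := by positivity
  have hCr1 : 1 ≤ Cr := by
    rw [hCr]
    linarith
  refine ⟨⌈Cr⌉₊, Nat.one_le_ceil_iff.2 (by linarith), ?_⟩
  intro D R n v δ η hD hn hδ hδ1 hη hv hsep hval
  have hCc : Cr ≤ (⌈Cr⌉₊ : ℝ) := Nat.le_ceil _
  set C : ℝ := (⌈Cr⌉₊ : ℝ) with hCdef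
  have hC1r : 1 ≤ C := hCr1.trans hCc
  have hDr : (1 : ℝ) ≤ D := by exact_mod_cast hD
  have hnr : C * D ≤ n := by
    rw [hCdef]
    exact_mod_cast hn
  have hDn : (D : ℝ) ≤ n := by nlinarith
  have hDnN : D ≤ n := by exact_mod_cast hDn
  have hn1 : 1 ≤ n := le_trans hD hDnN
  -- the largest coefficient
  obtain ⟨k0, -, hk0⟩ := Finset.exists_max_image (Finset.univ : Finset (Fin (D + 1)))
    (fun k => ‖R k‖) ⟨0, Finset.mem_univ _⟩
  set ρ : ℝ := ‖R k0‖ with hρ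
  have hρ0 : 0 ≤ ρ := norm_nonneg _
  have hρk : ∀ k, ‖R k‖ ≤ ρ := fun k => hk0 k (Finset.mem_univ _)
  obtain ⟨x, hx, hxk⟩ := hnd D R
  set g : ℂ → ℂ := fun w => HV b D R (x + w) with hg
  have hgd : Differentiable ℂ g := by
    rw [hg]
    unfold HV
    refine Differentiable.fun_sum fun k _ => ?_
    exact ((HH_diff b D k).comp ((differentiable_const x).add differentiable_id)).const_mul _
  set M : ℝ := ρ * Real.exp (C1 * D * L) with hM
  have hgM : ∀ w, ‖w‖ ≤ 4 * R0 → ‖g w‖ ≤ M := by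
    intro w hw
    refine (hgr D R ρ hD hρk (x + w)).trans ?_
    rw [hM, hL]
    have h1 : ‖x + w‖ ≤ 1 + 4 * R0 := (norm_add_le _ _).trans (by linarith)
    have h2 : ‖x + w‖ ^ 2 ≤ (1 + 4 * R0) ^ 2 := by gcongr
    gcongr
  have hher := hermite g hgd n 1 (fun i => v i - x) δ R0 η M hδ (by linarith)
    (fun i => (norm_sub_le _ _).trans (by have := hv i; rw [hR0]; linarith))
    (fun i j hij => by
      have e : v i - x - (v j - x) = v i - v j := by ring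
      rw [e]
      exact hsep i j hij) hη
    (fun i => J6_loc g hgd (v i - x) δ η (by
      have e : g (v i - x) = HV b D R (v i) := by
        change HV b D R (x + (v i - x)) = HV b D R (v i)
        rw [add_sub_cancel]
      rw [e]
      exact hval i)) hgM
  rw [mul_one] at hher
  -- the bound of the largest coefficient
  have hg0 : g 0 = HV b D R x := by rw [hg]; simp
  have hE : ρ ≤ (C0 : ℝ) ^ (D + 1) * ‖g 0‖ := by
    rw [hg0]
    exact hxk k0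
  have hEpos : 0 < (C0 : ℝ) ^ (D + 1) := by positivity
  have hEexp : (C0 : ℝ) ^ (D + 1) ≤ Real.exp (2 * C0 * D) := by
    have h1 : (C0 : ℝ) ≤ Real.exp C0 := by
      have := Real.add_one_le_exp (C0 : ℝ)
      linarith
    calc (C0 : ℝ) ^ (D + 1) ≤ Real.exp C0 ^ (D + 1) := by gcongr
      _ = Real.exp (((D + 1 : ℕ) : ℝ) * C0) := (Real.exp_nat_mul _ _).symm
      _ ≤ Real.exp (2 * C0 * D) := by
        apply Real.exp_le_exp.2
        push_cast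
        nlinarith
  have h13 : ((1 : ℝ) / 3) ^ n ≤ Real.exp (-(n : ℝ)) := by
    have h1 : (1 : ℝ) / 3 ≤ Real.exp (-1) := by
      rw [Real.exp_neg, one_div]
      exact inv_anti₀ (Real.exp_pos 1) Real.exp_one_lt_three.le
    calc ((1 : ℝ) / 3) ^ n ≤ Real.exp (-1) ^ n := by gcongr
      _ = Real.exp ((n : ℝ) * -1) := (Real.exp_nat_mul _ _).symm
      _ = Real.exp (-(n : ℝ)) := by ring_nf
  have hhalf : (C0 : ℝ) ^ (D + 1) * ((1 / 3) ^ n * M) ≤ ρ / 2 := by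
    have h1 : Real.exp (-1) ≤ 1 / 2 := by
      rw [Real.exp_neg, one_div]
      refine inv_anti₀ (by norm_num) ?_
      have := Real.add_one_le_exp (1 : ℝ)
      linarith
    calc (C0 : ℝ) ^ (D + 1) * ((1 / 3) ^ n * M)
        ≤ Real.exp (2 * C0 * D) * (Real.exp (-(n : ℝ)) * M) := by
          have : 0 ≤ M := by rw [hM]; positivity
          gcongr
      _ = ρ * Real.exp (2 * C0 * D + -(n : ℝ) + C1 * D * L) := by
          rw [hM, Real.exp_add, Real.exp_add]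
          ring
      _ ≤ ρ * Real.exp (-1) := by
          have : 2 * C0 * D + -(n : ℝ) + C1 * D * L ≤ -1 := by
            have h2 : Cr * D ≤ n := (mul_le_mul_of_nonneg_right hCc (by positivity)).trans hnr
            rw [hCr] at h2
            nlinarith
          gcongr
      _ ≤ ρ / 2 := by nlinarith
  have hmain : ρ ≤ 4 * n * (C0 : ℝ) ^ (D + 1) * (2 * R0 / δ) ^ n * η := by
    have h1 : (C0 : ℝ) ^ (D + 1) * ‖g 0‖ ≤ (C0 : ℝ) ^ (D + 1) *
        ((1 / 3) ^ n * M + 2 * ((n : ℕ) : ℝ) * (2 * R0 / δ) ^ n * η) :=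
      mul_le_mul_of_nonneg_left (by exact_mod_cast hher) hEpos.le
    rw [mul_add] at h1
    nlinarith
  have hE2 : (C0 : ℝ) ^ (D + 1) ≤ (C0 : ℝ) ^ (2 * n) :=
    pow_le_pow_right₀ hC0' (by omega)
  have h4n : 4 * (n : ℝ) ≤ 4 ^ n := by
    have h1 : ∀ m : ℕ, 4 * (m + 1) ≤ 4 ^ (m + 1) := by
      intro m
      induction m with
      | zero => norm_num
      | succ m ih =>
        rw [pow_succ]
        omega
    obtain ⟨m, rfl⟩ : ∃ m, n = m + 1 := ⟨n - 1, by omega⟩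
    exact_mod_cast h1 m
  have hfin : 4 * n * (C0 : ℝ) ^ (D + 1) * (2 * R0 / δ) ^ n ≤ (C / δ) ^ (2 * n) := by
    have hq0 : 0 ≤ (2 * R0 / δ) ^ n := by positivity
    calc 4 * n * (C0 : ℝ) ^ (D + 1) * (2 * R0 / δ) ^ n
        ≤ 4 ^ n * (C0 : ℝ) ^ (2 * n) * (2 * R0 / δ) ^ n := by gcongr
      _ = (4 * (C0 : ℝ) ^ 2 * (2 * R0 / δ)) ^ n := by
          rw [mul_pow, mul_pow, ← pow_mul]
      _ ≤ ((C / δ) ^ 2) ^ n := by
          have h1 : 4 * (C0 : ℝ) ^ 2 * (2 * R0 / δ) ≤ (C / δ) ^ 2 := by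
            have h2 : 4 * (C0 : ℝ) ^ 2 * (2 * R0 / δ) = (8 * (C0 : ℝ) ^ 2 * R0 * δ) / δ ^ 2 := by
              field_simp
              ring
            rw [h2, div_pow]
            have h3 : 8 * (C0 : ℝ) ^ 2 * R0 * δ ≤ C ^ 2 := by
              have h4 : 8 * (C0 : ℝ) ^ 2 * R0 ≤ C := by
                have : 8 * (C0 : ℝ) ^ 2 * R0 ≤ Cr := by
                  rw [hCr]
                  linarith
                linarith
              have h5 : 8 * (C0 : ℝ) ^ 2 * R0 * δ ≤ 8 * (C0 : ℝ) ^ 2 * R0 := by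
                nlinarith
              nlinarith
            gcongr
          exact pow_le_pow_left₀ (by positivity) h1 n
      _ = (C / δ) ^ (2 * n) := (pow_mul _ _ _).symm
  intro k
  calc ‖R k‖ ≤ ρ := hρk k
    _ ≤ 4 * n * (C0 : ℝ) ^ (D + 1) * (2 * R0 / δ) ^ n * η := hmain
    _ ≤ (C / δ) ^ (2 * n) * η := mul_le_mul_of_nonneg_right hfin hη

end MJ
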