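import Pool.Agent.H32.MJ.J4

/-!
# MP_ede373, measure of `j(y)`, row J7: reduction modulo the lattice

Let `Y = y.im > 0`, `s_k = s0 + 2 k y`. `CZ.A_zm, CZ.B_zm` (`Pool/Agent/H22/CZ/Ba1.lean`): `b.A (s + (2 k y - m)) = fac y k s * b.A s`, `b.B (s + (2 k y - m)) = fac y k s^2 * b.B s`, hence for `i ≤ D`
`HH b D i (s + (2 k y - m)) = fac y k s^(2 D) * HH b D i s` (`2 (D - i) + 2 i = 2 D`) [`HH_zm` below]. So
`GG b D c s_k = exp (2 π I D y s_k^2) * fac y k s0^(2 D) * HV b D R (y s_k)`, `R_j = ∑_i c (i, j) * HH b D i s0` (sum over the pairs `l` as an iterated sum: `Fintype.sum_prod_type`).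
`CZ.ba2_rep hy (y s_k)`: `y s_k = (x + x' y) + (2 a y - m)`, `0 ≤ x ≤ 1`, `0 ≤ x' ≤ 2`, `a, m` integers. `v = x + x' y`, `‖v‖ ≤ 1 + 2 ‖y‖`. `HV b D R (y s_k) = fac y a v^(2 D) * HV b D R v`.
Norms (`CZ.norm_fac`): `‖fac y a v‖⁻¹ = exp (π/Y (Im v)^2 - π/Y (..)^2) ≤ exp (π/Y (2 Y)^2) = exp (4 π Y)` as `0 ≤ Im v = x' Y ≤ 2 Y`; `‖fac y k s0‖⁻¹ ≤ exp (π/Y (Im s0)^2) ≤ exp (π/Y)`;
`‖exp (2 π I D y s_k^2)‖⁻¹ ≤ exp (2 π D ‖y‖ ‖s_k‖^2)`, `‖s_k‖ ≤ (1 + 2‖y‖)(1 + k)`. Hence the last inequality with `C ≥ 2π‖y‖(1+2‖y‖)^2 + 2 (4 π Y + π/Y)`.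
Sizes of `a, m`: imaginary parts: `2 a Y = Im (y s_k) - x' Y`, so `2 |a| Y ≤ ‖y‖ (1+2‖y‖)(1+k) + 2 Y`; then `m = x + x' y + 2 a y - y s_k` gives `|m| ≤ ...`; choose `C` large (natural), `|a|, |m| ≤ C (k+1)` as real numbers, then
`exact_mod_cast`.
-/

set_option autoImplicit false

namespace MJ

open Complex U2

variable {y : ℂ} (b : CZ.BaseFn y)

theorem HH_zm (D i : ℕ) (hi : i ≤ D) (k m : ℤ) (s : ℂ) :
    HH b D i (s + (2 * k * y - m)) = CZ.fac y k s ^ (2 * D) * HH b D i s := by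
  obtain ⟨j, rfl⟩ := Nat.exists_eq_add_of_le hi
  unfold HH
  rw [CZ.A_zm, CZ.B_zm, Nat.add_sub_cancel_left]
  ring

theorem J7_HV (D : ℕ) (R : Fin (D + 1) → ℂ) (k m : ℤ) (v : ℂ) :
    HV b D R (v + (2 * k * y - m)) = CZ.fac y k v ^ (2 * D) * HV b D R v := by
  unfold HV
  rw [Finset.mul_sum]
  refine Finset.sum_congr rfl fun j _ => ?_
  rw [HH_zm b D j (Nat.lt_succ_iff.mp j.2)]
  ring

theorem J7_GG (D : ℕ) (c : Ix D → ℂ) (s0 : ℂ) (k : ℕ) :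
    GG b D c (s0 + 2 * k * y) = exp (2 * Real.pi * I * D * y * (s0 + 2 * k * y) ^ 2) *
      (CZ.fac y (k : ℤ) s0 ^ (2 * D) *
        HV b D (fun j => ∑ i : Fin (D + 1), c (i, j) * HH b D i s0) (y * (s0 + 2 * k * y))) := by
  have h1 : ∀ i : Fin (D + 1), HH b D i (s0 + 2 * k * y) =
      CZ.fac y (k : ℤ) s0 ^ (2 * D) * HH b D i s0 := by
    intro i
    have h2 := HH_zm b D i (Nat.lt_succ_iff.mp i.2) (k : ℤ) 0 s0
    rw [← h2, Int.cast_natCast, Int.cast_zero, sub_zero]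
  unfold GG HV
  congr 1
  rw [Fintype.sum_prod_type, Finset.sum_comm, Finset.mul_sum]
  refine Finset.sum_congr rfl fun j _ => ?_
  rw [Finset.sum_mul, Finset.mul_sum]
  refine Finset.sum_congr rfl fun i _ => ?_
  simp only [h1]
  ring

theorem J7_fac (hy : 0 < y.im) (a : ℤ) (v : ℂ) :
    Real.exp (-(Real.pi / y.im * v.im ^ 2)) ≤ ‖CZ.fac y a v‖ := by
  rw [CZ.norm_fac hy]
  apply Real.exp_le_exp.mpr
  have h1 : 0 ≤ Real.pi / y.im * (v + 2 * a * y).im ^ 2 := by positivity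
  linarith

theorem J7_sk (s0 : ℂ) (k : ℕ) (hs : ‖s0‖ ≤ 1) :
    ‖s0 + 2 * k * y‖ ≤ (1 + 2 * ‖y‖) * (1 + k) := by
  have h1 : ‖s0 + 2 * k * y‖ ≤ 1 + 2 * k * ‖y‖ := by
    refine (norm_add_le _ _).trans (add_le_add hs (le_of_eq ?_))
    rw [norm_mul, norm_mul, Complex.norm_natCast, Complex.norm_ofNat]
  have h2 : (0 : ℝ) ≤ k := Nat.cast_nonneg k
  have h3 : 0 ≤ ‖y‖ := norm_nonneg y
  nlinarith

theorem J7_exp (D : ℕ) (s0 : ℂ) (k : ℕ) (hs : ‖s0‖ ≤ 1) :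
    Real.exp (-(2 * Real.pi * ‖y‖ * (1 + 2 * ‖y‖) ^ 2 * D * (1 + (k : ℝ)) ^ 2)) ≤
      ‖exp (2 * Real.pi * I * D * y * (s0 + 2 * k * y) ^ 2)‖ := by
  rw [Complex.norm_exp]
  apply Real.exp_le_exp.mpr
  have h1 : -‖(2 * Real.pi * I * D * y * (s0 + 2 * k * y) ^ 2 : ℂ)‖ ≤
      (2 * Real.pi * I * D * y * (s0 + 2 * k * y) ^ 2 : ℂ).re :=
    (abs_le.mp (Complex.abs_re_le_norm _)).1
  refine le_trans (neg_le_neg ?_) h1
  have h2 : ‖(2 * Real.pi * I * D * y * (s0 + 2 * k * y) ^ 2 : ℂ)‖ =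
      2 * Real.pi * D * ‖y‖ * ‖s0 + 2 * k * y‖ ^ 2 := by
    rw [norm_mul, norm_mul, norm_mul, norm_mul, norm_mul, norm_pow, Complex.norm_natCast,
      Complex.norm_I, Complex.norm_real, Complex.norm_ofNat, Real.norm_eq_abs,
      abs_of_pos Real.pi_pos]
    ring
  rw [h2]
  have h3 := J7_sk (y := y) s0 k hs
  have h4 : ‖s0 + 2 * k * y‖ ^ 2 ≤ ((1 + 2 * ‖y‖) * (1 + k)) ^ 2 :=
    pow_le_pow_left₀ (norm_nonneg _) h3 2
  have h5 : 0 ≤ 2 * Real.pi * D * ‖y‖ := by positivity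
  calc 2 * Real.pi * D * ‖y‖ * ‖s0 + 2 * k * y‖ ^ 2
      ≤ 2 * Real.pi * D * ‖y‖ * ((1 + 2 * ‖y‖) * (1 + k)) ^ 2 := mul_le_mul_of_nonneg_left h4 h5
    _ = 2 * Real.pi * ‖y‖ * (1 + 2 * ‖y‖) ^ 2 * D * (1 + (k : ℝ)) ^ 2 := by ring

/-- the sizes of the integers -/
theorem J7_sz (hy : 0 < y.im) {s0 : ℂ} {k : ℕ} (hs : ‖s0‖ ≤ 1) {a m : ℤ} {x x' : ℝ}
    (hx0 : 0 ≤ x) (hx1 : x ≤ 1) (hx'0 : 0 ≤ x') (hx'2 : x' ≤ 2)
    (h : y * (s0 + 2 * k * y) = ((x : ℂ) + x' * y) + (2 * a * y - m)) :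
    ‖(x : ℂ) + x' * y‖ ≤ 1 + 2 * ‖y‖ ∧
    |(a : ℝ)| ≤ (‖y‖ * (1 + 2 * ‖y‖) / (2 * y.im) + 1) * (1 + k) ∧
    |(m : ℝ)| ≤ ((1 + 2 * ‖y‖) + 2 * (‖y‖ * (1 + 2 * ‖y‖) / (2 * y.im) + 1) * ‖y‖ +
      ‖y‖ * (1 + 2 * ‖y‖)) * (1 + k) := by
  have hk : (0 : ℝ) ≤ k := Nat.cast_nonneg k
  have hn : 0 ≤ ‖y‖ := norm_nonneg y
  have hv : ‖(x : ℂ) + x' * y‖ ≤ 1 + 2 * ‖y‖ := by
    refine (norm_add_le _ _).trans ?_
    rw [norm_mul, Complex.norm_real, Complex.norm_real, Real.norm_eq_abs, Real.norm_eq_abs,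
      abs_of_nonneg hx0, abs_of_nonneg hx'0]
    have := mul_le_mul_of_nonneg_right hx'2 hn
    linarith
  have hs2 : ‖y * (s0 + 2 * k * y)‖ ≤ ‖y‖ * ((1 + 2 * ‖y‖) * (1 + k)) := by
    rw [norm_mul]
    exact mul_le_mul_of_nonneg_left (J7_sk s0 k hs) hn
  have him : (y * (s0 + 2 * k * y)).im = x' * y.im + 2 * a * y.im := by
    rw [h, Complex.add_im, Complex.add_im, Complex.sub_im, Complex.ofReal_im,
      Complex.im_ofReal_mul, Complex.intCast_im,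
      show (2 * (a : ℂ) * y) = ((2 * a : ℝ) : ℂ) * y by push_cast; ring, Complex.im_ofReal_mul]
    ring
  have ha : |(a : ℝ)| * (2 * y.im) ≤ ‖y‖ * ((1 + 2 * ‖y‖) * (1 + k)) + 2 * y.im := by
    have h1 : (a : ℝ) * (2 * y.im) = (y * (s0 + 2 * k * y)).im - x' * y.im := by
      rw [him]
      ring
    have h2 : |(a : ℝ)| * (2 * y.im) = |(a : ℝ) * (2 * y.im)| := by
      rw [abs_mul, abs_of_pos (by linarith : (0 : ℝ) < 2 * y.im)]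
    rw [h2, h1]
    refine (abs_sub _ _).trans (add_le_add ((Complex.abs_im_le_norm _).trans hs2) ?_)
    rw [abs_of_nonneg (mul_nonneg hx'0 hy.le)]
    exact mul_le_mul_of_nonneg_right hx'2 hy.le
  have ha' : |(a : ℝ)| ≤ (‖y‖ * (1 + 2 * ‖y‖) / (2 * y.im) + 1) * (1 + k) := by
    have h2 : (0 : ℝ) < 2 * y.im := by linarith
    have h3 : |(a : ℝ)| ≤ (‖y‖ * ((1 + 2 * ‖y‖) * (1 + k)) + 2 * y.im) / (2 * y.im) := by
      rw [le_div_iff₀ h2]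
      exact ha
    refine h3.trans ?_
    rw [add_div, div_self h2.ne']
    have h4 : ‖y‖ * ((1 + 2 * ‖y‖) * (1 + k)) / (2 * y.im) =
        ‖y‖ * (1 + 2 * ‖y‖) / (2 * y.im) * (1 + k) := by ring
    rw [h4]
    nlinarith
  refine ⟨hv, ha', ?_⟩
  have hm : (m : ℂ) = ((x : ℂ) + x' * y) + 2 * a * y - y * (s0 + 2 * k * y) := by
    rw [h]
    ring
  have hm1 : |(m : ℝ)| = ‖(m : ℂ)‖ := (Complex.norm_intCast m).symm
  rw [hm1, hm]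
  have h5 : ‖(2 * a * y : ℂ)‖ = 2 * |(a : ℝ)| * ‖y‖ := by
    rw [norm_mul, norm_mul, Complex.norm_intCast, Complex.norm_ofNat]
  refine (norm_sub_le _ _).trans ?_
  have h6 := norm_add_le ((x : ℂ) + x' * y) (2 * a * y)
  have h7 : 2 * |(a : ℝ)| * ‖y‖ ≤
      2 * ((‖y‖ * (1 + 2 * ‖y‖) / (2 * y.im) + 1) * (1 + k)) * ‖y‖ := by
    gcongr
  have h8 : (1 + 2 * ‖y‖) ≤ (1 + 2 * ‖y‖) * (1 + k) := by nlinarith
  rw [h5] at h6
  linarith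

theorem reduce (hy : 0 < y.im) : ∃ C : ℕ, 1 ≤ C ∧ ∀ (D : ℕ) (c : Ix D → ℂ) (s0 : ℂ) (k : ℕ),
    1 ≤ D → ‖s0‖ ≤ 1 → ∃ (v : ℂ) (a m : ℤ), y * (s0 + 2 * k * y) = v + (2 * a * y - m) ∧
      ‖v‖ ≤ 1 + 2 * ‖y‖ ∧ |a| ≤ C * (k + 1) ∧ |m| ≤ C * (k + 1) ∧
      ‖HV b D (fun j => ∑ i : Fin (D + 1), c (i, j) * HH b D i s0) v‖ ≤
        Real.exp (C * D * (1 + (k : ℝ)) ^ 2) * ‖GG b D c (s0 + 2 * k * y)‖ := by
  obtain ⟨ca, hca⟩ : ∃ ca : ℝ, ca = ‖y‖ * (1 + 2 * ‖y‖) / (2 * y.im) + 1 := ⟨_, rfl⟩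
  obtain ⟨cm, hcm⟩ : ∃ cm : ℝ, cm = (1 + 2 * ‖y‖) + 2 * ca * ‖y‖ + ‖y‖ * (1 + 2 * ‖y‖) := ⟨_, rfl⟩
  obtain ⟨ce, hce⟩ : ∃ ce : ℝ, ce = 2 * Real.pi * ‖y‖ * (1 + 2 * ‖y‖) ^ 2 := ⟨_, rfl⟩
  obtain ⟨cf, hcf⟩ : ∃ cf : ℝ, cf = Real.pi / y.im * (2 * y.im) ^ 2 := ⟨_, rfl⟩
  obtain ⟨cg, hcg⟩ : ∃ cg : ℝ, cg = Real.pi / y.im := ⟨_, rfl⟩
  have hpi := Real.pi_pos
  have hn : 0 ≤ ‖y‖ := norm_nonneg y
  have hca0 : 0 ≤ ca := by
    rw [hca]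
    positivity
  have hcm0 : 0 ≤ cm := by
    rw [hcm]
    positivity
  have hce0 : 0 ≤ ce := by
    rw [hce]
    positivity
  have hcf0 : 0 ≤ cf := by
    rw [hcf]
    positivity
  have hcg0 : 0 ≤ cg := by
    rw [hcg]
    positivity
  obtain ⟨C, hC⟩ := exists_nat_ge (ca + cm + (ce + 2 * cf + 2 * cg) + 1)
  refine ⟨C, ?_, ?_⟩
  · have h1 : (1 : ℝ) ≤ C := by linarith
    exact_mod_cast h1
  · intro D c s0 k hD hs
    obtain ⟨a, m, x, x', hx0, hx1, hx'0, hx'2, hrep⟩ := CZ.ba2_rep hy (y * (s0 + 2 * k * y))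
    obtain ⟨hv, ha, hm⟩ := J7_sz hy hs hx0 hx1 hx'0 hx'2 hrep
    rw [← hca] at ha hm
    rw [← hcm] at hm
    have hk : (0 : ℝ) ≤ k := Nat.cast_nonneg k
    refine ⟨(x : ℂ) + x' * y, a, m, hrep, hv, ?_, ?_, ?_⟩
    · have h1 : |(a : ℝ)| ≤ C * (k + 1) := by
        refine ha.trans ?_
        have : ca * (1 + k) ≤ C * (1 + k) := mul_le_mul_of_nonneg_right (by linarith) (by linarith)
        linarith
      exact_mod_cast h1
    · have h1 : |(m : ℝ)| ≤ C * (k + 1) := by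
        refine hm.trans ?_
        have : cm * (1 + k) ≤ C * (1 + k) := mul_le_mul_of_nonneg_right (by linarith) (by linarith)
        linarith
      exact_mod_cast h1
    · rw [J7_GG b D c s0 k, hrep, J7_HV, norm_mul, norm_mul, norm_mul, norm_pow, norm_pow]
      have hDr : (1 : ℝ) ≤ D := by exact_mod_cast hD
      have f1 : Real.exp (-cf) ≤ ‖CZ.fac y a ((x : ℂ) + x' * y)‖ := by
        refine le_trans (Real.exp_le_exp.mpr ?_) (J7_fac hy a _)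
        rw [hcf]
        apply neg_le_neg
        have h1 : ((x : ℂ) + x' * y).im = x' * y.im := by
          rw [Complex.add_im, Complex.ofReal_im, Complex.im_ofReal_mul, zero_add]
        rw [h1]
        apply mul_le_mul_of_nonneg_left _ (by positivity)
        apply pow_le_pow_left₀ (mul_nonneg hx'0 hy.le)
        exact mul_le_mul_of_nonneg_right hx'2 hy.le
      have f2 : Real.exp (-cg) ≤ ‖CZ.fac y (k : ℤ) s0‖ := by
        refine le_trans (Real.exp_le_exp.mpr ?_) (J7_fac hy (k : ℤ) _)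
        rw [hcg]
        apply neg_le_neg
        have h1 : s0.im ^ 2 ≤ 1 := by
          rw [← sq_abs]
          have h2 : |s0.im| ≤ 1 := (Complex.abs_im_le_norm s0).trans hs
          exact pow_le_one₀ (abs_nonneg _) h2
        have h3 : 0 ≤ Real.pi / y.im := by positivity
        calc Real.pi / y.im * s0.im ^ 2 ≤ Real.pi / y.im * 1 := mul_le_mul_of_nonneg_left h1 h3
          _ = _ := mul_one _
      have f3 := J7_exp (y := y) D s0 k hs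
      rw [← hce] at f3
      have g1 : Real.exp (-cf) ^ (2 * D) ≤ ‖CZ.fac y a ((x : ℂ) + x' * y)‖ ^ (2 * D) :=
        pow_le_pow_left₀ (Real.exp_pos _).le f1 _
      have g2 : Real.exp (-cg) ^ (2 * D) ≤ ‖CZ.fac y (k : ℤ) s0‖ ^ (2 * D) :=
        pow_le_pow_left₀ (Real.exp_pos _).le f2 _
      rw [← Real.exp_nat_mul] at g1 g2
      generalize ‖CZ.fac y a ((x : ℂ) + x' * y)‖ ^ (2 * D) = F1 at g1 ⊢
      generalize ‖CZ.fac y (k : ℤ) s0‖ ^ (2 * D) = F2 at g2 ⊢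
      generalize ‖exp (2 * Real.pi * I * D * y * (s0 + 2 * k * y) ^ 2)‖ = F3 at f3 ⊢
      generalize HV b D (fun j => ∑ i : Fin (D + 1), c (i, j) * HH b D i s0)
        ((x : ℂ) + x' * y) = Z
      have hF1 : 0 ≤ F1 := (Real.exp_pos _).le.trans g1
      have hF2 : 0 ≤ F2 := (Real.exp_pos _).le.trans g2
      have hF3 : 0 ≤ F3 := (Real.exp_pos _).le.trans f3
      have key : 1 ≤ Real.exp (C * D * (1 + (k : ℝ)) ^ 2) * (F3 * (F2 * F1)) := by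
        have h1 : Real.exp (-(ce * D * (1 + (k : ℝ)) ^ 2)) *
            (Real.exp (((2 * D : ℕ) : ℝ) * -cg) * Real.exp (((2 * D : ℕ) : ℝ) * -cf)) ≤
            F3 * (F2 * F1) := by
          apply mul_le_mul f3 _ (by positivity) hF3
          exact mul_le_mul g2 g1 (Real.exp_pos _).le hF2
        have h2 := mul_le_mul_of_nonneg_left h1 (Real.exp_pos (C * D * (1 + (k : ℝ)) ^ 2)).le
        refine le_trans ?_ h2
        rw [← Real.exp_add, ← Real.exp_add, ← Real.exp_add]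
        apply Real.one_le_exp
        push_cast
        have h3 : (1 : ℝ) ≤ (1 + (k : ℝ)) ^ 2 := one_le_pow₀ (by linarith)
        have h4 : 2 * cf + 2 * cg ≤ (2 * cf + 2 * cg) * (1 + (k : ℝ)) ^ 2 :=
          le_mul_of_one_le_right (by positivity) h3
        have h5 : (ce + (2 * cf + 2 * cg)) * (1 + (k : ℝ)) ^ 2 ≤ C * (1 + (k : ℝ)) ^ 2 :=
          mul_le_mul_of_nonneg_right (by linarith) (by positivity)
        have h6 : ce * (1 + (k : ℝ)) ^ 2 + (2 * cf + 2 * cg) ≤ C * (1 + (k : ℝ)) ^ 2 := by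
          linarith [add_mul ce (2 * cf + 2 * cg) ((1 + (k : ℝ)) ^ 2)]
        have h7 := mul_le_mul_of_nonneg_left h6 (by linarith : (0 : ℝ) ≤ D)
        linarith
      calc ‖Z‖ = 1 * ‖Z‖ := (one_mul _).symm
        _ ≤ (Real.exp (C * D * (1 + (k : ℝ)) ^ 2) * (F3 * (F2 * F1))) * ‖Z‖ :=
          mul_le_mul_of_nonneg_right key (norm_nonneg Z)
        _ = _ := by ring

end MJ
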