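import Pool.Agent.H32.MJ.D0

/-!
# MP_ede373, measure of `j(y)`, row J1: degrees and coefficients of the polynomials `W D t l`

The same as `Pool/Agent/H32/T3/Der.lean` (there: 5 variables, `deg dv ≤ 2`, `nrm dv ≤ 7`; copy `nrm_dv, deg_dv, DD_monomial,
nrm_DD_monomial, nrm_DD_le, deg_DD_monomial, deg_DD_le, deg_iter, nrm_iter`). Here `deg (dv i) ≤ 3`, `nrm (dv i) ≤ 7`
(`nrm_mul_le`, `nrm_X`, `nrm_C`), so `DD` raises the degree by at most `2` and `nrm (DD P) ≤ 7 * totalDegree P * nrm P`; after `t` steps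
`totalDegree ≤ totalDegree P + 2 t` and `nrm ≤ (7 (totalDegree P + 2 t))^t nrm P`. Start: `P = X 0 ^ i * X 2 ^ k`, `i, k ≤ D`: degree `≤ 2 D`,
`nrm P ≤ 1` (`nrm_mul_le, nrm_pow_le, nrm_X`).
-/

set_option autoImplicit false

namespace MJ

open MvPolynomial Finset
open H32.T3

private lemma J1_aux (i : Fin 6) (hi : nrm (X i : MvPolynomial (Fin 6) ℤ) = 1) (j : Fin 6) :
    nrm (C 6 * X i ^ 2 - X j : MvPolynomial (Fin 6) ℤ) ≤ 7 := by
  rw [sub_eq_add_neg]
  refine (H32.T3.nrm_add_le _ _).trans ?_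
  rw [H32.T3.nrm_neg, H32.T3.nrm_X]
  have h1 := H32.T3.nrm_mul_le (C 6 : MvPolynomial (Fin 6) ℤ) (X i ^ 2)
  have h2 := H32.T3.nrm_pow_le (X i : MvPolynomial (Fin 6) ℤ) 2
  rw [hi, one_pow] at h2
  rw [H32.T3.nrm_C] at h1
  have h3 := H32.T3.nrm_nonneg (X i ^ 2 : MvPolynomial (Fin 6) ℤ)
  have h4 : |((6 : ℤ) : ℝ)| = 6 := by norm_num
  rw [h4] at h1
  linarith

private lemma J1_aux2 (i j : Fin 6) :
    (C 6 * X i ^ 2 - X j : MvPolynomial (Fin 6) ℤ).totalDegree ≤ 2 := by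
  refine (totalDegree_sub _ _).trans (max_le ?_ ?_)
  · refine (totalDegree_mul _ _).trans ?_
    rw [totalDegree_C, zero_add]
    refine (totalDegree_pow _ _).trans ?_
    rw [totalDegree_X]
  · rw [totalDegree_X]; norm_num

private lemma J1_nrm_dv (i : Fin 6) : nrm (dv i) ≤ 7 := by
  fin_cases i
  · change nrm (X 1) ≤ 7
    rw [nrm_X]; norm_num
  · exact J1_aux 0 (nrm_X _) 4
  · change nrm (X 5 * X 3) ≤ 7
    refine (nrm_mul_le _ _).trans ?_
    rw [nrm_X, nrm_X]; norm_num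
  · change nrm (X 5 * (C 6 * X 2 ^ 2 - X 4)) ≤ 7
    refine (nrm_mul_le _ _).trans ?_
    rw [nrm_X, one_mul]
    exact J1_aux 2 (nrm_X _) 4
  · change nrm 0 ≤ 7
    rw [nrm_zero]; norm_num
  · change nrm 0 ≤ 7
    rw [nrm_zero]; norm_num

private lemma J1_deg_dv (i : Fin 6) : (dv i).totalDegree ≤ 3 := by
  fin_cases i
  · change (X 1 : MvPolynomial (Fin 6) ℤ).totalDegree ≤ 3
    rw [totalDegree_X]; norm_num
  · exact (J1_aux2 0 4).trans (by norm_num)
  · change (X 5 * X 3 : MvPolynomial (Fin 6) ℤ).totalDegree ≤ 3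
    refine (totalDegree_mul _ _).trans ?_
    rw [totalDegree_X, totalDegree_X]; norm_num
  · change (X 5 * (C 6 * X 2 ^ 2 - X 4) : MvPolynomial (Fin 6) ℤ).totalDegree ≤ 3
    refine (totalDegree_mul _ _).trans ?_
    rw [totalDegree_X]
    have := J1_aux2 2 4
    omega
  · change (0 : MvPolynomial (Fin 6) ℤ).totalDegree ≤ 3
    simp
  · change (0 : MvPolynomial (Fin 6) ℤ).totalDegree ≤ 3
    simp

private lemma J1_DD_monomial (s : Fin 6 →₀ ℕ) (r : ℤ) :
    DD (monomial s r) = r • ∑ i, monomial (s - Finsupp.single i 1) ((s i : ℕ) : ℤ) * dv i := by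
  rw [DD, mkDerivation_monomial, Finsupp.sum_fintype _ _ (by simp)]
  simp [smul_eq_mul]

private lemma J1_nrm_DD_monomial (s : Fin 6 →₀ ℕ) (r : ℤ) :
    nrm (DD (monomial s r)) ≤ |(r : ℝ)| * (7 * s.degree) := by
  rw [J1_DD_monomial, smul_eq_C_mul]
  refine (nrm_mul_le _ _).trans ?_
  rw [nrm_C]
  gcongr
  refine (nrm_sum_le _ _).trans ?_
  calc ∑ i, nrm (monomial (s - Finsupp.single i 1) ((s i : ℕ) : ℤ) * dv i)
      ≤ ∑ i, (s i : ℝ) * 7 := by
        refine sum_le_sum fun i _ ↦ (nrm_monomial_mul _ _ _).trans ?_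
        have := J1_nrm_dv i
        have h0 : (0 : ℝ) ≤ s i := by positivity
        simp only [Int.cast_natCast, abs_of_nonneg h0]
        gcongr
    _ = 7 * s.degree := by
        rw [← sum_mul, Finsupp.degree_eq_sum]
        push_cast
        ring

private lemma J1_nrm_DD_le (P : MvPolynomial (Fin 6) ℤ) : nrm (DD P) ≤ 7 * P.totalDegree * nrm P := by
  conv_lhs => rw [P.as_sum, map_sum]
  refine (nrm_sum_le _ _).trans ?_
  rw [nrm, mul_sum]
  refine sum_le_sum fun m hm ↦ (J1_nrm_DD_monomial _ _).trans ?_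
  have h1 : m.degree ≤ P.totalDegree := by
    have := le_totalDegree hm
    rw [Finsupp.sum_fintype _ _ (by simp)] at this
    rwa [Finsupp.degree_eq_sum]
  have h2 : (m.degree : ℝ) ≤ P.totalDegree := by exact_mod_cast h1
  have h3 := abs_nonneg ((coeff m P : ℤ) : ℝ)
  nlinarith

private lemma J1_deg_DD_monomial (s : Fin 6 →₀ ℕ) (r : ℤ) :
    (DD (monomial s r)).totalDegree ≤ s.degree + 2 := by
  rw [J1_DD_monomial]
  refine (totalDegree_smul_le _ _).trans ?_
  refine totalDegree_finsetSum_le fun i _ ↦ ?_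
  rcases Nat.eq_zero_or_pos (s i) with h | h
  · simp [h]
  refine (totalDegree_mul _ _).trans ?_
  have h1 := J1_deg_dv i
  have h2 : (monomial (s - Finsupp.single i 1) ((s i : ℕ) : ℤ)).totalDegree + 1 ≤ s.degree := by
    rw [totalDegree_monomial _ (by exact_mod_cast h.ne')]
    have h3 : (s - Finsupp.single i 1) + Finsupp.single i 1 = s :=
      tsub_add_cancel_of_le (by
        rw [Finsupp.single_le_iff]; exact h)
    have h4 := congrArg Finsupp.degree h3
    rw [map_add, Finsupp.degree_single] at h4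
    rw [Finsupp.degree_eq_sum, ← Finsupp.sum_fintype (f := s - Finsupp.single i 1) (fun _ e ↦ e) (by simp)] at h4
    exact h4.le
  omega

private lemma J1_deg_DD_le (P : MvPolynomial (Fin 6) ℤ) : (DD P).totalDegree ≤ P.totalDegree + 2 := by
  conv_lhs => rw [P.as_sum, map_sum]
  refine totalDegree_finsetSum_le fun m hm ↦ (J1_deg_DD_monomial _ _).trans ?_
  have h1 : m.degree ≤ P.totalDegree := by
    have := le_totalDegree hm
    rw [Finsupp.sum_fintype _ _ (by simp)] at this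
    rwa [Finsupp.degree_eq_sum]
  omega

private lemma J1_deg_iter (P : MvPolynomial (Fin 6) ℤ) (t : ℕ) :
    (DD^[t] P).totalDegree ≤ P.totalDegree + 2 * t := by
  induction t with
  | zero => simp
  | succ t ih =>
    rw [Function.iterate_succ_apply']
    have := J1_deg_DD_le (DD^[t] P)
    omega

private lemma J1_nrm_iter (P : MvPolynomial (Fin 6) ℤ) (t : ℕ) :
    nrm (DD^[t] P) ≤ (7 * (P.totalDegree + 2 * t)) ^ t * nrm P := by
  have key : ∀ s, s ≤ t → nrm (DD^[s] P) ≤ (7 * (P.totalDegree + 2 * t : ℝ)) ^ s * nrm P := by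
    intro s
    induction s with
    | zero => intro _; simp
    | succ s ih =>
      intro hs
      rw [Function.iterate_succ_apply']
      refine (J1_nrm_DD_le _).trans ?_
      have h1 : ((DD^[s] P).totalDegree : ℝ) ≤ P.totalDegree + 2 * t := by
        have := J1_deg_iter P s
        exact_mod_cast (show (DD^[s] P).totalDegree ≤ P.totalDegree + 2 * t by omega)
      have h2 := ih (by omega)
      have h3 := nrm_nonneg (DD^[s] P)
      calc 7 * ((DD^[s] P).totalDegree : ℝ) * nrm (DD^[s] P)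
          ≤ 7 * (P.totalDegree + 2 * t : ℝ) * ((7 * (P.totalDegree + 2 * t : ℝ)) ^ s * nrm P) := by gcongr
        _ = _ := by rw [pow_succ]; ring
  exact key t le_rfl

private lemma J1_deg_X_pow (a b : ℕ) : (X 0 ^ a * X 2 ^ b : MvPolynomial (Fin 6) ℤ).totalDegree ≤ a + b := by
  refine (totalDegree_mul _ _).trans ?_
  have h1 := totalDegree_pow (X 0 : MvPolynomial (Fin 6) ℤ) a
  have h2 := totalDegree_pow (X 2 : MvPolynomial (Fin 6) ℤ) b
  rw [totalDegree_X, mul_one] at h1 h2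
  omega

theorem W_deg (D t : ℕ) (l : Ix D) : (W D t l).totalDegree ≤ 2 * D + 2 * t := by
  refine (J1_deg_iter _ _).trans ?_
  have h1 := J1_deg_X_pow (l.1 : ℕ) (l.2 : ℕ)
  have h2 := l.1.isLt
  have h3 := l.2.isLt
  omega

theorem W_nrm (D t : ℕ) (l : Ix D) : nrm (W D t l) ≤ (7 * (2 * D + 2 * t : ℝ)) ^ t := by
  refine (J1_nrm_iter _ _).trans ?_
  have h1 : nrm (X 0 ^ (l.1 : ℕ) * X 2 ^ (l.2 : ℕ) : MvPolynomial (Fin 6) ℤ) ≤ 1 := by
    refine (nrm_mul_le _ _).trans ?_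
    have h1 := nrm_pow_le (X 0 : MvPolynomial (Fin 6) ℤ) (l.1 : ℕ)
    have h2 := nrm_pow_le (X 2 : MvPolynomial (Fin 6) ℤ) (l.2 : ℕ)
    rw [nrm_X, one_pow] at h1 h2
    have h3 := nrm_nonneg (X 0 ^ (l.1 : ℕ) : MvPolynomial (Fin 6) ℤ)
    have h4 := nrm_nonneg (X 2 ^ (l.2 : ℕ) : MvPolynomial (Fin 6) ℤ)
    nlinarith
  have h2 : ((X 0 ^ (l.1 : ℕ) * X 2 ^ (l.2 : ℕ) : MvPolynomial (Fin 6) ℤ).totalDegree : ℝ) ≤ 2 * D := by
    have h1 := J1_deg_X_pow (l.1 : ℕ) (l.2 : ℕ)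
    have h2 := l.1.isLt
    have h3 := l.2.isLt
    exact_mod_cast (show _ ≤ 2 * D by omega)
  have h3 := nrm_nonneg (X 0 ^ (l.1 : ℕ) * X 2 ^ (l.2 : ℕ) : MvPolynomial (Fin 6) ℤ)
  calc _ ≤ (7 * ((2 * D : ℝ) + 2 * t)) ^ t * 1 := by gcongr
    _ = _ := by rw [mul_one]

end MJ
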