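import Pool.Agent.H32.MJ.D0

/-!
# MP_ede373, measure of `j(y)`, row J4: `GG` is entire, has period `1`, and its growth

* `GG_diff`: `HH_diff` (`U2`), composition with `s ↦ y s`.
* `GG_int`: `HH_int` at `s`; `y (s + m) = y s + m y` and `HH_z` (`i ≤ D`): the factor is
  `exp (-(π I (2 D) y m^2) - 2 π I (2 D) (m (y s)))`, and `exp (2 π I D y (s + m)^2) = exp (2 π I D y s^2) * exp (2 π I D y (2 s m + m^2))`: they cancel.
* `GG_growth`: by `GG_int` we may assume `|Re s| ≤ 1` (take `m = -round (Re s)` or floor; `Im s` does not change). Then `‖s‖^2 ≤ 1 + (Im s)^2`,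
  `|Im (y s)| ≤ ‖y‖ ‖s‖`, `CZ.growth' b`: `‖b.A w‖, ‖b.B w‖ ≤ exp (C0 (1 + (Im w)^2))`, so `‖HH b D i w‖ ≤ exp (2 D C0 (1 + (Im w)^2))` for `i ≤ D`
  (`2 (D - i) + i ≤ 2 D`, the exponent is nonnegative), at `w = s` and `w = y s`: `1 + (Im (y s))^2 ≤ (1 + ‖y‖^2)(1 + ‖s‖^2)`, and `‖exp (2 π I D y s^2)‖ ≤ exp (2 π D ‖y‖ ‖s‖^2)`, number of terms
  `(D+1)^2 ≤ exp (2 D)`. Choose `C` natural, large.
* `HV_growth`: the same for one variable: `‖HV b D R v‖ ≤ (D+1) ρ exp (2 D C0 (1 + ‖v‖^2)) ≤ ρ exp (C D (1 + ‖v‖^2))` (`D ≥ 1`).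
-/

set_option autoImplicit false

namespace MJ

open Complex U2

variable {y : ℂ} (b : CZ.BaseFn y)

theorem GG_diff (D : ℕ) (c : Ix D → ℂ) : Differentiable ℂ (GG b D c) := by
  unfold GG
  refine Differentiable.mul ?_ ?_
  · exact ((differentiable_const _).mul (differentiable_id.pow 2)).cexp
  · refine Differentiable.fun_sum fun l _ => ?_
    refine (differentiable_const _).mul ((HH_diff b D l.1).mul ?_)
    exact (HH_diff b D l.2).comp ((differentiable_const y).mul differentiable_id)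

theorem GG_int (D : ℕ) (c : Ix D → ℂ) (m : ℤ) (s : ℂ) : GG b D c (s + m) = GG b D c s := by
  unfold GG
  rw [Finset.mul_sum, Finset.mul_sum]
  refine Finset.sum_congr rfl fun l _ => ?_
  rw [HH_int b D l.1 m s, show y * (s + m) = y * s + m * y by ring,
    HH_z b D l.2 (Nat.lt_succ_iff.1 l.2.2) m (y * s)]
  have h : exp (2 * Real.pi * I * D * y * (s + m) ^ 2) *
      exp (-(Real.pi * I * ((2 * D : ℕ) : ℂ) * y * (m : ℂ) ^ 2) -
        2 * Real.pi * I * ((2 * D : ℕ) : ℂ) * (m * (y * s))) =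
      exp (2 * Real.pi * I * D * y * s ^ 2) := by
    rw [← exp_add]
    congr 1
    push_cast
    ring
  rw [← h]
  ring

private theorem J4_HH {C0 : ℝ} (hC0 : 1 ≤ C0)
    (h : ∀ s : ℂ, ‖b.A s‖ ≤ Real.exp (C0 * (1 + s.im ^ 2)) ∧
      ‖deriv b.A s‖ ≤ Real.exp (C0 * (1 + s.im ^ 2)) ∧ ‖b.B s‖ ≤ Real.exp (C0 * (1 + s.im ^ 2)))
    (D i : ℕ) (hi : i ≤ D) (w : ℂ) :
    ‖HH b D i w‖ ≤ Real.exp (2 * D * (C0 * (1 + w.im ^ 2))) := by
  obtain ⟨hA, -, hB⟩ := h w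
  have hE : 1 ≤ Real.exp (C0 * (1 + w.im ^ 2)) := Real.one_le_exp (by positivity)
  unfold HH
  rw [norm_mul, norm_pow, norm_pow]
  calc ‖b.A w‖ ^ (2 * (D - i)) * ‖b.B w‖ ^ i
      ≤ Real.exp (C0 * (1 + w.im ^ 2)) ^ (2 * (D - i)) * Real.exp (C0 * (1 + w.im ^ 2)) ^ i := by
        gcongr
    _ = Real.exp (C0 * (1 + w.im ^ 2)) ^ (2 * (D - i) + i) := (pow_add _ _ _).symm
    _ ≤ Real.exp (C0 * (1 + w.im ^ 2)) ^ (2 * D) := pow_le_pow_right₀ hE (by omega)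
    _ = Real.exp (2 * D * (C0 * (1 + w.im ^ 2))) := by
        rw [← Real.exp_nat_mul]
        push_cast
        rfl

private theorem J4_exp (D : ℕ) : (D : ℝ) + 1 ≤ Real.exp D := Real.add_one_le_exp _

theorem GG_growth (hy : 0 < y.im) : ∃ C : ℕ, 1 ≤ C ∧ ∀ (D : ℕ) (c : Ix D → ℂ), 1 ≤ D →
    (∀ l, ‖c l‖ ≤ 1) → ∀ s : ℂ, ‖GG b D c s‖ ≤ Real.exp (C * D * (1 + s.im ^ 2)) := by
  obtain ⟨C0, hC0, hg⟩ := CZ.growth' b hy
  set K : ℝ := 2 * Real.pi * ‖y‖ + 2 * C0 + 2 * C0 * (1 + ‖y‖ ^ 2) + 2 with hK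
  have hpi := Real.pi_pos
  have hK2 : 2 ≤ K := by
    have : 0 ≤ 2 * Real.pi * ‖y‖ + 2 * C0 + 2 * C0 * (1 + ‖y‖ ^ 2) := by positivity
    linarith
  refine ⟨⌈K⌉₊, Nat.one_le_iff_ne_zero.2 (Nat.ceil_pos.2 (by linarith)).ne', ?_⟩
  intro D c hD hc s0
  have hD' : (1 : ℝ) ≤ D := by exact_mod_cast hD
  -- reduction
  obtain ⟨s, hs1, hs2, hs3⟩ : ∃ s : ℂ, GG b D c s0 = GG b D c s ∧ s.im = s0.im ∧
      ‖s‖ ^ 2 ≤ 1 + s0.im ^ 2 := by
    refine ⟨s0 + ((-⌊s0.re⌋ : ℤ) : ℂ), (GG_int b D c _ s0).symm, ?_, ?_⟩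
    · rw [add_im, intCast_im, add_zero]
    · rw [Complex.sq_norm, Complex.normSq_apply, add_im, intCast_im, add_zero, add_re, intCast_re]
      push_cast
      have h1 := Int.floor_le s0.re
      have h2 := Int.lt_floor_add_one s0.re
      nlinarith
  rw [hs1]
  set T : ℝ := 1 + s0.im ^ 2 with hT
  have hT1 : 1 ≤ T := by
    have := sq_nonneg s0.im
    linarith
  have e1 : ‖exp (2 * Real.pi * I * D * y * s ^ 2)‖ ≤ Real.exp (2 * Real.pi * ‖y‖ * (D * T)) := by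
    refine (Complex.norm_exp_le_exp_norm _).trans (Real.exp_le_exp.2 ?_)
    have h1 : ‖2 * (Real.pi : ℂ) * I * D * y * s ^ 2‖ = 2 * Real.pi * D * ‖y‖ * ‖s‖ ^ 2 := by
      rw [norm_mul, norm_mul, norm_mul, norm_mul, norm_mul, norm_pow, Complex.norm_I,
        Complex.norm_natCast, Complex.norm_real, Complex.norm_ofNat, Real.norm_of_nonneg hpi.le]
      ring
    rw [h1]
    calc 2 * Real.pi * D * ‖y‖ * ‖s‖ ^ 2 ≤ 2 * Real.pi * D * ‖y‖ * T := by gcongr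
      _ = 2 * Real.pi * ‖y‖ * (D * T) := by ring
  have e2 : ∀ l : Ix D, ‖c l * (HH b D l.1 s * HH b D l.2 (y * s))‖ ≤
      Real.exp ((2 * C0 + 2 * C0 * (1 + ‖y‖ ^ 2)) * (D * T)) := by
    intro l
    rw [norm_mul, norm_mul]
    have h1 := J4_HH b hC0 hg D l.1 (Nat.lt_succ_iff.1 l.1.2) s
    have h2 := J4_HH b hC0 hg D l.2 (Nat.lt_succ_iff.1 l.2.2) (y * s)
    have h3 : (y * s).im ^ 2 ≤ ‖y‖ ^ 2 * T := by
      calc (y * s).im ^ 2 = |(y * s).im| ^ 2 := (sq_abs _).symm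
        _ ≤ ‖y * s‖ ^ 2 := pow_le_pow_left₀ (abs_nonneg _) (Complex.abs_im_le_norm _) 2
        _ = ‖y‖ ^ 2 * ‖s‖ ^ 2 := by rw [norm_mul, mul_pow]
        _ ≤ ‖y‖ ^ 2 * T := by gcongr
    have h4 : ‖HH b D l.1 s‖ ≤ Real.exp (2 * C0 * (D * T)) := by
      refine h1.trans (Real.exp_le_exp.2 (le_of_eq ?_))
      rw [hs2]
      ring
    have h5 : ‖HH b D l.2 (y * s)‖ ≤ Real.exp (2 * C0 * (1 + ‖y‖ ^ 2) * (D * T)) := by
      refine h2.trans (Real.exp_le_exp.2 ?_)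
      have h6 : 1 + (y * s).im ^ 2 ≤ (1 + ‖y‖ ^ 2) * T := by
        linarith
      calc 2 * (D : ℝ) * (C0 * (1 + (y * s).im ^ 2)) ≤ 2 * (D : ℝ) * (C0 * ((1 + ‖y‖ ^ 2) * T)) := by
            gcongr
        _ = 2 * C0 * (1 + ‖y‖ ^ 2) * (D * T) := by ring
    calc ‖c l‖ * (‖HH b D l.1 s‖ * ‖HH b D l.2 (y * s)‖)
        ≤ 1 * (Real.exp (2 * C0 * (D * T)) * Real.exp (2 * C0 * (1 + ‖y‖ ^ 2) * (D * T))) := by
          gcongr
          exact hc l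
      _ = Real.exp ((2 * C0 + 2 * C0 * (1 + ‖y‖ ^ 2)) * (D * T)) := by
          rw [one_mul, ← Real.exp_add]
          congr 1
          ring
  have e3 : ‖∑ l, c l * (HH b D l.1 s * HH b D l.2 (y * s))‖ ≤
      Real.exp (2 * (D * T)) * Real.exp ((2 * C0 + 2 * C0 * (1 + ‖y‖ ^ 2)) * (D * T)) := by
    refine (norm_sum_le _ _).trans ((Finset.sum_le_sum fun l _ => e2 l).trans ?_)
    rw [Finset.sum_const, nsmul_eq_mul]
    refine mul_le_mul_of_nonneg_right ?_ (Real.exp_pos _).le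
    rw [Finset.card_univ, Fintype.card_prod, Fintype.card_fin]
    push_cast
    have h1 := J4_exp D
    calc ((D : ℝ) + 1) * (D + 1) ≤ Real.exp D * Real.exp D := by gcongr
      _ = Real.exp (2 * (D : ℝ)) := by
          rw [← Real.exp_add]
          congr 1
          ring
      _ ≤ Real.exp (2 * (D * T)) := by
          refine Real.exp_le_exp.2 ?_
          have : (D : ℝ) * 1 ≤ D * T := by gcongr
          linarith
  unfold GG
  rw [norm_mul]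
  calc ‖exp (2 * Real.pi * I * D * y * s ^ 2)‖ * ‖∑ l, c l * (HH b D l.1 s * HH b D l.2 (y * s))‖
      ≤ Real.exp (2 * Real.pi * ‖y‖ * (D * T)) *
        (Real.exp (2 * (D * T)) * Real.exp ((2 * C0 + 2 * C0 * (1 + ‖y‖ ^ 2)) * (D * T))) := by
        gcongr
    _ = Real.exp (K * (D * T)) := by
        rw [← Real.exp_add, ← Real.exp_add, hK]
        congr 1
        ring
    _ ≤ Real.exp ((⌈K⌉₊ : ℝ) * D * T) := by
        refine Real.exp_le_exp.2 ?_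
        rw [mul_assoc]
        exact mul_le_mul_of_nonneg_right (Nat.le_ceil K) (by positivity)

theorem HV_growth (hy : 0 < y.im) : ∃ C : ℕ, 1 ≤ C ∧ ∀ (D : ℕ) (R : Fin (D + 1) → ℂ) (ρ : ℝ),
    1 ≤ D → (∀ k, ‖R k‖ ≤ ρ) → ∀ v : ℂ, ‖HV b D R v‖ ≤ ρ * Real.exp (C * D * (1 + ‖v‖ ^ 2)) := by
  obtain ⟨C0, hC0, hg⟩ := CZ.growth' b hy
  refine ⟨⌈1 + 2 * C0⌉₊, Nat.one_le_iff_ne_zero.2 (Nat.ceil_pos.2 (by linarith)).ne', ?_⟩
  intro D R ρ hD hR v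
  have hD' : (1 : ℝ) ≤ D := by exact_mod_cast hD
  have hρ : 0 ≤ ρ := (norm_nonneg _).trans (hR 0)
  have hT1 : 1 ≤ 1 + ‖v‖ ^ 2 := by
    have := sq_nonneg ‖v‖
    linarith
  have hv : v.im ^ 2 ≤ ‖v‖ ^ 2 := by
    calc v.im ^ 2 = |v.im| ^ 2 := (sq_abs _).symm
      _ ≤ ‖v‖ ^ 2 := pow_le_pow_left₀ (abs_nonneg _) (Complex.abs_im_le_norm _) 2
  have e1 : ∀ k : Fin (D + 1), ‖R k * HH b D k v‖ ≤
      ρ * Real.exp (2 * C0 * (D * (1 + ‖v‖ ^ 2))) := by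
    intro k
    rw [norm_mul]
    have h1 := J4_HH b hC0 hg D k (Nat.lt_succ_iff.1 k.2) v
    refine mul_le_mul (hR k) (h1.trans (Real.exp_le_exp.2 ?_)) (norm_nonneg _) hρ
    calc 2 * (D : ℝ) * (C0 * (1 + v.im ^ 2)) ≤ 2 * (D : ℝ) * (C0 * (1 + ‖v‖ ^ 2)) := by gcongr
      _ = 2 * C0 * (D * (1 + ‖v‖ ^ 2)) := by ring
  unfold HV
  refine (norm_sum_le _ _).trans ((Finset.sum_le_sum fun k _ => e1 k).trans ?_)
  rw [Finset.sum_const, nsmul_eq_mul, Finset.card_univ, Fintype.card_fin]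
  push_cast
  have h1 := J4_exp D
  calc ((D : ℝ) + 1) * (ρ * Real.exp (2 * C0 * (D * (1 + ‖v‖ ^ 2))))
      ≤ Real.exp D * (ρ * Real.exp (2 * C0 * (D * (1 + ‖v‖ ^ 2)))) := by gcongr
    _ = ρ * Real.exp (D + 2 * C0 * (D * (1 + ‖v‖ ^ 2))) := by
        rw [Real.exp_add]
        ring
    _ ≤ ρ * Real.exp ((⌈1 + 2 * C0⌉₊ : ℝ) * D * (1 + ‖v‖ ^ 2)) := by
        refine mul_le_mul_of_nonneg_left (Real.exp_le_exp.2 ?_) hρ
        have h2 : (D : ℝ) * 1 ≤ D * (1 + ‖v‖ ^ 2) := by gcongr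
        calc (D : ℝ) + 2 * C0 * (D * (1 + ‖v‖ ^ 2))
            ≤ (1 + 2 * C0) * (D * (1 + ‖v‖ ^ 2)) := by linarith
          _ ≤ (⌈1 + 2 * C0⌉₊ : ℝ) * (D * (1 + ‖v‖ ^ 2)) :=
              mul_le_mul_of_nonneg_right (Nat.le_ceil _) (by positivity)
          _ = (⌈1 + 2 * C0⌉₊ : ℝ) * D * (1 + ‖v‖ ^ 2) := by ring

end MJ
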