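import Pool.Agent.H32.MJ.J3
import Pool.Agent.H32.MJ.J4

/-!
# MP_ede373, measure of `j(y)`, row J10: the upper bound on a half space

Let `D ≥ D0`, `N = (D + 1)^2 = card (Ix D)`, `T0 = N / 2` (natural division, `2 T0 ≤ N`, `4 T0 ≥ D^2`). `V` = the common kernel of the `T0` linear functionals `c ↦ jt (Pt ep h y) D c t`, `t < T0`
(a submodule of `Ix D → ℂ`): kernel of a linear map `(Ix D → ℂ) →ₗ[ℂ] (Fin T0 → ℂ)`, rank-nullity: `finrank V ≥ N - T0`, so `N ≤ 2 finrank V` (`LinearMap.finrank_range_add_finrank_ker`, `finrank (Fin T0 → ℂ) = T0`).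
For `c ∈ V`, `‖c l‖ ≤ 1`. Let `r, C` be from `loc`, `C'` from `GG_growth`. Let `q` be a natural number, `q ≥ 100 C' * 100` (say `q = 10000 C'`), `D ≥ 8 q`, and put `n = ⌊D/q⌋` (natural division), `R = n` (real).
For `‖s‖ ≤ r ≤ 1/4` apply `U2.Hm_gen` to `g v = GG b D c (s + v)`, points `u_i = k_i - s`, `k_i = i - n/2`, `i : Fin n` (integers, `|k_i| ≤ n/2`, so `‖u_i‖ ≤ n/2 + 1/4 ≤ R`), `2 δ`-separated with `δ = r`, multiplicity `T0` at
each point: by `GG_int` and the first part of `loc` with `S = T0`, `η = 0`. So `ε = C^(D+1) * 0 = 0` and `‖GG b D c s‖ ≤ (1/3)^(n T0) M`, `M = exp (C' D (1 + (1 + 4 n)^2)) ≤ exp (26 C' D n^2)`.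
`(1/3)^(n T0) ≤ exp (-n T0) ≤ exp (-n D^2/4)`, and `26 C' D n^2 ≤ 26 C' D n (D/q) ≤ n D^2/8`. So `‖GG b D c s‖ ≤ exp (-n D^2/8) ≤ exp (-D^3/(16 q))` (`n ≥ D/(2q)`) on `closedBall 0 r`.
Second part of `loc`: for `t < C1 D^2`: `‖jt_t‖ ≤ t! C^(D + t + 1) exp (-D^3/(16 q)) ≤ exp (-D^3/(32 q))` for `D ≥ D0`: `log (t!) ≤ t log t ≤ C1 D^2 log (C1 D^2)`, all other terms are `O(D^2 log D)`. Take `κ = 32 q`.
-/

set_option autoImplicit false

namespace MJ

open Complex Metric U2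

theorem J10_ball {y : ℂ} (b : CZ.BaseFn y) {r : ℝ} (hr0 : 0 < r) (hr : r ≤ 1 / 4) (D : ℕ)
    (c : Ix D → ℂ) {T0 n C' : ℕ} (hn : 1 ≤ n) (g0 : ℂ → ℂ) (hg0 : ContinuousAt g0 0)
    (hloc : ∀ s ∈ closedBall (0 : ℂ) r, GG b D c s = s ^ T0 * g0 s)
    (hgr : ∀ s : ℂ, ‖GG b D c s‖ ≤ Real.exp (C' * D * (1 + s.im ^ 2))) :
    ∀ s ∈ closedBall (0 : ℂ) r, ‖GG b D c s‖ ≤
      Real.exp (-((n : ℝ) * T0) + C' * D * (1 + (1 + 4 * (n : ℝ)) ^ 2)) := by
  intro s hs
  have hs' : ‖s‖ ≤ r := by simpa using hs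
  have hn' : (1 : ℝ) ≤ n := by exact_mod_cast hn
  set k : Fin n → ℤ := fun i => (i : ℤ) - (n / 2 : ℕ) with hk
  set u : Fin n → ℂ := fun i => (k i : ℂ) - s with hu
  have hkb : ∀ i, |(k i : ℝ)| ≤ n / 2 := by
    intro i
    have h1 : 2 * k i ≤ n := by
      have := i.2
      simp only [hk]
      omega
    have h2 : -(n : ℤ) ≤ 2 * k i := by
      have := i.2
      simp only [hk]
      omega
    have h3 : 2 * (k i : ℝ) ≤ n := by exact_mod_cast h1
    have h4 : -(n : ℝ) ≤ 2 * (k i : ℝ) := by exact_mod_cast h2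
    rw [abs_le]
    constructor <;> linarith
  have key := Hm_gen n u r n hr0 (by linarith) (by
      intro i
      have h1 : ‖u i‖ ≤ ‖(k i : ℂ)‖ + ‖s‖ := norm_sub_le _ _
      rw [Complex.norm_intCast] at h1
      have h2 := hkb i
      linarith)
    (by
      intro i j hij
      have h1 : u i - u j = ((k i - k j : ℤ) : ℂ) := by
        simp only [hu]
        push_cast
        ring
      rw [h1, Complex.norm_intCast]
      have h2 : k i - k j ≠ 0 := by
        intro h3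
        apply hij
        apply Fin.ext
        simp only [hk] at h3
        omega
      have h3 : (1 : ℝ) ≤ |((k i - k j : ℤ) : ℝ)| := by
        exact_mod_cast Int.one_le_abs h2
      linarith) (n * T0)
    (fun v => GG b D c (s + v)) (fun _ => T0) 0
    (Real.exp (C' * D * (1 + (1 + 4 * (n : ℝ)) ^ 2)))
    ((GG_diff b D c).comp ((differentiable_const s).add differentiable_id))
    (by simp) le_rfl
    (by
      intro i
      refine ⟨fun _ => 0, fun v => g0 (v - u i), differentiableOn_const _, continuousOn_const, ?_, ?_,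
        ?_⟩
      · have h1 : ContinuousAt (fun v : ℂ => v - u i) (u i) :=
          (continuous_id.sub continuous_const).continuousAt
        exact ContinuousAt.comp (f := fun v : ℂ => v - u i) (g := g0)
          (by simpa using hg0) h1
      · intro v hv
        have hv' : v - u i ∈ closedBall (0 : ℂ) r := by
          rw [mem_closedBall, dist_eq_norm] at hv
          simpa using hv
        have h1 : s + v = (v - u i) + ((k i : ℤ) : ℂ) := by
          simp only [hu]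
          ring
        have h2 : GG b D c (s + v) = GG b D c (v - u i) := by
          rw [h1, GG_int]
        change GG b D c (s + v) = _
        rw [h2, hloc _ hv', zero_add]
      · intro v _
        simp)
    (by
      intro v hv
      refine (hgr (s + v)).trans (Real.exp_le_exp.2 ?_)
      have h1 : |(s + v).im| ≤ 1 + 4 * n := by
        refine (Complex.abs_im_le_norm _).trans ((norm_add_le _ _).trans ?_)
        linarith
      have h2 : (s + v).im ^ 2 ≤ (1 + 4 * (n : ℝ)) ^ 2 := by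
        rw [← sq_abs (s + v).im]
        exact pow_le_pow_left₀ (abs_nonneg _) h1 2
      have h3 : (0 : ℝ) ≤ C' * D := by positivity
      exact mul_le_mul_of_nonneg_left (by linarith) h3)
  simp only [add_zero, mul_zero] at key
  refine key.trans ?_
  rw [Real.exp_add]
  apply mul_le_mul_of_nonneg_right _ (Real.exp_pos _).le
  have h3 : (1 / 3 : ℝ) ≤ Real.exp (-1) := by
    rw [Real.exp_neg, one_div]
    apply inv_anti₀ (Real.exp_pos 1)
    have := Real.exp_one_lt_d9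
    linarith
  calc (1 / 3 : ℝ) ^ (n * T0) ≤ Real.exp (-1) ^ (n * T0) :=
        pow_le_pow_left₀ (by norm_num) h3 _
    _ = Real.exp (-((n : ℝ) * T0)) := by
        rw [← Real.exp_nat_mul]
        congr 1
        push_cast
        ring

theorem J10_log (A B κ : ℝ) (hκ : 0 < κ) : ∃ D0 : ℕ, ∀ D : ℕ, D0 ≤ D →
    A + B * Real.log D ≤ D / κ := by
  have h1 := (Real.isLittleO_log_id_atTop.bound (c := 1 / (2 * κ * (|B| + 1))) (by positivity))
  have h2 : ∀ᶠ x : ℝ in Filter.atTop, A + B * Real.log x ≤ x / κ := by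
    filter_upwards [h1, Filter.eventually_ge_atTop (2 * κ * |A|), Filter.eventually_ge_atTop 1]
      with x hx hA hx1
    have hx0 : 0 ≤ Real.log x := Real.log_nonneg hx1
    have h3 : Real.log x ≤ 1 / (2 * κ * (|B| + 1)) * x := by
      have h4 : ‖Real.log x‖ = Real.log x := by rw [Real.norm_eq_abs, abs_of_nonneg hx0]
      have h5 : ‖id x‖ = x := by rw [id, Real.norm_eq_abs, abs_of_nonneg (by linarith)]
      rw [h4, h5] at hx
      exact hx
    have h4 : A ≤ x / (2 * κ) := by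
      rw [le_div_iff₀ (by positivity)]
      have := le_abs_self A
      nlinarith
    have h5 : B * Real.log x ≤ x / (2 * κ) := by
      calc B * Real.log x ≤ (|B| + 1) * Real.log x := by
            apply mul_le_mul_of_nonneg_right _ hx0
            have := le_abs_self B
            linarith
        _ ≤ (|B| + 1) * (1 / (2 * κ * (|B| + 1)) * x) :=
            mul_le_mul_of_nonneg_left h3 (by positivity)
        _ = x / (2 * κ) := by
            have : |B| + 1 ≠ 0 := by positivity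
            field_simp
    have h6 : x / κ = x / (2 * κ) + x / (2 * κ) := by
      field_simp
      ring
    linarith
  have h3 := tendsto_natCast_atTop_atTop (R := ℝ) |>.eventually h2
  exact Filter.eventually_atTop.1 h3

theorem J10_num (C1 C q : ℕ) (hC : 1 ≤ C) (hq : 1 ≤ q) : ∃ D0 : ℕ, 1 ≤ D0 ∧ ∀ D : ℕ, D0 ≤ D →
    ∀ t < C1 * D ^ 2, (t.factorial : ℝ) * (C : ℝ) ^ (D + t + 1) *
      Real.exp (-((D : ℝ) ^ 3 / (16 * q))) ≤ Real.exp (-((D : ℝ) ^ 3 / (32 * q))) := by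
  have hq' : (1 : ℝ) ≤ q := by exact_mod_cast hq
  obtain ⟨D1, hD1⟩ := J10_log (C1 * Real.log C1 + (2 + C1) * Real.log C) (2 * C1) (32 * q)
    (by positivity)
  refine ⟨D1 + 1, by omega, fun D hD t ht => ?_⟩
  have hDl := hD1 D (by omega)
  have hD0 : 1 ≤ D := by omega
  have hD' : (1 : ℝ) ≤ D := by exact_mod_cast hD0
  have hC1 : 1 ≤ C1 := by
    rcases Nat.eq_zero_or_pos C1 with h | h
    · rw [h, zero_mul] at ht
      exact absurd ht (Nat.not_lt_zero _)
    · exact h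
  have hC1' : (1 : ℝ) ≤ C1 := by exact_mod_cast hC1
  have hC' : (1 : ℝ) ≤ C := by exact_mod_cast hC
  have hfac : (t.factorial : ℝ) ≤ ((C1 : ℝ) * D ^ 2) ^ (C1 * D ^ 2) := by
    have h1 : t.factorial ≤ (C1 * D ^ 2) ^ (C1 * D ^ 2) := by
      calc t.factorial ≤ t ^ t := Nat.factorial_le_pow t
        _ ≤ (C1 * D ^ 2) ^ t := Nat.pow_le_pow_left ht.le _
        _ ≤ (C1 * D ^ 2) ^ (C1 * D ^ 2) := Nat.pow_le_pow_right (by positivity) ht.le
    exact_mod_cast h1
  have hfac2 : ((C1 : ℝ) * D ^ 2) ^ (C1 * D ^ 2) =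
      Real.exp ((C1 * D ^ 2) * (Real.log C1 + 2 * Real.log D)) := by
    have h1 : (0 : ℝ) < C1 * D ^ 2 := by positivity
    have h2 : Real.log C1 + 2 * Real.log D = Real.log (C1 * D ^ 2) := by
      rw [Real.log_mul (by positivity) (by positivity), Real.log_pow]
      push_cast
      ring
    rw [h2, show ((C1 : ℝ) * D ^ 2) = (((C1 * D ^ 2 : ℕ)) : ℝ) by push_cast; ring,
      Real.exp_nat_mul, Real.exp_log (by exact_mod_cast h1)]
  have hCp : (C : ℝ) ^ (D + t + 1) ≤ Real.exp ((2 + C1) * D ^ 2 * Real.log C) := by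
    have h1 : (C : ℝ) ^ (D + t + 1) = Real.exp (((D + t + 1 : ℕ) : ℝ) * Real.log C) := by
      rw [Real.exp_nat_mul, Real.exp_log (by linarith)]
    rw [h1]
    apply Real.exp_le_exp.2
    apply mul_le_mul_of_nonneg_right _ (Real.log_nonneg hC')
    have h2 : (t : ℝ) ≤ C1 * D ^ 2 := by exact_mod_cast ht.le
    push_cast
    nlinarith
  calc (t.factorial : ℝ) * (C : ℝ) ^ (D + t + 1) * Real.exp (-((D : ℝ) ^ 3 / (16 * q)))
      ≤ Real.exp ((C1 * D ^ 2) * (Real.log C1 + 2 * Real.log D)) *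
        Real.exp ((2 + C1) * D ^ 2 * Real.log C) * Real.exp (-((D : ℝ) ^ 3 / (16 * q))) := by
        apply mul_le_mul_of_nonneg_right _ (Real.exp_pos _).le
        exact mul_le_mul (hfac.trans hfac2.le) hCp (by positivity) (Real.exp_pos _).le
    _ = Real.exp ((C1 * D ^ 2) * (Real.log C1 + 2 * Real.log D) +
        (2 + C1) * D ^ 2 * Real.log C + -((D : ℝ) ^ 3 / (16 * q))) := by
        rw [Real.exp_add, Real.exp_add]
    _ ≤ Real.exp (-((D : ℝ) ^ 3 / (32 * q))) := by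
        apply Real.exp_le_exp.2
        have h3 := mul_le_mul_of_nonneg_left hDl (show (0 : ℝ) ≤ (D : ℝ) ^ 2 by positivity)
        have h4 : (D : ℝ) ^ 3 / (16 * q) = (D : ℝ) ^ 2 * (D / (32 * q)) + (D : ℝ) ^ 3 / (32 * q) := by
          field_simp
          ring
        rw [h4]
        nlinarith

theorem J10_exp {D n C' q T0 : ℕ} (hC' : 1 ≤ C') (hq : q = 10000 * C') (hD : 2 * q ≤ D)
    (hn : n = D / q) (hT0 : T0 = (D + 1) ^ 2 / 2) :
    -((n : ℝ) * T0) + C' * D * (1 + (1 + 4 * (n : ℝ)) ^ 2) ≤ -((D : ℝ) ^ 3 / (16 * q)) := by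
  have hq0 : 0 < q := by omega
  have hn2 : 2 ≤ n := by
    rw [hn, Nat.le_div_iff_mul_le hq0]
    exact hD
  have hnq : n * q ≤ D := by
    rw [hn]
    exact Nat.div_mul_le_self D q
  have hnq2 : D ≤ 2 * q * n := by
    have h1 : D < q * (n + 1) := by
      rw [hn]
      exact Nat.lt_mul_div_succ D hq0
    nlinarith
  have hT : D ^ 2 ≤ 2 * T0 := by
    have h1 : (D + 1) ^ 2 = D ^ 2 + 2 * D + 1 := by ring
    rw [hT0, h1]
    omega
  have hn' : (2 : ℝ) ≤ n := by exact_mod_cast hn2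
  have hq' : (0 : ℝ) < q := by exact_mod_cast hq0
  have hnq' : (n : ℝ) * q ≤ D := by exact_mod_cast hnq
  have hnq2' : (D : ℝ) ≤ 2 * q * n := by exact_mod_cast hnq2
  have hT' : (D : ℝ) ^ 2 ≤ 2 * T0 := by exact_mod_cast hT
  have hqC : (q : ℝ) = 10000 * C' := by exact_mod_cast hq
  have hD0 : (0 : ℝ) ≤ D := Nat.cast_nonneg _
  have hC0 : (1 : ℝ) ≤ C' := by exact_mod_cast hC'
  have h1 : 1 + (1 + 4 * (n : ℝ)) ^ 2 ≤ 26 * (n : ℝ) ^ 2 := by nlinarith
  have h2 : (C' : ℝ) * D * (1 + (1 + 4 * (n : ℝ)) ^ 2) ≤ C' * D * (26 * (n : ℝ) ^ 2) :=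
    mul_le_mul_of_nonneg_left h1 (by positivity)
  have h3 : (C' : ℝ) * D * (26 * (n : ℝ) ^ 2) ≤ n * (D : ℝ) ^ 2 / 8 := by
    have h4 : (n : ℝ) * (10000 * C') ≤ D := by rw [← hqC]; exact hnq'
    have h5 : (0 : ℝ) ≤ n * D := by positivity
    have h6 := mul_le_mul_of_nonneg_left h4 h5
    nlinarith
  have h4 : (n : ℝ) * (D : ℝ) ^ 2 / 2 ≤ n * T0 := by nlinarith
  have h5 : (D : ℝ) ^ 3 / (16 * q) ≤ n * (D : ℝ) ^ 2 / 8 := by
    rw [div_le_iff₀ (by positivity)]
    have h6 := mul_le_mul_of_nonneg_left hnq2' (show (0 : ℝ) ≤ (D : ℝ) ^ 2 by positivity)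
    nlinarith
  have h6 : (0 : ℝ) ≤ n * (D : ℝ) ^ 2 := by positivity
  linarith

/-- the functionals -/
noncomputable def J10_map (P : Fin 6 → ℂ) (D T0 : ℕ) : (Ix D → ℂ) →ₗ[ℂ] (Fin T0 → ℂ) where
  toFun c := fun t => jt P D c t
  map_add' c d := by
    ext t
    simp only [jt, Pi.add_apply, add_mul, Finset.sum_add_distrib]
  map_smul' a c := by
    ext t
    simp only [jt, Pi.smul_apply, smul_eq_mul, RingHom.id_apply, Finset.mul_sum, mul_assoc]

theorem J10_rank (P : Fin 6 → ℂ) (D T0 : ℕ) (hT0 : 2 * T0 ≤ (D + 1) ^ 2) :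
    (D + 1) ^ 2 ≤ 2 * Module.finrank ℂ (LinearMap.ker (J10_map P D T0)) := by
  have h1 := LinearMap.finrank_range_add_finrank_ker (J10_map P D T0)
  have h2 : Module.finrank ℂ (Ix D → ℂ) = (D + 1) ^ 2 := by
    rw [Module.finrank_fintype_fun_eq_card, Fintype.card_prod, Fintype.card_fin, sq]
  have h3 : Module.finrank ℂ (LinearMap.range (J10_map P D T0)) ≤ T0 := by
    refine (Submodule.finrank_le _).trans ?_
    rw [Module.finrank_fintype_fun_eq_card, Fintype.card_fin]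
  omega

theorem half {y : ℂ} (hy : 0 < y.im) {b : CZ.BaseFn y} {lam h kap ep : ℂ} {ε : ℝ}
    {Xf X1f Yf : ℂ → ℂ} (hS : CZ.BaseSys b lam h kap ep ε Xf X1f Yf) :
    ∃ κ : ℕ, 1 ≤ κ ∧ ∀ C1 : ℕ, ∃ D0 : ℕ, ∀ D : ℕ, D0 ≤ D →
      ∃ V : Submodule ℂ (Ix D → ℂ), (D + 1) ^ 2 ≤ 2 * Module.finrank ℂ V ∧
        ∀ c ∈ V, (∀ l, ‖c l‖ ≤ 1) → ∀ t < C1 * D ^ 2,
          ‖jt (Pt ep h y) D c t‖ ≤ Real.exp (-((D : ℝ) ^ 3 / κ)) := by
  have hy0 : y ≠ 0 := by
    rintro rfl
    simp at hy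
  obtain ⟨r, C, hr0, hr, hC, hloc⟩ := loc hy0 hS
  obtain ⟨C', hC', hgr⟩ := GG_growth b hy
  set q : ℕ := 10000 * C' with hq
  refine ⟨32 * q, by omega, fun C1 => ?_⟩
  obtain ⟨D1, hD11, hD1⟩ := J10_num C1 C q hC (by omega)
  refine ⟨D1 + 2 * q, fun D hD => ?_⟩
  set T0 : ℕ := (D + 1) ^ 2 / 2 with hT0
  refine ⟨LinearMap.ker (J10_map (Pt ep h y) D T0), J10_rank _ D T0 (by omega), ?_⟩
  intro c hc hc1 t ht
  have hc' : ∀ t < T0, jt (Pt ep h y) D c t = 0 := by
    intro t ht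
    have h1 := LinearMap.mem_ker.1 hc
    exact congrFun h1 ⟨t, ht⟩
  obtain ⟨h1, h2⟩ := hloc D c
  obtain ⟨a, g, _, _, hg, hag, ha⟩ := h1 T0 0 le_rfl (fun t ht => by rw [hc' t ht, norm_zero])
  have hloc' : ∀ s ∈ closedBall (0 : ℂ) r, GG b D c s = s ^ T0 * g s := by
    intro s hs
    have h3 := ha s hs
    rw [mul_zero] at h3
    have h4 : a s = 0 := norm_le_zero_iff.1 h3
    rw [hag s hs, h4, zero_add]
  have hball := J10_ball b hr0 hr D c (T0 := T0) (n := D / q) (C' := C')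
    (by rw [Nat.le_div_iff_mul_le (by omega)]; omega) g hg hloc'
    (hgr D c (by omega) hc1)
  have hexp := J10_exp (D := D) (n := D / q) (q := q) hC' hq (by omega) rfl hT0
  have h3 := h2 (Real.exp (-((D : ℝ) ^ 3 / (16 * q))))
    (fun s hs => (hball s hs).trans (Real.exp_le_exp.2 hexp)) t
  refine h3.trans ((hD1 D (by omega) t ht).trans (le_of_eq ?_))
  push_cast
  ring_nf

end MJ
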