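import Pool.Agent.H22.U2.Non
import Pool.Agent.H22.U2.Hm
import Pool.Agent.H22.CZ.Ba2
import Pool.Agent.H32.CZ.Q0
import Pool.Agent.H32.T3.Ht

/-!
# MP_ede373, a transcendence measure of `j(y)`, `y` algebraic and not a CM point: definitions

Lattice `ℤ + ℤ y`, base functions `b.A`, `b.B` (`Pool/Agent/H22/CZ/Defs.lean`), `HH b D i = b.A^(2 (D - i)) b.B^i`
(`Pool/Agent/H22/U2/Defs.lean`). The functions `X(s)`, `X(y s)` with `X = b.B / b.A^2` have the common period `1`.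

* `GG b D c s = exp (2 π I D y s^2) ∑_l c_l HH b D l.1 s * HH b D l.2 (y s)`: entire, period `1`.
* `HV b D R v = ∑_j R_j HH b D j v`: one variable.
* `W D t l`: integer polynomial (6 variables `X(s), X1(s), X(y s), X1(y s), h, y`), the `t`-th derivative of
  `X(s)^l.1 X(y s)^l.2` divided by `lam^t`.
* `Pt ep h y`: the values of the six variables at `s = 0`.
* `jt P D c t = ∑_l c_l W_{t,l}(P)`: the jets.
-/

set_option autoImplicit false

namespace MJ

open Complex U2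
open MvPolynomial (X C aeval)

/-- The index set. -/
abbrev Ix (D : ℕ) : Type := Fin (D + 1) × Fin (D + 1)

/-- The images of the variables. -/
noncomputable def dv : Fin 6 → MvPolynomial (Fin 6) ℤ :=
  ![X 1, C 6 * X 0 ^ 2 - X 4, X 5 * X 3, X 5 * (C 6 * X 2 ^ 2 - X 4), 0, 0]

/-- The derivation. -/
noncomputable def DD : Derivation ℤ (MvPolynomial (Fin 6) ℤ) (MvPolynomial (Fin 6) ℤ) :=
  MvPolynomial.mkDerivation ℤ dv

/-- The polynomials of the jets. -/
noncomputable def W (D t : ℕ) (l : Ix D) : MvPolynomial (Fin 6) ℤ :=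
  DD^[t] (X 0 ^ (l.1 : ℕ) * X 2 ^ (l.2 : ℕ))

/-- The values at the origin. -/
noncomputable def Pt (ep h y : ℂ) : Fin 6 → ℂ := ![ep, 0, ep, 0, h, y]

/-- The jets. -/
noncomputable def jt (P : Fin 6 → ℂ) (D : ℕ) (c : Ix D → ℂ) (t : ℕ) : ℂ :=
  ∑ l, c l * aeval P (W D t l)

/-- The linear combinations of the functions `X(s)^i X(y s)^k`. -/
noncomputable def FX (Xf : ℂ → ℂ) (y : ℂ) (D : ℕ) (c : Ix D → ℂ) (s : ℂ) : ℂ :=
  ∑ l, c l * (Xf s ^ (l.1 : ℕ) * Xf (y * s) ^ (l.2 : ℕ))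

section Fun

variable {y : ℂ} (b : CZ.BaseFn y)

/-- The entire functions of period `1`. -/
noncomputable def GG (D : ℕ) (c : Ix D → ℂ) (s : ℂ) : ℂ :=
  exp (2 * Real.pi * I * D * y * s ^ 2) * ∑ l, c l * (HH b D l.1 s * HH b D l.2 (y * s))

/-- One variable. -/
noncomputable def HV (D : ℕ) (R : Fin (D + 1) → ℂ) (v : ℂ) : ℂ := ∑ k, R k * HH b D k v

end Fun

end MJ
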