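import Pool.Agent.H32.MJ.D0
import Pool.Agent.H32.CZ.Qe
import Pool.Agent.H32.AZ.Al
import Pool.Agent.H32.T3.A0
import Pool.Agent.H32.CZ.Qf

/-!
# MP_ede373, measure of `j(y)`, row J12: the base data are algebraic over `ℚ(j(y))`

`AZ.E_ne y hcm τ rfl` (`Pool/Agent/H32/AZ/Al.lean`) gives `E₄ τ ≠ 0`, `E₆ τ ≠ 0`. `CZ.exists_base τ h4 h6` (`Pool/Agent/H32/CZ/Qe.lean`) gives `b, lam, ep, ε, X, X1, Y` with `BaseSys b lam h kap ep ...`,
`h = 27/2 * (E₄ τ^3 / E₆ τ^2)` and `4 ep^3 - 2 h ep - 2 h = 0`.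
Algebraicity over `K = IntermediateField.adjoin ℚ {jf τ}` of the entries of `Pt ep h τ = ![ep, 0, ep, 0, h, τ]`: `jf τ ∈ K`; `h = 27/2 * jf τ / (jf τ - 1728) ∈ K` (`jf_mul, jf_sub` in `Pool/Agent/H32/T3/A0.lean`: `jf τ * discriminant τ = E₄ τ^3`,
`(jf τ - 1728) * discriminant τ = E₆ τ^2`, `discriminant_ne_zero`); `ep` is a root of the nonzero polynomial `4 X^3 - 2 h X - 2 h` over `K`; `τ` is algebraic over `ℚ` hence over `K`; `0` is algebraic.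
Compare `cs7_alg` in `Pool/Agent/H22/U2/Al7.lean`. (`IsAlgebraic` is closed under field operations; for `ep` give the polynomial or use `isAlgebraic`-lemmas for roots.)
-/

set_option autoImplicit false

open EisensteinSeries ModularForm UpperHalfPlane

namespace MJ

open H32 H32.T3

theorem base_arith (τ : ℍ) (halg : IsAlgebraic ℚ (τ : ℂ))
    (hcm : ¬ ∃ a b c : ℤ, (a ≠ 0 ∨ b ≠ 0 ∨ c ≠ 0) ∧ (a : ℂ) * (τ : ℂ) ^ 2 + b * τ + c = 0) :
    ∃ (b : CZ.BaseFn (τ : ℂ)) (lam h kap ep : ℂ) (ε : ℝ) (Xf X1f Yf : ℂ → ℂ),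
      CZ.BaseSys b lam h kap ep ε Xf X1f Yf ∧
      ∀ i, IsAlgebraic (IntermediateField.adjoin ℚ (Set.range ![jf τ])) (Pt ep h τ i) := by
  obtain ⟨h4, h6⟩ := AZ.E_ne (τ : ℂ) hcm τ rfl
  obtain ⟨b, lam, ep, ε, Xf, X1f, Yf, hsys, -, hep⟩ := CZ.exists_base τ h4 h6
  refine ⟨b, lam, _, _, ep, ε, Xf, X1f, Yf, hsys, ?_⟩
  generalize hFLD : IntermediateField.adjoin ℚ (Set.range ![jf τ]) = FLD
  have m0 : IsAlgebraic FLD (jf τ) := by
    have h : jf τ ∈ FLD := by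
      rw [← hFLD]; exact IntermediateField.subset_adjoin _ _ ⟨0, rfl⟩
    exact isAlgebraic_algebraMap (⟨_, h⟩ : FLD)
  have mz : IsAlgebraic FLD (τ : ℂ) := halg.tower_top FLD
  obtain ⟨M, hM⟩ : ∃ M : IntermediateField FLD ℂ, ∀ x, x ∈ M ↔ IsAlgebraic FLD x :=
    ⟨algebraicClosure FLD ℂ, fun x => mem_algebraicClosure_iff⟩
  rw [← hM] at m0 mz
  have nat_mem : ∀ n : ℕ, (n : ℂ) ∈ M := fun n => natCast_mem M n
  have i1728 : (1728 : ℂ) ∈ M := by exact_mod_cast nat_mem 1728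
  have i2 : (2 : ℂ) ∈ M := by exact_mod_cast nat_mem 2
  have i27 : (27 : ℂ) ∈ M := by exact_mod_cast nat_mem 27
  have mt : E₄ τ ^ 3 / E₆ τ ^ 2 ∈ M := by
    have e : E₄ τ ^ 3 / E₆ τ ^ 2 = jf τ / (jf τ - 1728) := by
      have hd := discriminant_ne_zero τ
      rw [← jf_mul, ← jf_sub]
      exact mul_div_mul_right _ _ hd
    rw [e]
    exact div_mem m0 (sub_mem m0 i1728)
  have mh : 27 / 2 * (E₄ τ ^ 3 / E₆ τ ^ 2) ∈ M := mul_mem (div_mem i27 i2) mt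
  have mep : ep ∈ M := by
    rw [hM]
    exact CZ.Qf_ep ((hM _).1 mh) hep
  intro i
  rw [← hM]
  fin_cases i
  · exact mep
  · exact zero_mem M
  · exact mep
  · exact zero_mem M
  · exact mh
  · exact mz

end MJ
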