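import Pool.Agent.H32.AO.D0
import Pool.Agent.H32.AZ.Crit

/-!
# MP_ede373, measure of `j(y)`, row J13: from `¬ Appr` to a transcendence measure

* `not_appr_down`: contrapositive: let `Appr ![J] κ'`. As in `AZ.appr_of_alg1_aux` (`Pool/Agent/H32/AZ/Crit.lean`), by induction on `j`: there are `m`, `Q : Fin m → ℂ` with `range ![J] ⊆ range Q`, `P i ∈ range Q` for `i < j`,
  and `Appr Q κ''` for every `κ'' < κ'` with `1 ≤ κ''` (start: `Q = ![J]`, `Appr` is monotone in the exponent because `t ≥ 1`; step: `CZ.appr_ext Q _ _ κ2 κ''` with `κ'' < κ2 < κ'`, `1 < κ2`). Then reindex (`appr_reindex`, used in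
  `AZ.appr_of_alg1`), at `κ'' = κ`.
* `meas_of_not_appr`. (1) `J` is transcendental: if `J` is algebraic over `ℚ` then `Appr ![J] κ`: `E = IntermediateField.adjoin ℚ {J}` (a number field, as a `Type`), `x = ![J]`, `S = {inclusion}`, `d = V` arbitrary large, `t` fixed
  (`t = max 1 (finrank) (hE)`), closeness `0 ≤ exp (-V)`. (2) Let `κ` be given (`1 ≤ κ` natural), put `κ1 = κ + 2`. `¬ Appr ![J] κ` unfolds to: there is `U0` such that for all `t ≥ 1`, `V ≥ U0`, `V ≥ t^κ`: `¬ ApprAt ![J] t V`. Let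
  `f ≠ 0`, `natDegree f ≤ Λ`, `nr f ≤ exp Λ`, `Λ ≥ Λ0`, and suppose `‖aeval J f‖ < exp (-Λ^κ1)`. `good_factor f hf J (Λ^κ1) ..` (`Pool/Agent/H32/CZ/Pj.lean`; `aeval J f ≠ 0` as `J` is transcendental) gives an irreducible `r`, `0 < natDegree r`,
  with `s := natDegree r + log (mah r) ≤ natDegree f + log (mah f) ≤ 2 Λ` (`mah_le_nr`) and `Λ^κ1 s ≤ 2 Λ (-log ‖aeval J r‖)`, so (`s ≥ 1`) `-log ‖aeval J r‖ ≥ Λ^(κ+1) s / 2`. `AZ.line_local J _ r` gives `ApprAt ![J] s V` with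
  `V ≥ Λ^(κ+1) s / 2`. And `s^κ ≤ s (2 Λ)^(κ-1) ≤ s 2^κ Λ^κ ≤ Λ^(κ+1) s / 2` if `Λ ≥ 2^(κ+1)`, and `V ≥ Λ/2 ≥ U0` if `Λ ≥ 2 U0`: contradiction. (Compare the proof of `AZ.line` in `Pool/Agent/H32/AZ/L.lean`.)
-/

set_option autoImplicit false

namespace MJ

open CZ

theorem J13_aux {k : ℕ} (J : ℂ) (P : Fin k → ℂ)
    (hP : ∀ i, IsAlgebraic (IntermediateField.adjoin ℚ (Set.range ![J])) (P i)) (κ' : ℝ)
    (hκ' : 1 < κ') (h : Appr ![J] κ') (j : ℕ) :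
    ∃ (m : ℕ) (Q : Fin m → ℂ), Set.range ![J] ⊆ Set.range Q ∧
      (∀ i : Fin k, (i : ℕ) < j → P i ∈ Set.range Q) ∧ ∀ κ : ℝ, κ < κ' → Appr Q κ := by
  induction j with
  | zero => exact ⟨1, ![J], subset_rfl, fun i hi ↦ absurd hi (Nat.not_lt_zero _),
      fun κ hκ ↦ appr_mono_exp _ hκ.le h⟩
  | succ j ih =>
    obtain ⟨m, Q, hQ, hQP, hA⟩ := ih
    by_cases hj : j < k
    · refine ⟨m + 1, (Fin.snoc Q (P ⟨j, hj⟩) : Fin (m + 1) → ℂ), ?_, ?_, ?_⟩
      · intro z hz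
        obtain ⟨i, rfl⟩ := hQ hz
        exact ⟨i.castSucc, by simp⟩
      · intro i hi
        rcases Nat.lt_succ_iff_lt_or_eq.mp hi with h | h
        · obtain ⟨l, hl⟩ := hQP i h
          exact ⟨l.castSucc, by simpa using hl⟩
        · refine ⟨Fin.last m, ?_⟩
          have : i = ⟨j, hj⟩ := Fin.ext h
          simp [this]
      · intro κ hκ
        have hmax : max κ 1 < κ' := max_lt hκ hκ'
        obtain ⟨κ2, h1, h2⟩ := exists_between hmax
        exact appr_ext Q _ (isAlgebraic_of_adjoin_le hQ _ (hP ⟨j, hj⟩)) κ2 κ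
          ((le_max_right _ _).trans_lt h1) ((le_max_left _ _).trans_lt h1) (hA κ2 h2)
    · refine ⟨m, Q, hQ, fun i hi ↦ hQP i ?_, hA⟩
      have := i.2
      omega

theorem not_appr_down {k : ℕ} (J : ℂ) (P : Fin k → ℂ)
    (hP : ∀ i, IsAlgebraic (IntermediateField.adjoin ℚ (Set.range ![J])) (P i)) (κ κ' : ℝ)
    (hκ : 1 ≤ κ) (hκ' : κ < κ') (h : ¬ Appr P κ) : ¬ Appr ![J] κ' := by
  intro hJ
  apply h
  obtain ⟨m, Q, -, hQP, hA⟩ := J13_aux J P hP κ' (hκ.trans_lt hκ') hJ k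
  choose f hf using fun i : Fin k ↦ hQP i i.2
  have h := appr_reindex Q f κ (hA κ hκ')
  have hPQ : (fun i ↦ Q (f i)) = P := funext hf
  rwa [hPQ] at h

theorem J13_tr (J : ℂ) (κ : ℝ) (h : ¬ Appr ![J] κ) : Transcendental ℚ J := by
  intro hJ
  apply h
  have hfd : FiniteDimensional ℚ (IntermediateField.adjoin ℚ {J}) :=
    IntermediateField.adjoin.finiteDimensional hJ.isIntegral
  have : NumberField (IntermediateField.adjoin ℚ {J}) :=
    { to_charZero := inferInstance, to_finiteDimensional := hfd }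
  have hmem : J ∈ IntermediateField.adjoin ℚ {J} :=
    IntermediateField.subset_adjoin ℚ _ (Set.mem_singleton _)
  set x : IntermediateField.adjoin ℚ {J} := ⟨J, hmem⟩ with hx
  set t : ℝ := max 1 (max (Module.finrank ℚ (IntermediateField.adjoin ℚ {J})) (hE x)) with ht
  intro U0
  refine ⟨t, max U0 (max (t ^ κ) 0), le_max_left _ _, le_max_left _ _,
    (le_max_left _ _).trans (le_max_right _ _), IntermediateField.adjoin ℚ {J}, inferInstance,
    inferInstance, ![x], {(IntermediateField.adjoin ℚ {J}).val.toRingHom},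
    fun _ => max U0 (max (t ^ κ) 0), (le_max_left _ _).trans (le_max_right _ _), ?_, ?_, ?_⟩
  · intro i
    fin_cases i
    exact (le_max_right _ _).trans (le_max_right _ _)
  · intro φ hφ
    rw [Finset.mem_singleton] at hφ
    refine ⟨(le_max_right _ _).trans (le_max_right _ _), fun i => ?_⟩
    fin_cases i
    subst hφ
    have h1 : (IntermediateField.adjoin ℚ {J}).val.toRingHom x = J := rfl
    show ‖(IntermediateField.adjoin ℚ {J}).val.toRingHom x - J‖ ≤ _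
    rw [h1, sub_self, norm_zero]
    exact (Real.exp_pos _).le
  · rw [Finset.sum_singleton]

theorem meas_of_not_appr (J : ℂ) (κ : ℕ) (hκ : 1 ≤ κ) (h : ¬ Appr ![J] (κ : ℝ)) : AO.Meas J := by
  have hJ : Transcendental ℚ J := J13_tr J _ h
  have hae : ∀ f : Polynomial ℤ, f ≠ 0 → Polynomial.aeval J f ≠ 0 := by
    intro f hf h
    exact hJ ((IsFractionRing.isAlgebraic_iff ℤ ℚ ℂ).1 ⟨f, hf, h⟩)
  unfold Appr at h
  push Not at h
  obtain ⟨U0, hU0⟩ := h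
  refine ⟨κ + 2, max (2 ^ (κ + 1)) ⌈2 * U0⌉₊, ?_⟩
  intro f Λ hf hΛ hdeg hnr
  by_contra hcon
  have hcon' := not_le.1 hcon
  have hΛ2 : 2 ^ (κ + 1) ≤ Λ := (le_max_left _ _).trans hΛ
  have hΛU : 2 * U0 ≤ Λ := by
    refine (Nat.le_ceil _).trans ?_
    exact_mod_cast (le_max_right _ _).trans hΛ
  have hΛ2r : (2 : ℝ) ^ (κ + 1) ≤ Λ := by exact_mod_cast hΛ2
  have hΛ1 : (1 : ℝ) ≤ Λ := (one_le_pow₀ (by norm_num)).trans hΛ2r
  have hΛ0 : (0 : ℝ) < Λ := by linarith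
  obtain ⟨r, hr, hn, -, hsz, hV⟩ := good_factor f hf J ((Λ : ℝ) ^ (κ + 2)) (by positivity)
    (hae f hf) hcon'.le
  obtain ⟨W, hA, hW⟩ := AZ.line_local J hJ r hr hn
  obtain ⟨s, hs⟩ : ∃ s : ℝ, s = r.natDegree + Real.log (mah r) := ⟨_, rfl⟩
  rw [← hs] at hA hsz hV
  have hmah : 1 ≤ mah r := one_le_mah hr.ne_zero
  have hlog0 : 0 ≤ Real.log (mah r) := Real.log_nonneg hmah
  have hn1 : (1 : ℝ) ≤ r.natDegree := by exact_mod_cast hn
  have hs1 : 1 ≤ s := by linarith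
  have hfs : (f.natDegree : ℝ) + Real.log (mah f) ≤ 2 * Λ := by
    have h1 : (f.natDegree : ℝ) ≤ Λ := by exact_mod_cast hdeg
    have h2 : Real.log (mah f) ≤ Λ := by
      have h3 : 1 ≤ mah f := one_le_mah hf
      rw [Real.log_le_iff_le_exp (by linarith)]
      exact (mah_le_nr f).trans hnr
    linarith
  have hs2 : s ≤ 2 * Λ := hsz.trans hfs
  have hW0 : (Λ : ℝ) ^ (κ + 1) * s ≤ 2 * W := by
    have h2 : 0 < -Real.log ‖Polynomial.aeval J r‖ := by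
      by_contra hcon
      have h3 : -Real.log ‖Polynomial.aeval J r‖ ≤ 0 := not_lt.1 hcon
      have h4 : 0 ≤ (f.natDegree : ℝ) + Real.log (mah f) := by linarith
      have h5 := mul_nonpos_of_nonneg_of_nonpos h4 h3
      have h0 : 0 < (Λ : ℝ) ^ (κ + 2) * s := by positivity
      linarith
    have h3 : (Λ : ℝ) ^ (κ + 2) * s ≤ 2 * Λ * W := by
      refine (hV.trans (mul_le_mul_of_nonneg_right hfs h2.le)).trans ?_
      exact mul_le_mul_of_nonneg_left hW (by positivity)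
    have h5 : (Λ : ℝ) * ((Λ : ℝ) ^ (κ + 1) * s) ≤ Λ * (2 * W) := by
      calc (Λ : ℝ) * ((Λ : ℝ) ^ (κ + 1) * s) = (Λ : ℝ) ^ (κ + 2) * s := by ring
        _ ≤ 2 * Λ * W := h3
        _ = Λ * (2 * W) := by ring
    exact le_of_mul_le_mul_left h5 hΛ0
  refine hU0 s W hs1 ?_ ?_ hA
  · have h1 : (Λ : ℝ) ≤ (Λ : ℝ) ^ (κ + 1) * s := by
      have h2 : (Λ : ℝ) ≤ (Λ : ℝ) ^ (κ + 1) := le_self_pow₀ hΛ1 (by omega)
      nlinarith
    linarith
  · rw [Real.rpow_natCast]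
    obtain ⟨k, rfl⟩ : ∃ k, κ = k + 1 := ⟨κ - 1, by omega⟩
    have h1 : s ^ k ≤ (2 * Λ) ^ k := pow_le_pow_left₀ (by linarith) hs2 k
    have h2 : 2 * (2 * (Λ : ℝ)) ^ k ≤ (Λ : ℝ) ^ (k + 1 + 1) := by
      calc 2 * (2 * (Λ : ℝ)) ^ k = 2 ^ (k + 1) * (Λ : ℝ) ^ k := by rw [mul_pow]; ring
        _ ≤ 2 ^ (k + 1 + 1) * (Λ : ℝ) ^ k := by
          gcongr
          · norm_num
          · omega
        _ ≤ Λ * (Λ : ℝ) ^ k := by gcongr
        _ = (Λ : ℝ) ^ (k + 1) := by ring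
        _ ≤ (Λ : ℝ) ^ (k + 1 + 1) := pow_le_pow_right₀ hΛ1 (by omega)
    have h3 : 2 * (s ^ k * s) ≤ (Λ : ℝ) ^ (k + 1 + 1) * s := by
      have h4 : 2 * s ^ k ≤ (Λ : ℝ) ^ (k + 1 + 1) := by linarith
      nlinarith
    rw [pow_succ]
    linarith

end MJ
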