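import Pool.Agent.H32.MJ.J11
import Pool.Agent.H32.MJ.J12
import Pool.Agent.H32.MJ.J13

/-!
# MP_ede373: a transcendence measure of `j(y)` for `y` algebraic, not a CM point
-/

set_option autoImplicit false

open EisensteinSeries ModularForm UpperHalfPlane

namespace MJ

open H32 H32.T3

theorem meas_jf (τ : ℍ) (halg : IsAlgebraic ℚ (τ : ℂ))
    (hcm : ¬ ∃ a b c : ℤ, (a ≠ 0 ∨ b ≠ 0 ∨ c ≠ 0) ∧ (a : ℂ) * (τ : ℂ) ^ 2 + b * τ + c = 0) :
    AO.Meas (jf τ) := by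
  obtain ⟨b, lam, h, kap, ep, ε, Xf, X1f, Yf, hS, hal⟩ := base_arith τ halg hcm
  have h1 := not_appr_base τ.im_pos halg hcm hS
  have h2 := not_appr_down (jf τ) _ hal 5 6 (by norm_num) (by norm_num) h1
  exact meas_of_not_appr (jf τ) 6 (by norm_num) (by exact_mod_cast h2)

end MJ
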