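import Mathlib

/-!
# MP_ede373, measure of `j(y)`, row J8: a Liouville inequality

`y` is algebraic and satisfies no integral quadratic relation; then `|a y^2 + b y + c| ≥ (C H)^(-C)` for integers `(a, b, c) ≠ 0` of absolute value at most `H`.

Proof. Let `d` be a positive integer with `d y` integral over `ℤ` (`exists_integral_multiple`), `K` a number field: `K = IntermediateField.adjoin ℚ {y}` (finite dimensional), `ω : K` with image `y`.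
`ξ = a ω^2 + b ω + c ∈ K`, `ξ ≠ 0`, `d^2 ξ` is an algebraic integer, so `|N_{K/ℚ}(d^2 ξ)| ≥ 1` (an integer `≠ 0`; `Algebra.norm`, or the product over the embeddings `K →+* ℂ`: `Algebra.norm_eq_prod_embeddings`).
Every conjugate satisfies `‖σ(d^2 ξ)‖ ≤ 3 d^2 H B^2`, `B = max(1, max_σ ‖σ ω‖)`. One of the embeddings is the inclusion: `1 ≤ ∏_σ ‖σ (d^2 ξ)‖ ≤ d^2 ‖a y^2 + b y + c‖ (3 d^2 H B^2)^(N-1)`, `N = [K:ℚ]`. So
`1 ≤ (C H)^C ‖a y^2 + b y + c‖` for `C ≥ N`, `C ≥ 3 d^2 B^2 `. (Alternative: elementary with the minimal polynomial and `Polynomial.resultant`, or an existing Liouville lemma in the pool, e.g.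
search the pool; any proof is fine. Keep the imports light.)
-/

set_option autoImplicit false

namespace MJ

/-- The product over the embeddings. -/
private theorem J8_core {K : Type} [Field K] [Algebra ℚ K] [FiniteDimensional ℚ K]
    (σ0 : K →ₐ[ℚ] ℂ) (x : K) (hx : IsIntegral ℤ x) (hx0 : x ≠ 0) (M : ℝ) (hM : 1 ≤ M)
    (hb : ∀ σ : K →ₐ[ℚ] ℂ, ‖σ x‖ ≤ M) :
    1 ≤ ‖σ0 x‖ * M ^ Fintype.card (K →ₐ[ℚ] ℂ) := by
  classical
  have h1 : IsIntegral ℤ (Algebra.norm ℚ x) := Algebra.isIntegral_norm ℚ hx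
  obtain ⟨z, hz⟩ := IsIntegrallyClosed.isIntegral_iff.1 h1
  have h2 : Algebra.norm ℚ x ≠ 0 := Algebra.norm_ne_zero_iff.2 hx0
  have hz0 : z ≠ 0 := by
    rintro rfl
    rw [map_zero] at hz
    exact h2 hz.symm
  have h3 := Algebra.norm_eq_prod_embeddings ℚ ℂ x
  have h4 : (1 : ℝ) ≤ ‖∏ σ : K →ₐ[ℚ] ℂ, σ x‖ := by
    rw [← h3, ← hz]
    have h5 : (algebraMap ℚ ℂ) ((algebraMap ℤ ℚ) z) = (z : ℂ) := by simp
    rw [h5, Complex.norm_intCast]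
    exact_mod_cast Int.one_le_abs hz0
  rw [norm_prod, ← Finset.mul_prod_erase _ _ (Finset.mem_univ σ0)] at h4
  refine h4.trans (mul_le_mul_of_nonneg_left ?_ (norm_nonneg _))
  calc ∏ σ ∈ Finset.univ.erase σ0, ‖σ x‖ ≤ ∏ _σ ∈ Finset.univ.erase σ0, M :=
        Finset.prod_le_prod (fun σ _ => norm_nonneg _) fun σ _ => hb σ
    _ = M ^ (Finset.univ.erase σ0).card := by rw [Finset.prod_const]
    _ ≤ M ^ Fintype.card (K →ₐ[ℚ] ℂ) := by
        refine pow_le_pow_right₀ hM ?_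
        exact (Finset.card_le_card (Finset.erase_subset _ _))

theorem liou (y : ℂ) (halg : IsAlgebraic ℚ y)
    (hcm : ¬ ∃ a b c : ℤ, (a ≠ 0 ∨ b ≠ 0 ∨ c ≠ 0) ∧ (a : ℂ) * y ^ 2 + b * y + c = 0) :
    ∃ C : ℕ, 1 ≤ C ∧ ∀ (H : ℕ) (a b c : ℤ), |a| ≤ H → |b| ≤ H → |c| ≤ H →
      (a ≠ 0 ∨ b ≠ 0 ∨ c ≠ 0) → 1 ≤ ((C : ℝ) * H) ^ C * ‖(a : ℂ) * y ^ 2 + b * y + c‖ := by
  classical
  have hint : IsIntegral ℚ y := halg.isIntegral
  have : FiniteDimensional ℚ (IntermediateField.adjoin ℚ {y}) :=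
    IntermediateField.adjoin.finiteDimensional hint
  obtain ⟨K, hK⟩ : ∃ K : IntermediateField ℚ ℂ, K = IntermediateField.adjoin ℚ {y} := ⟨_, rfl⟩
  rw [← hK] at this
  have hyK : y ∈ K := by
    rw [hK]
    exact IntermediateField.mem_adjoin_simple_self ℚ y
  set ω : K := ⟨y, hyK⟩ with hω
  have halgω : IsAlgebraic ℤ ω := by
    have h1 : IsAlgebraic ℚ ω := Algebra.IsAlgebraic.isAlgebraic ω
    exact (IsFractionRing.isAlgebraic_iff ℤ ℚ K).2 h1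
  obtain ⟨d, hd0, hd⟩ := halgω.exists_integral_multiple
  set σ0 : K →ₐ[ℚ] ℂ := K.val with hσ0
  set B : ℝ := 1 + ∑ σ : K →ₐ[ℚ] ℂ, ‖σ ω‖ with hB
  have hsum : 0 ≤ ∑ σ : K →ₐ[ℚ] ℂ, ‖σ ω‖ := Finset.sum_nonneg fun σ _ => norm_nonneg _
  have hB1 : 1 ≤ B := by linarith
  have hσB : ∀ σ : K →ₐ[ℚ] ℂ, ‖σ ω‖ ≤ B := by
    intro σ
    have := Finset.single_le_sum (f := fun σ : K →ₐ[ℚ] ℂ => ‖σ ω‖) (fun _ _ => norm_nonneg _)
      (Finset.mem_univ σ)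
    linarith
  have hd1 : (1 : ℝ) ≤ (d : ℝ) ^ 2 := by
    have h1 : (1 : ℤ) ≤ d ^ 2 := by
      have := Int.one_le_abs hd0
      rw [← sq_abs]
      nlinarith
    exact_mod_cast h1
  set E : ℝ := 3 * (d : ℝ) ^ 2 * B ^ 2 with hE
  have hB2 : 1 ≤ B ^ 2 := one_le_pow₀ hB1
  have hE1 : (d : ℝ) ^ 2 ≤ E := by
    rw [hE]
    nlinarith
  set N := Fintype.card (K →ₐ[ℚ] ℂ) with hN
  refine ⟨N + 1 + ⌈E⌉₊, by omega, ?_⟩
  intro H a b c ha hb hc habc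
  have hH : 1 ≤ H := by
    by_contra hcon
    have hH0 : H = 0 := by omega
    subst hH0
    rw [Nat.cast_zero, abs_nonpos_iff] at ha hb hc
    rcases habc with h | h | h
    · exact h ha
    · exact h hb
    · exact h hc
  have hHr : (1 : ℝ) ≤ H := by exact_mod_cast hH
  have hP0 : (a : ℂ) * y ^ 2 + b * y + c ≠ 0 := fun h => hcm ⟨a, b, c, habc, h⟩
  set x : K := (d : K) ^ 2 * ((a : K) * ω ^ 2 + b * ω + c) with hx
  have hvx : ∀ σ : K →ₐ[ℚ] ℂ, σ x = (d : ℂ) ^ 2 * ((a : ℂ) * σ ω ^ 2 + b * σ ω + c) := by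
    intro σ
    rw [hx]
    simp only [map_mul, map_add, map_pow, map_intCast]
  have hv0 : σ0 x = (d : ℂ) ^ 2 * ((a : ℂ) * y ^ 2 + b * y + c) := hvx σ0
  have hdC : (d : ℂ) ≠ 0 := by exact_mod_cast hd0
  have hx0 : x ≠ 0 := by
    intro h
    rw [h, map_zero] at hv0
    exact mul_ne_zero (pow_ne_zero 2 hdC) hP0 hv0.symm
  have hxi : IsIntegral ℤ x := by
    have h1 : x = (a : K) * (d • ω) ^ 2 + (b : K) * (d : K) * (d • ω) + (c : K) * (d : K) ^ 2 := by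
      rw [hx, zsmul_eq_mul]
      ring
    rw [h1]
    have hI : ∀ n : ℤ, IsIntegral ℤ (n : K) := fun n => by
      have := isIntegral_algebraMap (R := ℤ) (A := K) (x := n)
      rwa [algebraMap_int_eq, eq_intCast] at this
    exact (((hI a).mul (hd.pow 2)).add (((hI b).mul (hI d)).mul hd)).add ((hI c).mul ((hI d).pow 2))
  have hbd : ∀ σ : K →ₐ[ℚ] ℂ, ‖σ x‖ ≤ E * H := by
    intro σ
    have ha' : |(a : ℝ)| ≤ H := by exact_mod_cast ha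
    have hb' : |(b : ℝ)| ≤ H := by exact_mod_cast hb
    have hc' : |(c : ℝ)| ≤ H := by exact_mod_cast hc
    have hs := hσB σ
    have hs0 := norm_nonneg (σ ω)
    rw [hvx, norm_mul, norm_pow, Complex.norm_intCast, sq_abs]
    have h1 : ‖(a : ℂ) * σ ω ^ 2 + b * σ ω + c‖ ≤ 3 * (H * B ^ 2) := by
      have h2 : ‖(a : ℂ) * σ ω ^ 2‖ ≤ H * B ^ 2 := by
        rw [norm_mul, norm_pow, Complex.norm_intCast]
        gcongr
      have h3 : ‖(b : ℂ) * σ ω‖ ≤ H * B ^ 2 := by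
        rw [norm_mul, Complex.norm_intCast]
        have h4 : B ≤ B ^ 2 := by nlinarith
        exact mul_le_mul hb' (hs.trans h4) hs0 (by positivity)
      have h5 : ‖(c : ℂ)‖ ≤ H * B ^ 2 := by
        rw [Complex.norm_intCast]
        nlinarith
      have h6 := norm_add₃_le (a := (a : ℂ) * σ ω ^ 2) (b := (b : ℂ) * σ ω) (c := (c : ℂ))
      linarith
    calc (d : ℝ) ^ 2 * ‖(a : ℂ) * σ ω ^ 2 + b * σ ω + c‖ ≤ (d : ℝ) ^ 2 * (3 * (H * B ^ 2)) :=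
          mul_le_mul_of_nonneg_left h1 (by positivity)
      _ = E * H := by
          rw [hE]
          ring
  have hE1' : 1 ≤ E := hd1.trans hE1
  have hEH : 1 ≤ E * H := by nlinarith
  have hcore := J8_core σ0 x hxi hx0 (E * H) hEH hbd
  rw [hv0, norm_mul, norm_pow, Complex.norm_intCast, sq_abs] at hcore
  have hEH2 : (d : ℝ) ^ 2 ≤ E * H := by nlinarith
  have hCH : E * H ≤ ((N + 1 + ⌈E⌉₊ : ℕ) : ℝ) * H := by
    refine mul_le_mul_of_nonneg_right ?_ (by linarith)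
    refine (Nat.le_ceil E).trans ?_
    exact_mod_cast (by omega : ⌈E⌉₊ ≤ N + 1 + ⌈E⌉₊)
  have hCH1 : 1 ≤ ((N + 1 + ⌈E⌉₊ : ℕ) : ℝ) * H := hEH.trans hCH
  have hfin : (d : ℝ) ^ 2 * (E * H) ^ N ≤ (((N + 1 + ⌈E⌉₊ : ℕ) : ℝ) * H) ^ (N + 1 + ⌈E⌉₊) := by
    calc (d : ℝ) ^ 2 * (E * H) ^ N ≤ (E * H) * (E * H) ^ N :=
          mul_le_mul_of_nonneg_right hEH2 (by positivity)
      _ = (E * H) ^ (N + 1) := by ring
      _ ≤ (((N + 1 + ⌈E⌉₊ : ℕ) : ℝ) * H) ^ (N + 1) := pow_le_pow_left₀ (by linarith) hCH _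
      _ ≤ _ := pow_le_pow_right₀ hCH1 (by omega)
  calc (1 : ℝ) ≤ (d : ℝ) ^ 2 * ‖(a : ℂ) * y ^ 2 + b * y + c‖ * (E * H) ^ N := hcore
    _ = (d : ℝ) ^ 2 * (E * H) ^ N * ‖(a : ℂ) * y ^ 2 + b * y + c‖ := by ring
    _ ≤ _ := mul_le_mul_of_nonneg_right hfin (norm_nonneg _)

end MJ
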