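import Pool.Agent.H32.MJ.J5
import Pool.Agent.H32.MJ.J6
import Pool.Agent.H32.MJ.J7
import Pool.Agent.H32.MJ.J8

/-!
# MP_ede373, measure of `j(y)`, row J9: zero estimate

Constants: `C0` from `U2.nondeg b`, `C'` from `HV_growth`, `C6` from `HV_low`, `C7` from `reduce`, `C8` from `liou`. Put `n = C6 D` (number of points), `K = ⌈1 + 2 Y C6⌉₊` (`Y = y.im`),
`A = C7 (1 + C6)^2 + 1` (large enough, see below), and let `C1, D5` be from `GG_small` for `K, A`. Suppose all jets `t < C1 D^2` are `< exp (-D^4)`, `D ≥ D0`.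
1. `nondeg` for `c` gives `x1, x2`, `‖x1‖, ‖x2‖ ≤ 1`, `1 = ‖c l0‖ ≤ C0^(D+1) ‖∑_{i,j} c (i,j) HH i x1 HH j x2‖`. With `s0 = x1`, `R j = ∑_i c (i, j) HH b D i s0` this is `C0^(D+1) ‖HV b D R x2‖` (exchange the sums),
   and `‖HV b D R x2‖ ≤ ρ exp (2 C' D)` if `ρ = max ‖R j‖` (`HV_growth`). So `ρ ≥ exp (-C9 D)`.
2. For `k < n`: `s_k = s0 + 2 k y`, `|Im s_k| ≤ 1 + 2 k Y ≤ K D`, so `‖GG b D c s_k‖ ≤ exp (-A D^3)` (`GG_small`). `reduce` gives `v_k, a_k, m_k` with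
   `‖HV b D R (v_k)‖ ≤ exp (C7 D (1 + k)^2 - A D^3) ≤ exp (-D^3) =: η` if `A ≥ C7 (1 + C6)^2 + 1` (`(1 + k)^2 ≤ (C6 D + 1)^2 ≤ (1 + C6)^2 D^2`).
3. Separation: `v_k - v_l = 2 (k - l) y^2 - 2 (a_k - a_l) y + (m_k - m_l)` (subtract the two relations of `reduce`), integers of absolute value `≤ H := 4 C7 C6 D + 4 C6 D`-ish, the first is `≠ 0` for `k ≠ l`: `liou` gives
   `‖v_k - v_l‖ ≥ (C8 H)^(-C8) =: 2 δ` (`δ ≤ 1`).
4. `HV_low` with `n = C6 D` points: `ρ ≤ (C6/δ)^(2 n) η`: so `exp (-C9 D) ≤ exp (2 C6 D log (C6/δ) - D^3)`; `log (1/δ) ≤ C10 (1 + log D)`. For `D ≥ D0` this is false (`D log D = o(D^3)`).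
The points are indexed by `Fin n`, `k : Fin n`, cast to `ℕ`.
-/

set_option autoImplicit false

namespace MJ

open Complex Metric U2

/-- Separation of the points. -/
theorem J9_sep {y s0 : ℂ} {C7 C8 n : ℕ} (hC7 : 1 ≤ C7)
    (hli : ∀ (H : ℕ) (a b c : ℤ), |a| ≤ H → |b| ≤ H → |c| ≤ H →
      (a ≠ 0 ∨ b ≠ 0 ∨ c ≠ 0) → 1 ≤ ((C8 : ℝ) * H) ^ C8 * ‖(a : ℂ) * y ^ 2 + b * y + c‖)
    {k l : ℕ} (hk : k < n) (hl : l < n) (hkl : k ≠ l) {vk vl : ℂ} {ak mk al ml : ℤ}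
    (hvk : y * (s0 + 2 * k * y) = vk + (2 * ak * y - mk))
    (hvl : y * (s0 + 2 * l * y) = vl + (2 * al * y - ml))
    (hak : |ak| ≤ C7 * (k + 1)) (hmk : |mk| ≤ C7 * (k + 1))
    (hal : |al| ≤ C7 * (l + 1)) (hml : |ml| ≤ C7 * (l + 1)) :
    1 ≤ ((C8 : ℝ) * ((4 * C7 * n : ℕ) : ℝ)) ^ C8 * ‖vk - vl‖ := by
  have hkn : (C7 : ℤ) * (k + 1) ≤ C7 * n := by
    apply mul_le_mul_of_nonneg_left _ (by positivity)
    omega
  have hln : (C7 : ℤ) * (l + 1) ≤ C7 * n := by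
    apply mul_le_mul_of_nonneg_left _ (by positivity)
    omega
  have h2n : 2 * (n : ℤ) ≤ 4 * C7 * n := by
    have h : (1 : ℤ) ≤ C7 := by exact_mod_cast hC7
    nlinarith
  have hk' := abs_le.1 (hak.trans hkn)
  have hl' := abs_le.1 (hal.trans hln)
  have hk'' := abs_le.1 (hmk.trans hkn)
  have hl'' := abs_le.1 (hml.trans hln)
  have h0 : (0 : ℤ) ≤ C7 * n := by positivity
  have h4 : ((4 * C7 * n : ℕ) : ℤ) = 4 * ((C7 : ℤ) * n) := by push_cast; ring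
  have h2n' : 2 * (n : ℤ) ≤ 4 * ((C7 : ℤ) * n) := by linarith
  have h := hli (4 * C7 * n) (2 * ((k : ℤ) - l)) (-2 * (ak - al)) (mk - ml)
    (by rw [h4, abs_le]; constructor <;> omega) (by rw [h4, abs_le]; constructor <;> omega)
    (by rw [h4, abs_le]; constructor <;> omega) (Or.inl (by omega))
  have e : ((2 * ((k : ℤ) - l) : ℤ) : ℂ) * y ^ 2 + ((-2 * (ak - al) : ℤ) : ℂ) * y +
      ((mk - ml : ℤ) : ℂ) = vk - vl := by
    push_cast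
    linear_combination hvk - hvl
  rwa [e] at h

theorem J9_num {C0 C' C6 C8 M D : ℕ}
    (hD : 2 * C0 + 2 * C' + 2 * (C8 + 1) * C6 * M + 1 ≤ D) :
    (C0 : ℝ) * (D + 1) + 2 * C' * D + ((C8 + 1) * (2 * (C6 * D)) : ℕ) * (M * D) - (D : ℝ) ^ 3 < 0 := by
  have hD' : 2 * (C0 : ℝ) + 2 * C' + 2 * (C8 + 1) * C6 * M + 1 ≤ D := by exact_mod_cast hD
  have hD1 : (1 : ℝ) ≤ D := by
    have : 1 ≤ D := by omega
    exact_mod_cast this
  have h0 : (0 : ℝ) ≤ C0 := Nat.cast_nonneg _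
  have h1 : (0 : ℝ) ≤ C' := Nat.cast_nonneg _
  have hDD : (D : ℝ) ≤ (D : ℝ) ^ 2 := by nlinarith
  have h2 : (C0 : ℝ) * (D + 1) ≤ 2 * C0 * (D : ℝ) ^ 2 := by
    have : (D : ℝ) + 1 ≤ 2 * (D : ℝ) ^ 2 := by linarith
    have := mul_le_mul_of_nonneg_left this h0
    linarith
  have h3 : 2 * (C' : ℝ) * D ≤ 2 * C' * (D : ℝ) ^ 2 :=
    mul_le_mul_of_nonneg_left hDD (by linarith)
  have h5 : (2 * (C0 : ℝ) + 2 * C' + 2 * (C8 + 1) * C6 * M + 1) * (D : ℝ) ^ 2 ≤ (D : ℝ) ^ 3 := by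
    have := mul_le_mul_of_nonneg_right hD' (sq_nonneg (D : ℝ))
    calc _ ≤ (D : ℝ) * (D : ℝ) ^ 2 := this
      _ = (D : ℝ) ^ 3 := by ring
  have h6 : (((C8 + 1) * (2 * (C6 * D)) : ℕ) : ℝ) * (M * D) =
      2 * (C8 + 1) * C6 * M * (D : ℝ) ^ 2 := by
    push_cast
    ring
  rw [h6]
  have h7 : (0 : ℝ) < (D : ℝ) ^ 2 := by positivity
  nlinarith

theorem zest {y : ℂ} (hy : 0 < y.im) (halg : IsAlgebraic ℚ y)
    (hcm : ¬ ∃ a b c : ℤ, (a ≠ 0 ∨ b ≠ 0 ∨ c ≠ 0) ∧ (a : ℂ) * y ^ 2 + b * y + c = 0)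
    {b : CZ.BaseFn y} {lam h kap ep : ℂ} {ε : ℝ}
    {Xf X1f Yf : ℂ → ℂ} (hS : CZ.BaseSys b lam h kap ep ε Xf X1f Yf) :
    ∃ C1 D0 : ℕ, 1 ≤ C1 ∧ ∀ (D : ℕ) (c : Ix D → ℂ), D0 ≤ D → (∀ l, ‖c l‖ ≤ 1) →
      (∃ l, ‖c l‖ = 1) → ∃ t < C1 * D ^ 2, Real.exp (-(D : ℝ) ^ 4) ≤ ‖jt (Pt ep h y) D c t‖ := by
  obtain ⟨C0, hC0, hnd⟩ := U2.nondeg b
  obtain ⟨C', hC', hgr⟩ := HV_growth b hy
  obtain ⟨C6, hC6, hlow⟩ := HV_low b hy
  obtain ⟨C7, hC7, hred⟩ := reduce b hy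
  obtain ⟨C8, hC8, hli⟩ := liou y halg hcm
  obtain ⟨C1, D5, hC1, hsm⟩ := GG_small hy hS ⌈1 + 2 * y.im * C6⌉₊ (C7 * (1 + C6) ^ 2 + 1)
  refine ⟨C1, D5 + (2 * C0 + 2 * C' + 2 * (C8 + 1) * C6 * (4 * C8 * C7 * C6) + 1), hC1,
    fun D c hD hc hl => ?_⟩
  obtain ⟨l0, hl0⟩ := hl
  by_contra hcon
  push Not at hcon
  have hD5 : D5 ≤ D := by omega
  have hDE : 2 * C0 + 2 * C' + 2 * (C8 + 1) * C6 * (4 * C8 * C7 * C6) + 1 ≤ D := by omega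
  have hD1 : 1 ≤ D := by omega
  have hD1r : (1 : ℝ) ≤ D := by exact_mod_cast hD1
  have hG := hsm D c hD5 hc (fun t ht => (hcon t ht).le)
  obtain ⟨x1, x2, hx1, hx2, hn⟩ := hnd D (fun i j => c (i, j))
  have h1 : ‖c l0‖ ≤ _ := hn l0.1 l0.2
  rw [hl0] at h1
  set R : Fin (D + 1) → ℂ := fun j => ∑ i : Fin (D + 1), c (i, j) * HH b D i x1 with hR
  have hsum : ∑ j1 : Fin (D + 1), ∑ j2 : Fin (D + 1), c (j1, j2) * HH b D j1 x1 * HH b D j2 x2 =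
      HV b D R x2 := by
    unfold HV
    rw [Finset.sum_comm]
    refine Finset.sum_congr rfl fun k _ => ?_
    rw [hR, Finset.sum_mul]
  rw [hsum] at h1
  choose v a m hv1 hv2 hv3 hv4 hv5 using fun k : ℕ => hred D c x1 k hD1 hx1
  have hn0 : 1 ≤ C6 * D := Nat.mul_pos hC6 hD1
  -- the strip
  have him : ∀ k : ℕ, k < C6 * D →
      |(x1 + 2 * k * y).im| ≤ ((⌈1 + 2 * y.im * C6⌉₊ : ℕ) : ℝ) * D := by
    intro k hk
    have e : (x1 + 2 * k * y).im = x1.im + 2 * k * y.im := by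
      simp [Complex.add_im, Complex.mul_im]
    have h2 : |x1.im| ≤ 1 := (Complex.abs_im_le_norm x1).trans hx1
    have h3 : (k : ℝ) ≤ C6 * D := by exact_mod_cast hk.le
    have h4 : 2 * (k : ℝ) * y.im ≤ 2 * (C6 * D) * y.im := by
      apply mul_le_mul_of_nonneg_right _ hy.le
      linarith
    have h5 := Nat.le_ceil (1 + 2 * y.im * C6)
    rw [e]
    calc |x1.im + 2 * k * y.im| ≤ |x1.im| + |2 * k * y.im| := abs_add_le _ _
      _ ≤ 1 + 2 * (C6 * D) * y.im := by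
          rw [abs_of_nonneg (by positivity : 0 ≤ 2 * (k : ℝ) * y.im)]
          linarith
      _ ≤ (1 + 2 * y.im * C6) * D := by nlinarith
      _ ≤ _ := mul_le_mul_of_nonneg_right h5 (by linarith)
  -- small values
  have hsmall : ∀ k : ℕ, k < C6 * D → ‖HV b D R (v k)‖ ≤ Real.exp (-(D : ℝ) ^ 3) := by
    intro k hk
    refine (hv5 k).trans ?_
    calc Real.exp (C7 * D * (1 + (k : ℝ)) ^ 2) * ‖GG b D c (x1 + 2 * k * y)‖ ≤
          Real.exp (C7 * D * (1 + (k : ℝ)) ^ 2) *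
            Real.exp (-(((C7 * (1 + C6) ^ 2 + 1 : ℕ) : ℝ) * (D : ℝ) ^ 3)) :=
          mul_le_mul_of_nonneg_left (hG _ (him k hk)) (Real.exp_pos _).le
      _ ≤ Real.exp (-(D : ℝ) ^ 3) := by
          rw [← Real.exp_add]
          apply Real.exp_le_exp.2
          have h3 : 1 + (k : ℝ) ≤ (1 + C6) * D := by
            have : 1 + k ≤ (1 + C6) * D := by
              have : (1 + C6) * D = D + C6 * D := by ring
              omega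
            exact_mod_cast this
          have h4 : (1 + (k : ℝ)) ^ 2 ≤ ((1 + C6) * D) ^ 2 := pow_le_pow_left₀ (by positivity) h3 2
          have h5 : (C7 : ℝ) * D * (1 + (k : ℝ)) ^ 2 ≤ C7 * D * ((1 + C6) * D) ^ 2 :=
            mul_le_mul_of_nonneg_left h4 (by positivity)
          push_cast
          have h6 : (C7 : ℝ) * D * ((1 + C6) * D) ^ 2 = C7 * (1 + C6) ^ 2 * (D : ℝ) ^ 3 := by ring
          linarith
  -- separation
  set Q : ℝ := ((C8 : ℝ) * ((4 * C7 * (C6 * D) : ℕ) : ℝ)) ^ C8 with hQ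
  have hbase : (1 : ℝ) ≤ (C8 : ℝ) * ((4 * C7 * (C6 * D) : ℕ) : ℝ) := by
    have : 1 ≤ C8 * (4 * C7 * (C6 * D)) := by
      apply Nat.mul_pos hC8
      apply Nat.mul_pos _ hn0
      omega
    exact_mod_cast this
  have hQ1 : 1 ≤ Q := one_le_pow₀ hbase
  have hQ0 : 0 < Q := by linarith
  have hlow' := hlow D R (C6 * D) (fun i => v i) (Q⁻¹ / 2) (Real.exp (-(D : ℝ) ^ 3)) hD1 le_rfl
    (by positivity) (by have := inv_le_one_of_one_le₀ hQ1; linarith) (Real.exp_pos _).le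
    (fun i => hv2 i) (fun i k hik => by
      have hsep := J9_sep (n := C6 * D) hC7 hli i.2 k.2 (fun h => hik (Fin.ext h))
        (hv1 i) (hv1 k) (hv3 i) (hv4 i) (hv3 k) (hv4 k)
      rw [← hQ] at hsep
      have : 2 * (Q⁻¹ / 2) = 1 / Q := by ring
      rw [this, div_le_iff₀ hQ0, mul_comm]
      exact hsep) (fun i => hsmall i i.2)
  have hbig := hgr D R (((C6 : ℝ) / (Q⁻¹ / 2)) ^ (2 * (C6 * D)) * Real.exp (-(D : ℝ) ^ 3)) hD1
    hlow' x2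
  -- estimate
  have hQM : (C6 : ℝ) / (Q⁻¹ / 2) ≤ Real.exp (((4 * C8 * C7 * C6 : ℕ) : ℝ) * D) ^ (C8 + 1) := by
    have e1 : (C6 : ℝ) / (Q⁻¹ / 2) = 2 * C6 * Q := by field_simp
    have e2 : (C8 : ℝ) * ((4 * C7 * (C6 * D) : ℕ) : ℝ) = ((4 * C8 * C7 * C6 : ℕ) : ℝ) * D := by
      push_cast
      ring
    have e3 : 2 * (C6 : ℝ) ≤ ((4 * C8 * C7 * C6 : ℕ) : ℝ) * D := by
      have : 2 * C6 ≤ 4 * C8 * C7 * C6 * D := by
        have h7 : 1 ≤ C8 * C7 * D := Nat.mul_pos (Nat.mul_pos hC8 hC7) hD1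
        calc 2 * C6 = 2 * (C6 * 1) := by ring
          _ ≤ 4 * (C6 * (C8 * C7 * D)) := by
              have := Nat.mul_le_mul_left C6 h7
              omega
          _ = 4 * C8 * C7 * C6 * D := by ring
      exact_mod_cast this
    rw [e1, hQ, e2]
    have e4 : ((4 * C8 * C7 * C6 : ℕ) : ℝ) * D ≤
        Real.exp (((4 * C8 * C7 * C6 : ℕ) : ℝ) * D) := by
      have := Real.add_one_le_exp (((4 * C8 * C7 * C6 : ℕ) : ℝ) * D)
      linarith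
    calc 2 * (C6 : ℝ) * (((4 * C8 * C7 * C6 : ℕ) : ℝ) * D) ^ C8 ≤
          (((4 * C8 * C7 * C6 : ℕ) : ℝ) * D) * (((4 * C8 * C7 * C6 : ℕ) : ℝ) * D) ^ C8 :=
          mul_le_mul_of_nonneg_right e3 (by positivity)
      _ = (((4 * C8 * C7 * C6 : ℕ) : ℝ) * D) ^ (C8 + 1) := by ring
      _ ≤ _ := pow_le_pow_left₀ (by positivity) e4 _
  have hC0e : (C0 : ℝ) ^ (D + 1) ≤ Real.exp ((C0 : ℝ) * (D + 1)) := by
    have e4 : (C0 : ℝ) ≤ Real.exp C0 := by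
      have := Real.add_one_le_exp (C0 : ℝ)
      linarith
    calc (C0 : ℝ) ^ (D + 1) ≤ Real.exp C0 ^ (D + 1) := pow_le_pow_left₀ (by positivity) e4 _
      _ = Real.exp ((C0 : ℝ) * (D + 1)) := by
          rw [← Real.exp_nat_mul]
          congr 1
          push_cast
          ring
  have hx2' : Real.exp (C' * D * (1 + ‖x2‖ ^ 2)) ≤ Real.exp (2 * C' * D) := by
    apply Real.exp_le_exp.2
    have h8 : ‖x2‖ ^ 2 ≤ 1 := pow_le_one₀ (norm_nonneg _) hx2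
    have h9 : (C' : ℝ) * D * (1 + ‖x2‖ ^ 2) ≤ C' * D * 2 :=
      mul_le_mul_of_nonneg_left (by linarith) (by positivity)
    linarith
  have hQe : ((C6 : ℝ) / (Q⁻¹ / 2)) ^ (2 * (C6 * D)) ≤
      Real.exp ((((C8 + 1) * (2 * (C6 * D)) : ℕ) : ℝ) * (((4 * C8 * C7 * C6 : ℕ) : ℝ) * D)) := by
    rw [Real.exp_nat_mul, pow_mul (Real.exp _)]
    exact pow_le_pow_left₀ (by positivity) hQM _
  have hfin : (1 : ℝ) ≤ Real.exp ((C0 : ℝ) * (D + 1) + 2 * C' * D +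
      (((C8 + 1) * (2 * (C6 * D)) : ℕ) : ℝ) * (((4 * C8 * C7 * C6 : ℕ) : ℝ) * D) -
      (D : ℝ) ^ 3) := by
    calc (1 : ℝ) ≤ (C0 : ℝ) ^ (D + 1) * ‖HV b D R x2‖ := h1
      _ ≤ Real.exp ((C0 : ℝ) * (D + 1)) *
          (Real.exp ((((C8 + 1) * (2 * (C6 * D)) : ℕ) : ℝ) *
            (((4 * C8 * C7 * C6 : ℕ) : ℝ) * D)) * Real.exp (-(D : ℝ) ^ 3) *
            Real.exp (2 * C' * D)) := by
          refine mul_le_mul hC0e (hbig.trans ?_) (norm_nonneg _) (Real.exp_pos _).le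
          exact mul_le_mul (mul_le_mul_of_nonneg_right hQe (Real.exp_pos _).le) hx2'
            (Real.exp_pos _).le (by positivity)
      _ = _ := by
          rw [← Real.exp_add, ← Real.exp_add, ← Real.exp_add]
          congr 1
          ring
  have hneg := J9_num hDE
  have hlt : Real.exp ((C0 : ℝ) * (D + 1) + 2 * C' * D +
      (((C8 + 1) * (2 * (C6 * D)) : ℕ) : ℝ) * (((4 * C8 * C7 * C6 : ℕ) : ℝ) * D) -
      (D : ℝ) ^ 3) < 1 :=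
    (Real.exp_lt_exp.2 hneg).trans_eq Real.exp_zero
  linarith

end MJ
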