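import Pool.Agent.H32.MJ.J1
import Pool.Agent.H32.MJ.J9
import Pool.Agent.H32.MJ.J10
import Pool.Agent.H32.AO.D0
import Pool.Agent.H32.AZ.C

/-!
# MP_ede373, measure of `j(y)`, row J11: no approximations of exponent `5`

* `not_appr_gen`: the proof of `AO.not_appr2` in `Pool/Agent/H32/AO/F4.lean` (the hypothesis `p < 2 q` is not used there).
* `not_appr_base`: apply it with `ea = 33, eg = 47, eb = 64, p = 5, q = 1` (`(64 - 47 + 33 + 1) * 5 = 255 < 256 = 64 * (5 - 1)`). For `M ≥ M0` put `D = M^16`, `Λ = Ix D`, `R = Fin (C1 * D^2)`, `W t l = W D t l`, where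
  `C1, D9` are from `zest`, `κ` from `half`, `D10` from `half` for this `C1`. `card Λ = (D + 1)^2`, `log card = 2 log (D + 1) ≤ 2 (16 log M + 1) ≤ M` for large `M`. `W_deg`: `2 D + 2 t ≤ 2 D + 2 C1 D^2 ≤ (2 + 2 C1) M^32 ≤ M^33`.
  `W_nrm`: `(7 (2 D + 2 t))^t ≤ exp (t log (14 (1 + C1) D^2)) ≤ exp (C1 M^32 (log (14 (1 + C1)) + 32 log M)) ≤ exp (M^33)` for large `M` (monotone in `t`: the base is `≥ 1` if `D ≥ 1`; `t ≤ C1 D^2`).
  Lower bound: `zest` gives `t < C1 D^2` with `exp (-(D^4)) = exp (-M^64) ≤ ‖jt‖`, and `jt P D c t = ∑ l, c l * aeval P (W D t l)` by definition. Upper bound: `half`: `D^3/κ = M^48/κ ≥ M^47` if `M ≥ κ`.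
  `Fintype.card (Ix D) = (D + 1)^2` by `simp [Fintype.card_prod]` and `ring`.
  The result is `¬ Appr (Pt ep h y) ((5 : ℕ) / (1 : ℕ))`, i.e. `5` after `norm_num`.
-/

set_option autoImplicit false

namespace MJ

open MvPolynomial CZ
open H32.T3 (nrm)

theorem not_appr_gen {m : ℕ} (P : Fin m → ℂ) (ea eg eb p q : ℕ) (hea : 0 < ea) (hq : 0 < q)
    (hqp : q < p) (hge : eg ≤ eb) (hex : (eb - eg + ea + 1) * p < eb * (p - q))
    (hyp : ∃ M0 : ℕ, ∀ M : ℕ, M0 ≤ M → ∃ (Λ : Type) (_ : Fintype Λ) (R : Type)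
      (W : R → Λ → MvPolynomial (Fin m) ℤ),
      0 < Fintype.card Λ ∧ Real.log (Fintype.card Λ) ≤ M ∧
      (∀ s l, ((W s l).totalDegree : ℝ) ≤ (M : ℝ) ^ ea ∧
        nrm (W s l) ≤ Real.exp ((M : ℝ) ^ ea)) ∧
      (∀ c : Λ → ℂ, (∀ l, ‖c l‖ ≤ 1) → (∃ l, ‖c l‖ = 1) →
        ∃ s, Real.exp (-(M : ℝ) ^ eb) ≤ ‖∑ l, c l * aeval P (W s l)‖) ∧
      (∃ V : Submodule ℂ (Λ → ℂ), Fintype.card Λ ≤ 2 * Module.finrank ℂ V ∧
        ∀ c ∈ V, (∀ l, ‖c l‖ ≤ 1) → ∀ s,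
          ‖∑ l, c l * aeval P (W s l)‖ ≤ Real.exp (-(M : ℝ) ^ eg))) :
    ¬ Appr P ((p : ℝ) / q) := by
  intro hA
  have hq0 : (0 : ℝ) < q := by exact_mod_cast hq
  have hab : ea < eb := by
    by_contra hle
    have h1 : eb ≤ ea := not_lt.1 hle
    have h2 : eb * (p - q) ≤ (eb - eg + ea + 1) * p :=
      Nat.mul_le_mul (by omega) (Nat.sub_le _ _)
    omega
  obtain ⟨M0, hM0⟩ := hyp
  obtain ⟨M1, hM1⟩ := AZ.core_ineq P ea eg eb hea hab
  refine AZ.cf_gen P eb eg (ea + 1) (eb - eg) (eb - eg + (ea + 1))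
    (eb * (p - q) - (eb - eg + (ea + 1)) * p) (p - q) q p ((p : ℝ) / q) (by omega) rfl
    (by omega) (div_mul_cancel₀ _ hq0.ne') ?_ ?_ (by omega) (by omega) (max M0 M1) ?_ hA
  · have : (eb - eg + (ea + 1)) * p < eb * (p - q) := hex
    omega
  · have : (eb - eg + (ea + 1)) * p < eb * (p - q) := hex
    omega
  · intro M hM E iF iN x S d t hf hx hd hex
    obtain ⟨Λ, iΛ, R, W, hc0, hcM, hW, hlow, hup⟩ := hM0 M (le_trans (le_max_left _ _) hM)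
    exact hM1 M (le_trans (le_max_right _ _) hM) Λ iΛ R W hc0 hcM hW hlow hup E iF iN x S d t hf hx hd
      hex

private theorem J11_log {M C : ℕ} (hM : (2 * C) ^ 2 ≤ M) (hM1 : 1 ≤ M) :
    (C : ℝ) * Real.log M ≤ M := by
  have hM0 : (0 : ℝ) < M := by exact_mod_cast hM1
  have hs0 : 0 < Real.sqrt M := Real.sqrt_pos.2 hM0
  have hss : Real.sqrt M * Real.sqrt M = M := Real.mul_self_sqrt hM0.le
  have h1 : Real.log M = 2 * Real.log (Real.sqrt M) := by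
    rw [Real.log_sqrt hM0.le]
    ring
  have h2 : Real.log (Real.sqrt M) ≤ Real.sqrt M := by
    have := Real.log_le_sub_one_of_pos hs0
    linarith
  have h3 : 2 * (C : ℝ) ≤ Real.sqrt M := by
    apply Real.le_sqrt_of_sq_le
    exact_mod_cast hM
  have hC : (0 : ℝ) ≤ C := Nat.cast_nonneg _
  calc (C : ℝ) * Real.log M = C * (2 * Real.log (Real.sqrt M)) := by rw [h1]
    _ ≤ C * (2 * Real.sqrt M) := by
        apply mul_le_mul_of_nonneg_left _ hC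
        linarith
    _ = (2 * C) * Real.sqrt M := by ring
    _ ≤ Real.sqrt M * Real.sqrt M := mul_le_mul_of_nonneg_right h3 hs0.le
    _ = M := hss

theorem not_appr_base {y : ℂ} (hy : 0 < y.im) (halg : IsAlgebraic ℚ y)
    (hcm : ¬ ∃ a b c : ℤ, (a ≠ 0 ∨ b ≠ 0 ∨ c ≠ 0) ∧ (a : ℂ) * y ^ 2 + b * y + c = 0)
    {b : CZ.BaseFn y} {lam h kap ep : ℂ} {ε : ℝ}
    {Xf X1f Yf : ℂ → ℂ} (hS : CZ.BaseSys b lam h kap ep ε Xf X1f Yf) :
    ¬ Appr (Pt ep h y) 5 := by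
  obtain ⟨C1, D9, hC1, hz⟩ := zest hy halg hcm hS
  obtain ⟨κ, hκ, hhalf⟩ := half hy hS
  obtain ⟨D10, hD10⟩ := hhalf C1
  have key := not_appr_gen (Pt ep h y) 33 47 64 5 1 (by norm_num) (by norm_num) (by norm_num)
    (by norm_num) (by norm_num) ?_
  · norm_num at key
    exact key
  refine ⟨(66 * C1) ^ 2 + (2 * 34) ^ 2 + 14 * (1 + C1) + D9 + D10 + κ, fun M hM => ?_⟩
  have hMC : (66 * C1) ^ 2 ≤ M := by omega
  have hM34 : (2 * 34) ^ 2 ≤ M := by omega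
  have hM14 : 14 * (1 + C1) ≤ M := by omega
  have hM1 : 1 ≤ M := by omega
  have hM1r : (1 : ℝ) ≤ M := by exact_mod_cast hM1
  have hM0 : (0 : ℝ) < M := by linarith
  have hMD : M ≤ M ^ 16 := Nat.le_self_pow (by norm_num) M
  have hD1 : 1 ≤ M ^ 16 := by omega
  have hDr : ((M ^ 16 : ℕ) : ℝ) = (M : ℝ) ^ 16 := by push_cast; rfl
  have hD1r : (1 : ℝ) ≤ (M : ℝ) ^ 16 := one_le_pow₀ hM1r
  refine ⟨Ix (M ^ 16), inferInstance, Fin (C1 * (M ^ 16) ^ 2), fun t l => W (M ^ 16) t l,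
    ?_, ?_, ?_, ?_, ?_⟩
  · exact Fintype.card_pos
  · have hcard : Fintype.card (Ix (M ^ 16)) = (M ^ 16 + 1) ^ 2 := by
      simp only [Ix, Fintype.card_prod, Fintype.card_fin]
      ring
    rw [hcard]
    have h1 : (((M ^ 16 + 1) ^ 2 : ℕ) : ℝ) ≤ (M : ℝ) ^ 34 := by
      have h2 : (M ^ 16 + 1) ^ 2 ≤ M ^ 34 := by
        calc (M ^ 16 + 1) ^ 2 ≤ (M * M ^ 16) ^ 2 := by
              apply Nat.pow_le_pow_left
              nlinarith
          _ = M ^ 34 := by ring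
      exact_mod_cast h2
    have h3 := Real.log_le_log (by positivity) h1
    rw [Real.log_pow] at h3
    have h4 := J11_log (C := 34) hM34 hM1
    exact h3.trans h4
  · intro t l
    have ht : (t : ℕ) < C1 * (M ^ 16) ^ 2 := t.2
    have htr : ((t : ℕ) : ℝ) ≤ C1 * ((M : ℝ) ^ 16) ^ 2 := by exact_mod_cast ht.le
    have hDD : (M : ℝ) ^ 16 ≤ ((M : ℝ) ^ 16) ^ 2 := le_self_pow₀ hD1r (by norm_num)
    have h32 : ((M : ℝ) ^ 16) ^ 2 = (M : ℝ) ^ 32 := by ring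
    have hC1r : (1 : ℝ) ≤ C1 := by exact_mod_cast hC1
    have h14 : 14 * (1 + (C1 : ℝ)) ≤ M := by exact_mod_cast hM14
    have hbase : 7 * (2 * ((M ^ 16 : ℕ) : ℝ) + 2 * ((t : ℕ) : ℝ)) ≤ (M : ℝ) ^ 33 := by
      rw [hDr]
      have h5 : (0 : ℝ) < (M : ℝ) ^ 32 := by positivity
      rw [h32] at htr hDD
      calc 7 * (2 * (M : ℝ) ^ 16 + 2 * ((t : ℕ) : ℝ)) ≤
            7 * (2 * (M : ℝ) ^ 32 + 2 * (C1 * (M : ℝ) ^ 32)) := by linarith
        _ = 14 * (1 + (C1 : ℝ)) * (M : ℝ) ^ 32 := by ring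
        _ ≤ M * (M : ℝ) ^ 32 := mul_le_mul_of_nonneg_right h14 h5.le
        _ = (M : ℝ) ^ 33 := by ring
    refine ⟨?_, ?_⟩
    · have h1 := W_deg (M ^ 16) t l
      have h2 : ((W (M ^ 16) t l).totalDegree : ℝ) ≤ 2 * ((M ^ 16 : ℕ) : ℝ) + 2 * ((t : ℕ) : ℝ) := by
        exact_mod_cast h1
      have h0 : (0 : ℝ) ≤ 2 * ((M ^ 16 : ℕ) : ℝ) + 2 * ((t : ℕ) : ℝ) := by positivity
      linarith
    · have h1 := W_nrm (M ^ 16) t l
      refine h1.trans ?_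
      have hB1 : (1 : ℝ) ≤ (M : ℝ) ^ 33 := one_le_pow₀ hM1r
      calc (7 * (2 * ((M ^ 16 : ℕ) : ℝ) + 2 * ((t : ℕ) : ℝ))) ^ (t : ℕ) ≤
            ((M : ℝ) ^ 33) ^ (t : ℕ) := pow_le_pow_left₀ (by positivity) hbase _
        _ ≤ ((M : ℝ) ^ 33) ^ (C1 * (M ^ 16) ^ 2) := pow_le_pow_right₀ hB1 ht.le
        _ = Real.exp (((C1 * (M ^ 16) ^ 2 : ℕ) : ℝ) * (((33 : ℕ) : ℝ) * Real.log M)) := by
            rw [Real.exp_nat_mul, Real.exp_nat_mul, Real.exp_log hM0]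
        _ ≤ Real.exp ((M : ℝ) ^ 33) := by
            apply Real.exp_le_exp.2
            have h6 := J11_log (C := 33 * C1) (by
              have : 2 * (33 * C1) = 66 * C1 := by ring
              rw [this]; exact hMC) hM1
            push_cast at h6 ⊢
            have h5 : (0 : ℝ) ≤ ((M : ℝ) ^ 16) ^ 2 := by positivity
            calc C1 * ((M : ℝ) ^ 16) ^ 2 * (33 * Real.log M) =
                  (33 * C1 * Real.log M) * ((M : ℝ) ^ 16) ^ 2 := by ring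
              _ ≤ M * ((M : ℝ) ^ 16) ^ 2 := mul_le_mul_of_nonneg_right h6 h5
              _ = (M : ℝ) ^ 33 := by ring
  · intro c hc hl
    obtain ⟨t, ht, hlt⟩ := hz (M ^ 16) c (by omega) hc hl
    refine ⟨⟨t, ht⟩, ?_⟩
    rw [hDr] at hlt
    have h4 : ((M : ℝ) ^ 16) ^ 4 = (M : ℝ) ^ 64 := by ring
    rw [h4] at hlt
    exact hlt
  · obtain ⟨V, hV1, hV2⟩ := hD10 (M ^ 16) (by omega)
    refine ⟨V, ?_, fun c hc hc1 t => ?_⟩
    · have hcard : Fintype.card (Ix (M ^ 16)) = (M ^ 16 + 1) ^ 2 := by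
        simp only [Ix, Fintype.card_prod, Fintype.card_fin]
        ring
      rw [hcard]
      exact hV1
    · have h1 := hV2 c hc hc1 t t.2
      refine h1.trans ?_
      apply Real.exp_le_exp.2
      apply neg_le_neg
      have hκr : (0 : ℝ) < κ := by exact_mod_cast hκ
      rw [hDr, le_div_iff₀ hκr]
      have h2 : (κ : ℝ) ≤ M := by
        have : κ ≤ M := by omega
        exact_mod_cast this
      calc (M : ℝ) ^ 47 * κ ≤ (M : ℝ) ^ 47 * M := mul_le_mul_of_nonneg_left h2 (by positivity)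
        _ = ((M : ℝ) ^ 16) ^ 3 := by ring

end MJ
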