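import Pool.Agent.H32.MJ.D0

/-!
# MP_ede373, measure of `j(y)`, row J2: the derivatives at the origin

* `hasDerivAt_aeval`: induction on the polynomial (`MvPolynomial.induction_on`: constants, sums, products with a variable; `DD` is a
  derivation: `Derivation.leibniz`, `DD (X i) = dv i` is `mkDerivation_X`, `DD (C a) = 0`: `MvPolynomial.derivation_C` or `Derivation.map_algebraMap`). Compare
  the same statement for the other derivation in `Pool/Agent/H32/T3` (see CoreA.lean).
* `jets`: put `r0 = min ε (ε / ‖y‖)` (`y ≠ 0`), `v s = ![Xf s, X1f s, Xf (y s), X1f (y s), h, y]`. For `‖s‖ < r0` the hypothesis of `hasDerivAt_aeval` holds: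
  `hS.dX, hS.dX1` at `s` and, composed with `s ↦ y s` (factor `y = v 5`), at `y s`. So on the open ball, by induction on `t`,
  `iteratedDeriv t (fun s ↦ aeval (v s) Q) s = lam^t * aeval (v s) (DD^[t] Q)` (`iteratedDeriv_succ`, two functions which agree on an open set have the same
  derivative there: `Filter.EventuallyEq.deriv_eq`), and `FX Xf y D c s = ∑_l c_l aeval (v s) (X 0 ^ l.1 * X 2 ^ l.2)` is a linear combination
  (`iteratedDeriv` of a sum: it is simplest to do the induction on `t` directly for `s ↦ ∑_l c_l * aeval (v s) (W D t l)`, whose derivative is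
  `lam * ∑_l c_l * aeval (v s) (W D (t+1) l)` (`Function.iterate_succ_apply'`)). `v 0 = Pt ep h y` by `hS.X0, hS.X10` and `y * 0 = 0`.
* differentiability on the ball: from `hasDerivAt_aeval` with `t = 0`.
-/

set_option autoImplicit false

namespace MJ

open Complex Metric
open MvPolynomial (X C aeval)

theorem hasDerivAt_aeval {v : ℂ → Fin 6 → ℂ} {lam s : ℂ}
    (h : ∀ i, HasDerivAt (fun s => v s i) (lam * aeval (v s) (dv i)) s) (Q : MvPolynomial (Fin 6) ℤ) :
    HasDerivAt (fun s => aeval (v s) Q) (lam * aeval (v s) (DD Q)) s := by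
  induction Q using MvPolynomial.induction_on with
  | C a =>
    have h1 : DD (C a) = 0 := MvPolynomial.derivation_C _ a
    rw [h1, map_zero, mul_zero]
    simp only [MvPolynomial.aeval_C]
    exact hasDerivAt_const s _
  | add p q hp hq =>
    simp only [map_add]
    rw [mul_add]
    exact hp.add hq
  | mul_X p i hp =>
    simp only [map_mul, MvPolynomial.aeval_X]
    have h1 : DD (p * X i) = p * dv i + X i * DD p := by
      rw [Derivation.leibniz]
      have h2 : DD (X i) = dv i := MvPolynomial.mkDerivation_X _ _ _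
      rw [h2, smul_eq_mul, smul_eq_mul]
    rw [h1, map_add, map_mul, map_mul, MvPolynomial.aeval_X]
    have h3 := hp.mul (h i)
    have e : lam * (aeval (v s) p * aeval (v s) (dv i) + v s i * aeval (v s) (DD p)) =
        lam * aeval (v s) (DD p) * v s i + aeval (v s) p * (lam * aeval (v s) (dv i)) := by ring
    rw [e]
    exact h3

/-- the values of the variables -/
private noncomputable def J2_v (Xf X1f : ℂ → ℂ) (h y : ℂ) (s : ℂ) : Fin 6 → ℂ :=
  ![Xf s, X1f s, Xf (y * s), X1f (y * s), h, y]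

private theorem J2_d {y : ℂ} {b : CZ.BaseFn y} {lam h kap ep : ℂ} {ε : ℝ} {Xf X1f Yf : ℂ → ℂ}
    (hS : CZ.BaseSys b lam h kap ep ε Xf X1f Yf) {s : ℂ} (h1 : ‖s‖ < ε) (h2 : ‖y * s‖ < ε)
    (i : Fin 6) : HasDerivAt (fun s => J2_v Xf X1f h y s i)
      (lam * aeval (J2_v Xf X1f h y s) (dv i)) s := by
  have hl : HasDerivAt (fun s : ℂ => y * s) y s := by
    simpa using (hasDerivAt_id s).const_mul y
  fin_cases i
  · change HasDerivAt (fun s => Xf s) (lam * aeval (J2_v Xf X1f h y s) (X 1)) s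
    rw [MvPolynomial.aeval_X]
    exact hS.dX s h1
  · change HasDerivAt (fun s => X1f s)
      (lam * aeval (J2_v Xf X1f h y s) (C 6 * X 0 ^ 2 - X 4 : MvPolynomial (Fin 6) ℤ)) s
    simp only [map_sub, map_mul, map_pow, MvPolynomial.aeval_X, MvPolynomial.aeval_C]
    simpa [J2_v] using hS.dX1 s h1
  · change HasDerivAt (fun s => Xf (y * s))
      (lam * aeval (J2_v Xf X1f h y s) (X 5 * X 3 : MvPolynomial (Fin 6) ℤ)) s
    simp only [map_mul, MvPolynomial.aeval_X]
    have h3 := (hS.dX (y * s) h2).comp s hl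
    have e : lam * (J2_v Xf X1f h y s 5 * J2_v Xf X1f h y s 3) = lam * X1f (y * s) * y := by
      simp only [J2_v]
      simp
      ring
    rw [e]
    exact h3
  · change HasDerivAt (fun s => X1f (y * s))
      (lam * aeval (J2_v Xf X1f h y s)
        (X 5 * (C 6 * X 2 ^ 2 - X 4) : MvPolynomial (Fin 6) ℤ)) s
    simp only [map_sub, map_mul, map_pow, MvPolynomial.aeval_X, MvPolynomial.aeval_C]
    have h3 := (hS.dX1 (y * s) h2).comp s hl
    have e : lam * (J2_v Xf X1f h y s 5 * ((algebraMap ℤ ℂ) 6 * J2_v Xf X1f h y s 2 ^ 2 -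
        J2_v Xf X1f h y s 4)) = lam * (6 * Xf (y * s) ^ 2 - h) * y := by
      simp only [J2_v]
      simp
      ring
    rw [e]
    exact h3
  · change HasDerivAt (fun _ => h) (lam * aeval (J2_v Xf X1f h y s) (0 : MvPolynomial (Fin 6) ℤ)) s
    rw [map_zero, mul_zero]
    exact hasDerivAt_const s _
  · change HasDerivAt (fun _ => y) (lam * aeval (J2_v Xf X1f h y s) (0 : MvPolynomial (Fin 6) ℤ)) s
    rw [map_zero, mul_zero]
    exact hasDerivAt_const s _

private theorem J2_FX (Xf X1f : ℂ → ℂ) (h y : ℂ) (D : ℕ) (c : Ix D → ℂ) (s : ℂ) :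
    FX Xf y D c s = ∑ l, c l * aeval (J2_v Xf X1f h y s) (W D 0 l) := by
  unfold FX W
  refine Finset.sum_congr rfl fun l _ => ?_
  simp only [Function.iterate_zero, id_eq, map_mul, map_pow, MvPolynomial.aeval_X]
  rfl

private theorem J2_sum {y : ℂ} {b : CZ.BaseFn y} {lam h kap ep : ℂ} {ε : ℝ} {Xf X1f Yf : ℂ → ℂ}
    (hS : CZ.BaseSys b lam h kap ep ε Xf X1f Yf) (D : ℕ) (c : Ix D → ℂ) {s : ℂ} (h1 : ‖s‖ < ε)
    (h2 : ‖y * s‖ < ε) (t : ℕ) :
    HasDerivAt (fun s => ∑ l, c l * aeval (J2_v Xf X1f h y s) (W D t l))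
      (lam * ∑ l, c l * aeval (J2_v Xf X1f h y s) (W D (t + 1) l)) s := by
  have h3 : HasDerivAt (fun s => ∑ l, c l * aeval (J2_v Xf X1f h y s) (W D t l))
      (∑ l, c l * (lam * aeval (J2_v Xf X1f h y s) (DD (W D t l)))) s :=
    HasDerivAt.fun_sum fun l _ => (hasDerivAt_aeval (J2_d hS h1 h2) (W D t l)).const_mul (c l)
  have e : lam * ∑ l, c l * aeval (J2_v Xf X1f h y s) (W D (t + 1) l) =
      ∑ l, c l * (lam * aeval (J2_v Xf X1f h y s) (DD (W D t l))) := by
    rw [Finset.mul_sum]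
    refine Finset.sum_congr rfl fun l _ => ?_
    have e2 : W D (t + 1) l = DD (W D t l) := by
      unfold W
      rw [Function.iterate_succ_apply']
    rw [e2]
    ring
  rw [e]
  exact h3

theorem jets {y : ℂ} (hy : y ≠ 0) {b : CZ.BaseFn y} {lam h kap ep : ℂ} {ε : ℝ} {Xf X1f Yf : ℂ → ℂ}
    (hS : CZ.BaseSys b lam h kap ep ε Xf X1f Yf) (D : ℕ) (c : Ix D → ℂ) :
    DifferentiableOn ℂ (FX Xf y D c) (ball 0 (min ε (ε / ‖y‖))) ∧
    ∀ t : ℕ, iteratedDeriv t (FX Xf y D c) 0 = lam ^ t * jt (Pt ep h y) D c t := by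
  have hy0 : 0 < ‖y‖ := norm_pos_iff.2 hy
  have hb : ∀ s ∈ ball (0:ℂ) (min ε (ε / ‖y‖)), ‖s‖ < ε ∧ ‖y * s‖ < ε := by
    intro s hs
    rw [mem_ball_zero_iff, lt_min_iff] at hs
    refine ⟨hs.1, ?_⟩
    rw [norm_mul]
    have := (lt_div_iff₀ hy0).1 hs.2
    linarith
  have key : ∀ t : ℕ, ∀ s ∈ ball (0:ℂ) (min ε (ε / ‖y‖)),
      iteratedDeriv t (FX Xf y D c) s =
        lam ^ t * ∑ l, c l * aeval (J2_v Xf X1f h y s) (W D t l) := by
    intro t
    induction t with
    | zero =>
      intro s _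
      rw [iteratedDeriv_zero, pow_zero, one_mul]
      exact J2_FX Xf X1f h y D c s
    | succ t ih =>
      intro s hs
      rw [iteratedDeriv_succ]
      have h1 : iteratedDeriv t (FX Xf y D c) =ᶠ[nhds s]
          fun s => lam ^ t * ∑ l, c l * aeval (J2_v Xf X1f h y s) (W D t l) := by
        filter_upwards [isOpen_ball.mem_nhds hs] with s' hs'
        exact ih s' hs'
      rw [h1.deriv_eq]
      have h2 := (J2_sum hS D c (hb s hs).1 (hb s hs).2 t).const_mul (lam ^ t)
      rw [h2.deriv]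
      ring
  refine ⟨?_, fun t => ?_⟩
  · intro s hs
    have h2 := J2_sum hS D c (hb s hs).1 (hb s hs).2 0
    have e : (fun s => ∑ l, c l * aeval (J2_v Xf X1f h y s) (W D 0 l)) = FX Xf y D c := by
      funext s'
      exact (J2_FX Xf X1f h y D c s').symm
    rw [e] at h2
    exact h2.differentiableAt.differentiableWithinAt
  · have hε : 0 < min ε (ε / ‖y‖) := lt_min hS.hε (div_pos hS.hε hy0)
    rw [key t 0 (mem_ball_self hε)]
    unfold jt
    have e : J2_v Xf X1f h y 0 = Pt ep h y := by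
      unfold J2_v Pt
      rw [mul_zero, hS.X0, hS.X10]
    rw [e]

end MJ
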