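import Pool.Agent.H32.MJ.J2

/-!
# MP_ede373, measure of `j(y)`, row J3: local structure of `GG` at the origin

For `‖s‖ < min ε (ε/‖y‖)`: `HH b D i s = b.A s^(2 (D - i)) * b.B s^i = b.A s^(2 D) * Xf s^i` for `i ≤ D` (`hS.hB`), the same at `y s`, so
`GG b D c s = E s * FX Xf y D c s`, `E s = exp (2 π I D y s^2) * (b.A s * b.A (y s))^(2 D)`.
By `CZ.near0 b`: `1/2 ≤ ‖b.A s‖` for `‖s‖ ≤ δ`. Take `r > 0` with `r ≤ 1/4`, `2 r ≤ ε/2, ε/(2‖y‖), δ, δ/‖y‖, 1`; by continuity (or growth) `‖b.A‖ ≤ B0` on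
`‖s‖ ≤ 1 + ‖y‖`; so there is a natural number `C0` with `‖E s‖ ≤ C0^D` and `‖E s‖⁻¹ ≤ C0^D` for `‖s‖ ≤ r`, and `E` is entire and has no zero on `closedBall 0 r`.
Put `F = FX Xf y D c`, differentiable on `ball 0 (2 r)`, `F^(t)(0) = lam^t jt_t` (`jets`).

(1) `a s = E s * ∑_{t<S} (F^(t)(0)/t!) s^t` (entire), and `g s = E s * g0 s` where `F s = ∑_{t<S} (F^(t)(0)/t!) s^t + s^S g0 s`, `g0` continuous at `0`: e.g. `F` is the
sum of its Taylor series on `ball 0 (2 r)` (`Complex.hasSum_taylorSeries_on_ball`), `g0 s = ∑' t, F^(t+S)(0)/(t+S)! s^t`, which is analytic at `0`; or `g0 = (swap dslope 0)^[S] F`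
(`Differentiable`/continuity of `dslope`: `continuousAt_dslope_same`, `DifferentiableOn` version `Complex.differentiableOn_dslope`; prove the identity by induction on
`S`: `F s = F 0 + s * dslope F 0 s` and the Taylor coefficients shift: or only prove the identity with SOME polynomial `p` of degree `< S` and identify its coefficients). Bound:
`‖a s‖ ≤ C0^D ∑_{t<S} ‖lam‖^t η r^t / t! ≤ C0^D * exp (‖lam‖) * η ≤ C^(D+1) η` (`Real.sum_le_exp_of_nonneg`-type lemma).
(2) `‖F s‖ ≤ C0^D η` on `closedBall 0 r` (`E` invertible), Cauchy: `‖F^(t)(0)‖ ≤ t! * C0^D η / r^t` (`Complex.norm_iteratedDeriv_le_of_forall_mem_sphere_norm_le`; `F` is `DiffContOnCl` on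
`ball 0 r`), and `jt_t = lam^(-t) F^(t)(0)`: `‖jt_t‖ ≤ t! * C0^D * (1/(r ‖lam‖))^t η ≤ t! C^(D+t+1) η`.
-/

set_option autoImplicit false

namespace MJ

open Complex Metric U2
open MvPolynomial (X C aeval)

theorem J3_HH {y : ℂ} {b : CZ.BaseFn y} {lam h kap ep : ℂ} {ε : ℝ} {Xf X1f Yf : ℂ → ℂ}
    (hS : CZ.BaseSys b lam h kap ep ε Xf X1f Yf) {D i : ℕ} (hi : i ≤ D) {s : ℂ} (hs : ‖s‖ < ε) :
    HH b D i s = b.A s ^ (2 * D) * Xf s ^ i := by
  rw [HH, hS.hB s hs, mul_pow, ← pow_mul, ← mul_assoc, ← pow_add]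
  congr 2
  omega

theorem J3_GG {y : ℂ} {b : CZ.BaseFn y} {lam h kap ep : ℂ} {ε : ℝ} {Xf X1f Yf : ℂ → ℂ}
    (hS : CZ.BaseSys b lam h kap ep ε Xf X1f Yf) (D : ℕ) (c : Ix D → ℂ) {s : ℂ} (hs : ‖s‖ < ε)
    (hys : ‖y * s‖ < ε) : GG b D c s =
      (exp (2 * Real.pi * I * y * s ^ 2) * (b.A s * b.A (y * s)) ^ 2) ^ D * FX Xf y D c s := by
  have h1 : exp (2 * Real.pi * I * D * y * s ^ 2) = exp (2 * Real.pi * I * y * s ^ 2) ^ D := by
    rw [← Complex.exp_nat_mul]
    congr 1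
    ring
  rw [GG, FX, h1, Finset.mul_sum, Finset.mul_sum]
  refine Finset.sum_congr rfl fun l _ => ?_
  rw [J3_HH hS (Nat.lt_succ_iff.1 l.1.2) hs, J3_HH hS (Nat.lt_succ_iff.1 l.2.2) hys, mul_pow, mul_pow,
    mul_pow, ← pow_mul, ← pow_mul]
  ring

theorem J3_taylor {F : ℂ → ℂ} {r0 : ℝ} (hr : 0 < r0) (hF : DifferentiableOn ℂ F (ball 0 r0))
    (S : ℕ) : ∃ g : ℂ → ℂ, ContinuousAt g 0 ∧ ∀ s, F s =
      ∑ t ∈ Finset.range S, iteratedDeriv t F 0 / t.factorial * s ^ t + s ^ S * g s := by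
  classical
  set P : ℂ → ℂ := fun s => ∑ t ∈ Finset.range S, iteratedDeriv t F 0 / t.factorial * s ^ t with hP
  have hA : AnalyticAt ℂ F 0 := hF.analyticAt (ball_mem_nhds 0 hr)
  have hO := hA.hasFPowerSeriesAt.isBigO_sub_partialSum_pow (S + 1)
  obtain ⟨K, hK⟩ := hO.bound
  have hps : ∀ s : ℂ, (FormalMultilinearSeries.ofScalars ℂ
      fun n => iteratedDeriv n F 0 / (n.factorial : ℂ)).partialSum (S + 1) s =
      P s + iteratedDeriv S F 0 / S.factorial * s ^ S := by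
    intro s
    rw [FormalMultilinearSeries.partialSum, Finset.sum_range_succ,
      FormalMultilinearSeries.ofScalars_apply_eq, smul_eq_mul, hP]
    congr 1
    exact Finset.sum_congr rfl fun t _ => by
      rw [FormalMultilinearSeries.ofScalars_apply_eq, smul_eq_mul]
  refine ⟨fun s => if s = 0 then iteratedDeriv S F 0 / S.factorial else (F s - P s) / s ^ S,
    ?_, ?_⟩
  · rw [ContinuousAt, if_pos rfl, tendsto_iff_norm_sub_tendsto_zero]
    have h3 : Filter.Tendsto (fun s : ℂ => K * ‖s‖) (nhds 0) (nhds 0) := by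
      have h4 : Continuous fun s : ℂ => K * ‖s‖ := by fun_prop
      have h5 := h4.tendsto 0
      rwa [norm_zero, mul_zero] at h5
    refine squeeze_zero' (Filter.Eventually.of_forall fun s => norm_nonneg _) ?_ h3
    filter_upwards [hK] with s hs
    by_cases h0 : s = 0
    · subst h0
      simp
    · rw [if_neg h0]
      rw [zero_add, hps] at hs
      have h6 : (F s - P s) / s ^ S - iteratedDeriv S F 0 / S.factorial =
          (F s - (P s + iteratedDeriv S F 0 / S.factorial * s ^ S)) / s ^ S := by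
        have := pow_ne_zero S h0
        field_simp
        ring
      rw [h6, norm_div, div_le_iff₀ (by rw [norm_pow]; exact pow_pos (norm_pos_iff.2 h0) _)]
      refine hs.trans (le_of_eq ?_)
      rw [norm_pow, norm_norm, norm_pow, pow_succ]
      ring
  · intro s
    by_cases h0 : s = 0
    · subst h0
      simp only [if_true]
      rcases Nat.eq_zero_or_pos S with rfl | hS
      · simp
      · rw [zero_pow hS.ne', zero_mul, add_zero,
          Finset.sum_eq_single_of_mem 0 (Finset.mem_range.2 hS)]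
        · simp
        · intro t _ ht
          rw [zero_pow ht, mul_zero]
    · have h7 := pow_ne_zero S h0
      change F s = P s + s ^ S * (if s = 0 then iteratedDeriv S F 0 / S.factorial
        else (F s - P s) / s ^ S)
      rw [if_neg h0, mul_div_cancel₀ _ h7]
      ring

theorem loc {y : ℂ} (hy : y ≠ 0) {b : CZ.BaseFn y} {lam h kap ep : ℂ} {ε : ℝ} {Xf X1f Yf : ℂ → ℂ}
    (hS : CZ.BaseSys b lam h kap ep ε Xf X1f Yf) :
    ∃ (r : ℝ) (C : ℕ), 0 < r ∧ r ≤ 1 / 4 ∧ 1 ≤ C ∧ ∀ (D : ℕ) (c : Ix D → ℂ),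
      (∀ (S : ℕ) (η : ℝ), 0 ≤ η → (∀ t < S, ‖jt (Pt ep h y) D c t‖ ≤ η) →
        ∃ a g : ℂ → ℂ, DifferentiableOn ℂ a (ball 0 r) ∧ ContinuousOn a (closedBall 0 r) ∧
          ContinuousAt g 0 ∧ (∀ s ∈ closedBall (0 : ℂ) r, GG b D c s = a s + s ^ S * g s) ∧
          ∀ s ∈ closedBall (0 : ℂ) r, ‖a s‖ ≤ (C : ℝ) ^ (D + 1) * η) ∧
      ∀ η : ℝ, (∀ s ∈ closedBall (0 : ℂ) r, ‖GG b D c s‖ ≤ η) →
        ∀ t : ℕ, ‖jt (Pt ep h y) D c t‖ ≤ t.factorial * (C : ℝ) ^ (D + t + 1) * η := by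
  classical
  obtain ⟨δ, hδ, hA⟩ := CZ.near0 b
  have hε := hS.hε
  have hny : 0 < ‖y‖ := norm_pos_iff.2 hy
  have hlam : 0 < ‖lam‖ := norm_pos_iff.2 hS.hlam
  set r : ℝ := min (min (1 / 4) (ε / 4)) (min (ε / ‖y‖ / 4) (min δ (δ / ‖y‖))) with hr
  have r0 : 0 < r := by
    rw [hr]
    positivity
  have r1 : r ≤ 1 / 4 := (min_le_left _ _).trans (min_le_left _ _)
  have r2 : r ≤ ε / 4 := (min_le_left _ _).trans (min_le_right _ _)
  have r3 : r ≤ ε / ‖y‖ / 4 := (min_le_right _ _).trans (min_le_left _ _)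
  have r4 : r ≤ δ := (min_le_right _ _).trans ((min_le_right _ _).trans (min_le_left _ _))
  have r5 : r ≤ δ / ‖y‖ := (min_le_right _ _).trans ((min_le_right _ _).trans (min_le_right _ _))
  have hεy : 0 < ε / ‖y‖ := div_pos hε hny
  have hsub : closedBall (0 : ℂ) r ⊆ ball 0 (min ε (ε / ‖y‖)) := by
    apply closedBall_subset_ball
    rw [lt_min_iff]
    constructor <;> linarith
  have hball : 0 < min ε (ε / ‖y‖) := lt_min hε hεy
  have hs1 : ∀ s ∈ closedBall (0 : ℂ) r, ‖s‖ ≤ r := fun s hs => mem_closedBall_zero_iff.1 hs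
  have hs2 : ∀ s ∈ closedBall (0 : ℂ) r, ‖s‖ < ε := fun s hs => by
    have := hs1 s hs
    linarith
  have hs3 : ∀ s ∈ closedBall (0 : ℂ) r, ‖y * s‖ < ε := fun s hs => by
    have h1 := hs1 s hs
    have h2 : ‖s‖ < ε / ‖y‖ := by linarith
    rw [lt_div_iff₀ hny] at h2
    rw [norm_mul, mul_comm]
    exact h2
  have hs4 : ∀ s ∈ closedBall (0 : ℂ) r, ‖y * s‖ ≤ δ := fun s hs => by
    have h1 := hs1 s hs
    have h2 : ‖s‖ ≤ δ / ‖y‖ := by linarith
    rw [le_div_iff₀ hny] at h2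
    rw [norm_mul, mul_comm]
    exact h2
  set e : ℂ → ℂ := fun s => exp (2 * Real.pi * I * y * s ^ 2) * (b.A s * b.A (y * s)) ^ 2 with he
  have hed : Differentiable ℂ e := by
    have h1 := b.dA
    have h2 : Differentiable ℂ fun s => b.A (y * s) := h1.comp (by fun_prop)
    rw [he]
    fun_prop
  have he0 : ∀ s ∈ closedBall (0 : ℂ) r, e s ≠ 0 := by
    intro s hs
    have h1 := hA s ((hs1 s hs).trans r4)
    have h2 := hA (y * s) (hs4 s hs)
    have h3 : b.A s ≠ 0 := by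
      rw [← norm_pos_iff]
      linarith
    have h4 : b.A (y * s) ≠ 0 := by
      rw [← norm_pos_iff]
      linarith
    exact mul_ne_zero (Complex.exp_ne_zero _) (pow_ne_zero 2 (mul_ne_zero h3 h4))
  have hcpt : IsCompact (closedBall (0 : ℂ) r) := isCompact_closedBall 0 r
  obtain ⟨M1, hM1⟩ := hcpt.exists_bound_of_continuousOn (f := e) hed.continuous.continuousOn
  obtain ⟨M2, hM2⟩ := hcpt.exists_bound_of_continuousOn (f := fun s => (e s)⁻¹)
    (hed.continuous.continuousOn.inv₀ he0)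
  obtain ⟨C, hC⟩ := exists_nat_ge (max (max 1 M1) (max M2 (max (Real.exp ‖lam‖) (1 / (r * ‖lam‖)))))
  have c1 : (1 : ℝ) ≤ C := ((le_max_left _ _).trans (le_max_left _ _)).trans hC
  have c2 : M1 ≤ C := ((le_max_right _ _).trans (le_max_left _ _)).trans hC
  have c3 : M2 ≤ C := ((le_max_left _ _).trans (le_max_right _ _)).trans hC
  have c4 : Real.exp ‖lam‖ ≤ C := (((le_max_left _ _).trans (le_max_right _ _)).trans
    (le_max_right _ _)).trans hC
  have c5 : 1 / (r * ‖lam‖) ≤ C := (((le_max_right _ _).trans (le_max_right _ _)).trans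
    (le_max_right _ _)).trans hC
  have hGG : ∀ (D : ℕ) (c : Ix D → ℂ), ∀ s ∈ closedBall (0 : ℂ) r,
      GG b D c s = e s ^ D * FX Xf y D c s :=
    fun D c s hs => J3_GG hS D c (hs2 s hs) (hs3 s hs)
  refine ⟨r, C, r0, r1, by exact_mod_cast c1, fun D c => ?_⟩
  obtain ⟨hF, hj⟩ := jets hy hS D c
  constructor
  · intro S η hη hjt
    obtain ⟨g, hg, hFg⟩ := J3_taylor hball hF S
    have hpd : Differentiable ℂ fun s : ℂ =>
        ∑ t ∈ Finset.range S, iteratedDeriv t (FX Xf y D c) 0 / t.factorial * s ^ t := by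
      fun_prop
    have had : Differentiable ℂ fun s : ℂ => e s ^ D *
        ∑ t ∈ Finset.range S, iteratedDeriv t (FX Xf y D c) 0 / t.factorial * s ^ t :=
      (hed.pow D).mul hpd
    refine ⟨fun s => e s ^ D *
        ∑ t ∈ Finset.range S, iteratedDeriv t (FX Xf y D c) 0 / t.factorial * s ^ t,
      fun s => e s ^ D * g s, had.differentiableOn, had.continuous.continuousOn,
      (hed.continuous.continuousAt.pow D).mul hg, ?_, ?_⟩
    · intro s hs
      rw [hGG D c s hs, hFg s]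
      ring
    · intro s hs
      have h1 : ‖e s‖ ≤ C := (hM1 s hs).trans c2
      have h2 : ‖∑ t ∈ Finset.range S, iteratedDeriv t (FX Xf y D c) 0 / t.factorial * s ^ t‖ ≤
          Real.exp ‖lam‖ * η := by
        calc ‖∑ t ∈ Finset.range S, iteratedDeriv t (FX Xf y D c) 0 / t.factorial * s ^ t‖
            ≤ ∑ t ∈ Finset.range S, ‖lam‖ ^ t / t.factorial * η := by
              refine norm_sum_le_of_le _ fun t ht => ?_
              rw [hj, norm_mul, norm_div, norm_mul, norm_pow, norm_pow, Complex.norm_natCast]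
              have h3 := hjt t (Finset.mem_range.1 ht)
              have h4 : ‖s‖ ^ t ≤ 1 := pow_le_one₀ (norm_nonneg _) (by
                have := hs1 s hs
                linarith)
              calc ‖lam‖ ^ t * ‖jt (Pt ep h y) D c t‖ / (t.factorial : ℝ) * ‖s‖ ^ t
                  ≤ ‖lam‖ ^ t * η / (t.factorial : ℝ) * 1 := by gcongr
                _ = ‖lam‖ ^ t / (t.factorial : ℝ) * η := by ring
          _ = (∑ t ∈ Finset.range S, ‖lam‖ ^ t / t.factorial) * η := by rw [Finset.sum_mul]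
          _ ≤ Real.exp ‖lam‖ * η := by
              gcongr
              exact Real.sum_le_exp_of_nonneg (norm_nonneg _) S
      rw [norm_mul, norm_pow]
      calc ‖e s‖ ^ D * ‖∑ t ∈ Finset.range S,
              iteratedDeriv t (FX Xf y D c) 0 / t.factorial * s ^ t‖
          ≤ (C : ℝ) ^ D * (C * η) := by
            gcongr
            exact h2.trans (by gcongr)
        _ = (C : ℝ) ^ (D + 1) * η := by rw [pow_succ]; ring
  · intro η hη t
    have hη0 : 0 ≤ η := (norm_nonneg _).trans (hη 0 (mem_closedBall_self r0.le))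
    have hFb : ∀ s ∈ closedBall (0 : ℂ) r, ‖FX Xf y D c s‖ ≤ (C : ℝ) ^ D * η := by
      intro s hs
      have h1 := hη s hs
      rw [hGG D c s hs] at h1
      have h2 : FX Xf y D c s = (e s)⁻¹ ^ D * (e s ^ D * FX Xf y D c s) := by
        rw [← mul_assoc, ← mul_pow, inv_mul_cancel₀ (he0 s hs), one_pow, one_mul]
      rw [h2, norm_mul, norm_pow]
      have h3 : ‖(e s)⁻¹‖ ≤ C := (hM2 s hs).trans c3
      gcongr
    have hdc : DiffContOnCl ℂ (FX Xf y D c) (ball 0 r) := by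
      apply DifferentiableOn.diffContOnCl
      rw [closure_ball _ r0.ne']
      exact hF.mono hsub
    have h1 := Complex.norm_iteratedDeriv_le_of_forall_mem_sphere_norm_le t r0 hdc
      (fun z hz => hFb z (sphere_subset_closedBall hz))
    rw [hj, norm_mul, norm_pow] at h1
    have hlt : 0 < ‖lam‖ ^ t := pow_pos hlam t
    have h2 : ‖jt (Pt ep h y) D c t‖ ≤ t.factorial * ((C : ℝ) ^ D * η) / r ^ t / ‖lam‖ ^ t := by
      rw [le_div_iff₀ hlt, mul_comm]
      exact h1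
    refine h2.trans ?_
    calc t.factorial * ((C : ℝ) ^ D * η) / r ^ t / ‖lam‖ ^ t
        = t.factorial * ((C : ℝ) ^ D * η) * (1 / (r * ‖lam‖)) ^ t := by
          rw [div_div, ← mul_pow, one_div, inv_pow, div_eq_mul_inv]
      _ ≤ t.factorial * ((C : ℝ) ^ D * η) * (C : ℝ) ^ t := by gcongr
      _ = t.factorial * (C : ℝ) ^ (D + t) * η := by rw [pow_add]; ring
      _ ≤ t.factorial * (C : ℝ) ^ (D + t + 1) * η := by
          have h9 : (C : ℝ) ^ (D + t) ≤ (C : ℝ) ^ (D + t + 1) := pow_le_pow_right₀ c1 (by omega)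
          gcongr

end MJ
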