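import Pool.Agent.H32.MJ.J3
import Pool.Agent.H32.MJ.J4

/-!
# MP_ede373, measure of `j(y)`, row J5: small jets at the origin make `GG` small in a wide strip

Let `r, C` be from `loc`, `C'` from `GG_growth`. Put `C3 = 4 K + 8`, `n = C3 D`, `R = C3 D` (real), `S = C1 D^2` with
`C1 = A + 2 + C' (1 + (K + 4 C3)^2)`.
Fix `s` with `|Im s| ≤ K D` and put `g v = GG b D c (s + v)` (entire), points `u_i = k_i - s`, `k_i = ⌊Re s⌋ - n/2 + i` (integers, `i : Fin n`): `|Re u_i| ≤ n/2 + 1 ≤ (3/4) R`, `|Im u_i| ≤ K D ≤ R/4`, so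
`‖u_i‖ ≤ R`; `‖u_i - u_j‖ ≥ 1 ≥ 2 r` for `i ≠ j`. Local structure at `u_i`, `δ = r`: by `GG_int` `g v = GG b D c (s + v - k_i) = GG b D c (v - u_i)` for all `v`, so with `a, g0` from the first part of `loc` with `S`, `η = exp (-D^4)`:
`g v = a (v - u_i) + (v - u_i)^S g0 (v - u_i)` on `closedBall (u_i) r`, `‖a‖ ≤ C^(D+1) η`.
`U2.Hm_gen n u r R ... (m := n * S)` with `s = fun _ ↦ S`, `ε = C^(D+1) η`, `M = exp (C' D (1 + (K D + 4 R)^2)) ≤ exp (C' (1 + (K + 4 C3)^2) D^3)`: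
`‖GG b D c s‖ = ‖g 0‖ ≤ (1/3)^(n S) M + 2 (n S) (2 R/r)^(n S) C^(D+1) exp (-D^4)`.
First term: `n S = C3 C1 D^3 ≥ C1 D^3`, `(1/3)^(n S) ≤ exp (-n S)`, so it is `≤ exp (-(A + 2) D^3) ≤ exp (-A D^3) / 2` (`D ≥ 1`). Second term: the logarithm is
`≤ log 2 + log (n S) + (C3 C1 D^3) log (2 C3 D / r) + (D + 1) log C - D^4`, which is `≤ -A D^3 - log 2` for `D ≥ D0` since `log D = o(D)` (`Real.isLittleO_log_id_atTop` or `log D ≤ 2 √D`;
`(c1 + c2 log D) D^3 ≤ D^4` for large `D`).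
-/

set_option autoImplicit false

namespace MJ

open Complex Metric U2

theorem J5_ball {y : ℂ} (b : CZ.BaseFn y) {r : ℝ} (hr0 : 0 < r) (hr : r ≤ 1 / 4) (D : ℕ)
    (c : Ix D → ℂ) {S K C' C3 : ℕ} (hD : 1 ≤ D) (hC3 : C3 = 4 * K + 8) {ε : ℝ} (hε : 0 ≤ ε)
    (a g0 : ℂ → ℂ) (ha1 : DifferentiableOn ℂ a (ball 0 r)) (ha2 : ContinuousOn a (closedBall 0 r))
    (hg0 : ContinuousAt g0 0)
    (hloc : ∀ s ∈ closedBall (0 : ℂ) r, GG b D c s = a s + s ^ S * g0 s)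
    (hae : ∀ s ∈ closedBall (0 : ℂ) r, ‖a s‖ ≤ ε)
    (hgr : ∀ s : ℂ, ‖GG b D c s‖ ≤ Real.exp (C' * D * (1 + s.im ^ 2))) :
    ∀ s : ℂ, |s.im| ≤ K * D → ‖GG b D c s‖ ≤
      (1 / 3) ^ (C3 * D * S) *
        Real.exp (C' * D * (1 + (K * (D : ℝ) + 4 * (C3 * D : ℕ)) ^ 2)) +
      2 * ((C3 * D * S : ℕ) : ℝ) * (2 * ((C3 * D : ℕ) : ℝ) / r) ^ (C3 * D * S) * ε := by
  intro s hs
  have hD' : (1 : ℝ) ≤ D := by exact_mod_cast hD
  set n : ℕ := C3 * D with hn
  have hnD : (n : ℝ) = (4 * K + 8) * D := by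
    rw [hn, hC3]
    push_cast
    ring
  have hK0 : (0 : ℝ) ≤ K * D := by positivity
  have hn1 : (1 : ℝ) ≤ n := by
    rw [hnD]
    nlinarith
  set k : Fin n → ℤ := fun i => ⌊s.re⌋ - (n / 2 : ℕ) + (i : ℤ) with hk
  set u : Fin n → ℂ := fun i => (k i : ℂ) - s with hu
  have hkb : ∀ i, |(k i : ℝ) - s.re| ≤ n / 2 + 1 := by
    intro i
    have h1 : 2 * (k i - ⌊s.re⌋) ≤ n := by
      have := i.2
      simp only [hk]
      omega
    have h2 : -(n : ℤ) ≤ 2 * (k i - ⌊s.re⌋) := by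
      have := i.2
      simp only [hk]
      omega
    have h3 : 2 * ((k i : ℝ) - ⌊s.re⌋) ≤ n := by exact_mod_cast h1
    have h4 : -(n : ℝ) ≤ 2 * ((k i : ℝ) - ⌊s.re⌋) := by exact_mod_cast h2
    have h5 := Int.floor_le s.re
    have h6 := Int.lt_floor_add_one s.re
    rw [abs_le]
    constructor <;> linarith
  have key := Hm_gen n u r n hr0 (by linarith) (by
      intro i
      have h1 : ‖u i‖ ≤ |(u i).re| + |(u i).im| := Complex.norm_le_abs_re_add_abs_im _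
      have h2 : (u i).re = (k i : ℝ) - s.re := by simp [hu]
      have h3 : (u i).im = - s.im := by simp [hu]
      rw [h2, h3, abs_neg] at h1
      have h4 := hkb i
      have h5 : (n : ℝ) / 2 + 1 + K * D ≤ n := by
        rw [hnD]
        nlinarith
      linarith)
    (by
      intro i j hij
      have h1 : u i - u j = ((k i - k j : ℤ) : ℂ) := by
        simp only [hu]
        push_cast
        ring
      rw [h1, Complex.norm_intCast]
      have h2 : k i - k j ≠ 0 := by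
        intro h3
        apply hij
        apply Fin.ext
        simp only [hk] at h3
        omega
      have h3 : (1 : ℝ) ≤ |((k i - k j : ℤ) : ℝ)| := by
        exact_mod_cast Int.one_le_abs h2
      linarith) (n * S)
    (fun v => GG b D c (s + v)) (fun _ => S) ε
    (Real.exp (C' * D * (1 + (K * (D : ℝ) + 4 * n) ^ 2)))
    ((GG_diff b D c).comp ((differentiable_const s).add differentiable_id))
    (by simp) hε
    (by
      intro i
      have hsub : ∀ v ∈ closedBall (u i) r, v - u i ∈ closedBall (0 : ℂ) r := by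
        intro v hv
        rw [mem_closedBall, dist_eq_norm] at hv
        simpa using hv
      have hsub2 : ∀ v ∈ ball (u i) r, v - u i ∈ ball (0 : ℂ) r := by
        intro v hv
        rw [mem_ball, dist_eq_norm] at hv
        simpa using hv
      refine ⟨fun v => a (v - u i), fun v => g0 (v - u i), ?_, ?_, ?_, ?_, ?_⟩
      · exact ha1.comp (differentiableOn_id.sub_const _) hsub2
      · exact ha2.comp (continuousOn_id.sub continuousOn_const) hsub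
      · have h1 : ContinuousAt (fun v : ℂ => v - u i) (u i) :=
          (continuous_id.sub continuous_const).continuousAt
        exact ContinuousAt.comp (f := fun v : ℂ => v - u i) (g := g0)
          (by simpa using hg0) h1
      · intro v hv
        have h1 : s + v = (v - u i) + ((k i : ℤ) : ℂ) := by
          simp only [hu]
          ring
        have h2 : GG b D c (s + v) = GG b D c (v - u i) := by
          rw [h1, GG_int]
        change GG b D c (s + v) = _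
        rw [h2, hloc _ (hsub v hv)]
      · intro v hv
        exact hae _ (hsub v hv))
    (by
      intro v hv
      refine (hgr (s + v)).trans (Real.exp_le_exp.2 ?_)
      have h1 : |(s + v).im| ≤ K * D + 4 * n := by
        rw [Complex.add_im]
        refine (abs_add_le _ _).trans ?_
        have h2 := (Complex.abs_im_le_norm v).trans hv
        linarith
      have h2 : (s + v).im ^ 2 ≤ (K * (D : ℝ) + 4 * (n : ℝ)) ^ 2 := by
        rw [← sq_abs (s + v).im]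
        exact pow_le_pow_left₀ (abs_nonneg _) h1 2
      have h3 : (0 : ℝ) ≤ C' * D := by positivity
      exact mul_le_mul_of_nonneg_left (by linarith) h3)
  simp only [add_zero] at key
  exact key

theorem J5_log (A B κ : ℝ) (hκ : 0 < κ) : ∃ D0 : ℕ, ∀ D : ℕ, D0 ≤ D →
    A + B * Real.log D ≤ D / κ := by
  have h1 := (Real.isLittleO_log_id_atTop.bound (c := 1 / (2 * κ * (|B| + 1))) (by positivity))
  have h2 : ∀ᶠ x : ℝ in Filter.atTop, A + B * Real.log x ≤ x / κ := by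
    filter_upwards [h1, Filter.eventually_ge_atTop (2 * κ * |A|), Filter.eventually_ge_atTop 1]
      with x hx hA hx1
    have hx0 : 0 ≤ Real.log x := Real.log_nonneg hx1
    have h3 : Real.log x ≤ 1 / (2 * κ * (|B| + 1)) * x := by
      have h4 : ‖Real.log x‖ = Real.log x := by rw [Real.norm_eq_abs, abs_of_nonneg hx0]
      have h5 : ‖id x‖ = x := by rw [id, Real.norm_eq_abs, abs_of_nonneg (by linarith)]
      rw [h4, h5] at hx
      exact hx
    have h4 : A ≤ x / (2 * κ) := by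
      rw [le_div_iff₀ (by positivity)]
      have := le_abs_self A
      nlinarith
    have h5 : B * Real.log x ≤ x / (2 * κ) := by
      calc B * Real.log x ≤ (|B| + 1) * Real.log x := by
            apply mul_le_mul_of_nonneg_right _ hx0
            have := le_abs_self B
            linarith
        _ ≤ (|B| + 1) * (1 / (2 * κ * (|B| + 1)) * x) :=
            mul_le_mul_of_nonneg_left h3 (by positivity)
        _ = x / (2 * κ) := by
            have : |B| + 1 ≠ 0 := by positivity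
            field_simp
    have h6 : x / κ = x / (2 * κ) + x / (2 * κ) := by
      field_simp
      ring
    linarith
  have h3 := tendsto_natCast_atTop_atTop (R := ℝ) |>.eventually h2
  exact Filter.eventually_atTop.1 h3

theorem J5_first {D C3 C1 A C' K : ℕ} (hD : 1 ≤ D) (hC3 : 1 ≤ C3)
    (hC1 : C1 = A + 2 + C' * (1 + (K + 4 * C3) ^ 2)) :
    (1 / 3 : ℝ) ^ (C3 * D * (C1 * D ^ 2)) *
        Real.exp (C' * D * (1 + (K * (D : ℝ) + 4 * (C3 * D : ℕ)) ^ 2)) ≤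
      Real.exp (-(A * (D : ℝ) ^ 3)) / 2 := by
  have hD' : (1 : ℝ) ≤ D := by exact_mod_cast hD
  have hC3' : (1 : ℝ) ≤ C3 := by exact_mod_cast hC3
  have h3 : (1 / 3 : ℝ) ≤ Real.exp (-1) := by
    rw [Real.exp_neg, one_div]
    apply inv_anti₀ (Real.exp_pos 1)
    have := Real.exp_one_lt_d9
    linarith
  have h4 : (1 / 3 : ℝ) ^ (C3 * D * (C1 * D ^ 2)) ≤ Real.exp (-((C1 : ℝ) * D ^ 3)) := by
    calc (1 / 3 : ℝ) ^ (C3 * D * (C1 * D ^ 2)) ≤ Real.exp (-1) ^ (C3 * D * (C1 * D ^ 2)) :=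
          pow_le_pow_left₀ (by norm_num) h3 _
      _ = Real.exp (-((C3 : ℝ) * (C1 * D ^ 3))) := by
          rw [← Real.exp_nat_mul]
          congr 1
          push_cast
          ring
      _ ≤ Real.exp (-((C1 : ℝ) * D ^ 3)) := by
          apply Real.exp_le_exp.2
          have : (0 : ℝ) ≤ C1 * D ^ 3 := by positivity
          nlinarith
  have h5 : (C' : ℝ) * D * (1 + (K * (D : ℝ) + 4 * (C3 * D : ℕ)) ^ 2) ≤
      C' * (1 + (K + 4 * C3) ^ 2) * D ^ 3 := by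
    have h6 : 1 + (K * (D : ℝ) + 4 * (C3 * D : ℕ)) ^ 2 ≤ (1 + (K + 4 * (C3 : ℝ)) ^ 2) * D ^ 2 := by
      have h7 : (K * (D : ℝ) + 4 * (C3 * D : ℕ)) = (K + 4 * C3) * D := by
        push_cast
        ring
      rw [h7]
      have h8 : (1 : ℝ) ≤ (D : ℝ) ^ 2 := one_le_pow₀ hD'
      rw [mul_pow, add_mul]
      linarith
    calc (C' : ℝ) * D * (1 + (K * (D : ℝ) + 4 * (C3 * D : ℕ)) ^ 2)
        ≤ C' * D * ((1 + (K + 4 * (C3 : ℝ)) ^ 2) * D ^ 2) :=
          mul_le_mul_of_nonneg_left h6 (by positivity)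
      _ = C' * (1 + (K + 4 * C3) ^ 2) * D ^ 3 := by ring
  have h9 : Real.exp (-((C1 : ℝ) * D ^ 3)) *
      Real.exp (C' * (1 + (K + 4 * C3) ^ 2) * D ^ 3) = Real.exp (-((A + 2) * (D : ℝ) ^ 3)) := by
    rw [← Real.exp_add, hC1]
    congr 1
    push_cast
    ring
  have h10 : Real.exp (-((A + 2) * (D : ℝ) ^ 3)) ≤ Real.exp (-(A * (D : ℝ) ^ 3)) / 2 := by
    have h11 : -((A + 2) * (D : ℝ) ^ 3) ≤ -(A * (D : ℝ) ^ 3) + -1 := by
      have h8 : (1 : ℝ) ≤ (D : ℝ) ^ 3 := one_le_pow₀ hD'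
      nlinarith
    calc Real.exp (-((A + 2) * (D : ℝ) ^ 3)) ≤ Real.exp (-(A * (D : ℝ) ^ 3) + -1) :=
          Real.exp_le_exp.2 h11
      _ = Real.exp (-(A * (D : ℝ) ^ 3)) * (Real.exp 1)⁻¹ := by
          rw [Real.exp_add, Real.exp_neg 1]
      _ ≤ Real.exp (-(A * (D : ℝ) ^ 3)) * 2⁻¹ := by
          apply mul_le_mul_of_nonneg_left _ (Real.exp_pos _).le
          apply inv_anti₀ (by norm_num)
          have := Real.add_one_le_exp (1 : ℝ)
          linarith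
      _ = Real.exp (-(A * (D : ℝ) ^ 3)) / 2 := by rw [div_eq_mul_inv]
  calc _ ≤ Real.exp (-((C1 : ℝ) * D ^ 3)) *
        Real.exp (C' * (1 + (K + 4 * C3) ^ 2) * D ^ 3) :=
        mul_le_mul h4 (Real.exp_le_exp.2 h5) (Real.exp_pos _).le (Real.exp_pos _).le
    _ = _ := h9
    _ ≤ _ := h10

theorem J5_second (C3 C1 A C : ℕ) (r : ℝ) (hr0 : 0 < r) (hr : r ≤ 1 / 4) (hC3 : 1 ≤ C3)
    (hC1 : 1 ≤ C1) (hC : 1 ≤ C) : ∃ D0 : ℕ, ∀ D : ℕ, D0 ≤ D → 1 ≤ D →
    2 * ((C3 * D * (C1 * D ^ 2) : ℕ) : ℝ) *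
      (2 * ((C3 * D : ℕ) : ℝ) / r) ^ (C3 * D * (C1 * D ^ 2)) *
        ((C : ℝ) ^ (D + 1) * Real.exp (-(D : ℝ) ^ 4)) ≤ Real.exp (-(A * (D : ℝ) ^ 3)) / 2 := by
  obtain ⟨D0, hD0⟩ := J5_log (C3 * C1 * (1 + Real.log (2 * C3 / r)) + 2 * Real.log C + A + 1)
    (C3 * C1) 1 one_pos
  refine ⟨D0, fun D hD hD1 => ?_⟩
  have hl := hD0 D hD
  rw [div_one] at hl
  have hD' : (1 : ℝ) ≤ D := by exact_mod_cast hD1
  have hC3' : (1 : ℝ) ≤ C3 := by exact_mod_cast hC3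
  have hC1' : (1 : ℝ) ≤ C1 := by exact_mod_cast hC1
  have hC' : (1 : ℝ) ≤ C := by exact_mod_cast hC
  obtain ⟨m, hm⟩ : ∃ m : ℕ, m = C3 * D * (C1 * D ^ 2) := ⟨_, rfl⟩
  have hmr : (m : ℝ) = C3 * C1 * D ^ 3 := by
    rw [hm]
    push_cast
    ring
  have hm0 : (0 : ℝ) ≤ m := Nat.cast_nonneg _
  rw [← hm]
  have e1 : 2 * (m : ℝ) ≤ Real.exp m := by
    have h1 := Real.quadratic_le_exp_of_nonneg hm0
    nlinarith [sq_nonneg ((m : ℝ) - 1)]
  have hpos : 0 < 2 * (C3 : ℝ) / r := by positivity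
  have e2 : (2 * ((C3 * D : ℕ) : ℝ) / r) ^ m =
      Real.exp (m * (Real.log (2 * C3 / r) + Real.log D)) := by
    have h1 : 2 * ((C3 * D : ℕ) : ℝ) / r = 2 * C3 / r * D := by
      push_cast
      ring
    rw [h1, ← Real.log_mul hpos.ne' (by positivity), Real.exp_nat_mul,
      Real.exp_log (by positivity)]
  have e3 : (C : ℝ) ^ (D + 1) = Real.exp ((D + 1) * Real.log C) := by
    have h1 : ((D : ℝ) + 1) = ((D + 1 : ℕ) : ℝ) := by push_cast; ring
    rw [h1, Real.exp_nat_mul, Real.exp_log (by linarith)]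
  have hlC : 0 ≤ Real.log C := Real.log_nonneg hC'
  have hD3 : (1 : ℝ) ≤ (D : ℝ) ^ 3 := one_le_pow₀ hD'
  have e4 : (m : ℝ) + m * (Real.log (2 * C3 / r) + Real.log D) + (D + 1) * Real.log C +
      -(D : ℝ) ^ 4 ≤ -(A * (D : ℝ) ^ 3) + -1 := by
    have h1 := mul_le_mul_of_nonneg_left hl (show (0 : ℝ) ≤ (D : ℝ) ^ 3 by positivity)
    have h2 : ((D : ℝ) + 1) * Real.log C ≤ 2 * (D : ℝ) ^ 3 * Real.log C := by
      apply mul_le_mul_of_nonneg_right _ hlC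
      have h3 : (D : ℝ) ≤ (D : ℝ) ^ 3 := by
        calc (D : ℝ) = D ^ 1 := (pow_one _).symm
          _ ≤ (D : ℝ) ^ 3 := pow_le_pow_right₀ hD' (by norm_num)
      linarith
    rw [hmr]
    have h4 : (D : ℝ) ^ 3 * D = (D : ℝ) ^ 4 := by ring
    rw [h4] at h1
    have h5 : (D : ℝ) ^ 3 * (C3 * C1 * (1 + Real.log (2 * C3 / r)) + 2 * Real.log C + A + 1 +
        C3 * C1 * Real.log D) = C3 * C1 * D ^ 3 + C3 * C1 * D ^ 3 *
        (Real.log (2 * C3 / r) + Real.log D) + 2 * (D : ℝ) ^ 3 * Real.log C + A * (D : ℝ) ^ 3 +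
        (D : ℝ) ^ 3 := by ring
    rw [h5] at h1
    linarith
  calc 2 * (m : ℝ) * (2 * ((C3 * D : ℕ) : ℝ) / r) ^ m *
        ((C : ℝ) ^ (D + 1) * Real.exp (-(D : ℝ) ^ 4))
      ≤ Real.exp m * Real.exp (m * (Real.log (2 * C3 / r) + Real.log D)) *
        (Real.exp ((D + 1) * Real.log C) * Real.exp (-(D : ℝ) ^ 4)) := by
        rw [e2, e3]
        gcongr
    _ = Real.exp ((m : ℝ) + m * (Real.log (2 * C3 / r) + Real.log D) + (D + 1) * Real.log C +
      -(D : ℝ) ^ 4) := by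
        rw [Real.exp_add, Real.exp_add, Real.exp_add]
        ring
    _ ≤ Real.exp (-(A * (D : ℝ) ^ 3) + -1) := Real.exp_le_exp.2 e4
    _ = Real.exp (-(A * (D : ℝ) ^ 3)) * (Real.exp 1)⁻¹ := by
        rw [Real.exp_add, Real.exp_neg 1]
    _ ≤ Real.exp (-(A * (D : ℝ) ^ 3)) * 2⁻¹ := by
        apply mul_le_mul_of_nonneg_left _ (Real.exp_pos _).le
        apply inv_anti₀ (by norm_num)
        have := Real.add_one_le_exp (1 : ℝ)
        linarith
    _ = Real.exp (-(A * (D : ℝ) ^ 3)) / 2 := by rw [div_eq_mul_inv]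

theorem GG_small {y : ℂ} (hy : 0 < y.im) {b : CZ.BaseFn y} {lam h kap ep : ℂ} {ε : ℝ}
    {Xf X1f Yf : ℂ → ℂ} (hS : CZ.BaseSys b lam h kap ep ε Xf X1f Yf) (K A : ℕ) :
    ∃ C1 D0 : ℕ, 1 ≤ C1 ∧ ∀ (D : ℕ) (c : Ix D → ℂ), D0 ≤ D → (∀ l, ‖c l‖ ≤ 1) →
      (∀ t < C1 * D ^ 2, ‖jt (Pt ep h y) D c t‖ ≤ Real.exp (-(D : ℝ) ^ 4)) →
      ∀ s : ℂ, |s.im| ≤ K * D → ‖GG b D c s‖ ≤ Real.exp (-(A * (D : ℝ) ^ 3)) := by
  have hy0 : y ≠ 0 := by
    rintro rfl
    simp at hy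
  obtain ⟨r, C, hr0, hr, hC, hloc⟩ := loc hy0 hS
  obtain ⟨C', hC', hgr⟩ := GG_growth b hy
  obtain ⟨C3, hC3⟩ : ∃ C3 : ℕ, C3 = 4 * K + 8 := ⟨_, rfl⟩
  obtain ⟨C1, hC1⟩ : ∃ C1 : ℕ, C1 = A + 2 + C' * (1 + (K + 4 * C3) ^ 2) := ⟨_, rfl⟩
  have hC31 : 1 ≤ C3 := by omega
  have hC11 : 1 ≤ C1 := by omega
  obtain ⟨D0, hD0⟩ := J5_second C3 C1 A C r hr0 hr hC31 hC11 hC
  refine ⟨C1, D0 + 1, hC11, ?_⟩
  intro D c hD hc hj s hs
  have hD1 : 1 ≤ D := by omega
  obtain ⟨h1, _⟩ := hloc D c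
  obtain ⟨a, g, ha1, ha2, hg, hag, hae⟩ := h1 (C1 * D ^ 2) _ (Real.exp_pos _).le hj
  have h2 := J5_ball b hr0 hr D c (S := C1 * D ^ 2) (K := K) (C' := C') hD1 hC3
    (ε := (C : ℝ) ^ (D + 1) * Real.exp (-(D : ℝ) ^ 4)) (by positivity) a g ha1 ha2 hg hag hae
    (hgr D c hD1 hc) s hs
  have h3 := J5_first (D := D) (K := K) hD1 hC31 hC1
  have h4 := hD0 D (by omega) hD1
  linarith

end MJ
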